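import Pool.Agent.S3.Hz.Chk
import Pool.Agent.S3.Ls.Gen

/-!
# Height ranges: the conclusion from the test
-/

set_option autoImplicit false

namespace Pool.Agent.S3.Hz

open Pool.Agent.S3.NI Pool.Agent.S3.T2

section

variable {θ θ' : ℝ} {v w : ℂ} {S S' kap : ℝ} {P : Par}

/-- The data of the three conclusions. -/
structure Dat (θ θ' : ℝ) (v w : ℂ) (S S' kap : ℝ) (P : Par) : Prop where
  h : T2.Pr θ θ' v w
  hv : Real.sinh (Real.pi * v.im) = S * Real.cos (Real.pi * v.re)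
  hw : Real.sinh (Real.pi * w.im) = S' * Real.cos (Real.pi * w.re)
  hD : Dom P.two S S'
  S0 : 0 < S
  S1 : S ≤ 1
  S0' : 0 ≤ S'
  S1' : S' ≤ 1
  k0 : 0 ≤ kap
  prp : Prp P (Real.cos (Real.pi * v.re) ^ 2) (Real.sin (Real.pi * v.re)) kap S S'
    (Real.sin (Real.pi * w.re))

theorem Dat.main (d : Dat θ θ' v w S S' kap P) :
    (P.mode = 0 → kap * S ≤ Real.sinh (Real.pi * (yv v w).im)) ∧
    (P.mode ≠ 0 → (P.mode = 2 ∧ 0 ≤ Real.sinh (Real.pi * (yv v w).im)) ∨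
      |Real.sinh (Real.pi * (yv v w).im)| ≤ kap * S) := by
  have hpi := Real.pi_pos
  have k := d.prp d.hD d.S1 d.S1' (Real.sin_sq_le_one _) _ _ _ rfl rfl rfl
  obtain ⟨id, g1, g2⟩ := pair_id d.h d.hv d.hw rfl rfl
  set X := ar S (Real.cos (Real.pi * v.re) ^ 2) + ar S' (1 - Real.sin (Real.pi * w.re) ^ 2)
    with hX
  set Y := ai S (Real.sin (Real.pi * v.re)) (Real.cos (Real.pi * v.re) ^ 2) -
      ai S' (Real.sin (Real.pi * w.re)) (1 - Real.sin (Real.pi * w.re) ^ 2) with hY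
  have cv : 0 < Real.cos (Real.pi * v.re) := cos_pi_pos d.h.hv.abs
  have cw : 0 < Real.cos (Real.pi * w.re) := cos_pi_pos d.h.hw.abs
  have e : 1 - Real.sin (Real.pi * w.re) ^ 2 = Real.cos (Real.pi * w.re) ^ 2 := by
    have := Real.sin_sq_add_cos_sq (Real.pi * w.re); linarith
  have X1 : 1 ≤ X := by
    rw [hX, e]
    exact X_ge (by positivity) (Real.cos_sq_le_one _) (pow_le_one₀ d.S0.le d.S1) (by positivity)
      (Real.cos_sq_le_one _) (pow_le_one₀ d.S0' d.S1')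
  have hN : 0 < X ^ 2 + Y ^ 2 := by nlinarith [sq_nonneg Y]
  set σ := Real.sinh (Real.pi * (yv v w).im) ^ 2 with hσ
  have σ0 : 0 ≤ σ := sq_nonneg _
  have t0 : 0 ≤ kap ^ 2 * S ^ 2 := by positivity
  have kS : 0 ≤ kap * S := mul_nonneg d.k0 d.S0.le
  refine ⟨fun hm => ?_, fun hm => ?_⟩
  · obtain ⟨y0, k1⟩ := k.1 hm
    have hs : 0 ≤ Real.sinh (Real.pi * (yv v w).im) :=
      Real.sinh_nonneg_iff.2 (mul_nonneg hpi.le (g1 y0).le)
    by_contra hc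
    push Not at hc
    have h2 : σ < kap ^ 2 * S ^ 2 := by
      rw [hσ, ← mul_pow]; exact pow_lt_pow_left₀ hc hs two_ne_zero
    have := lt_of_test X1 σ0 t0 rfl h2 hN
    linarith
  · rcases k.2 hm with ⟨h2, y0⟩ | k1
    · exact Or.inl ⟨h2, Real.sinh_nonneg_iff.2 (mul_nonneg hpi.le (g2 y0))⟩
    · right
      by_contra hc
      push Not at hc
      have h2 : kap ^ 2 * S ^ 2 < σ := by
        rw [hσ, ← mul_pow, ← sq_abs (Real.sinh _)]
        exact pow_lt_pow_left₀ hc kS two_ne_zero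
      -- the monotonicity, with the roles exchanged
      have hq : kap ^ 2 * S ^ 2 * (1 + kap ^ 2 * S ^ 2) = kap ^ 2 * S ^ 2 * (1 + kap ^ 2 * S ^ 2) :=
        rfl
      have := lt_of_test (σ := kap ^ 2 * S ^ 2) (t := σ) (q := σ * (1 + σ)) X1 t0 σ0 rfl h2 hN
      linarith

theorem Dat.lo (d : Dat θ θ' v w S S' kap P) (hm : P.mode = 0) :
    kap * S ≤ Real.sinh (Real.pi * (yv v w).im) := d.main.1 hm

theorem Dat.hi (d : Dat θ θ' v w S S' kap P) (hm : P.mode = 1) :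
    Real.sinh (Real.pi * (yv v w).im) ≤ kap * S := by
  rcases d.main.2 (by rw [hm]; norm_num) with ⟨h, -⟩ | h
  · rw [hm] at h; exact absurd h (by norm_num)
  · exact (abs_le.1 h).2

theorem Dat.neg (d : Dat θ θ' v w S S' kap P) (hm : P.mode = 2) :
    -(kap * S) ≤ Real.sinh (Real.pi * (yv v w).im) := by
  rcases d.main.2 (by rw [hm]; norm_num) with ⟨-, h⟩ | h
  · have := mul_nonneg d.k0 d.S0.le
    linarith
  · exact (abs_le.1 h).1

end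

/-! ### Numerical bounds -/

theorem sin_sept {x : ℝ} (hx : 0 ≤ x) : x - x ^ 3 / 6 + x ^ 5 / 120 - x ^ 7 / 5040 ≤ Real.sin x := by
  have h := LowA_pos (b := x)
    (f := fun x => Real.sin x - (x - x ^ 3 / 6 + x ^ 5 / 120 - x ^ 7 / 5040))
    (f' := fun x => Real.cos x - (1 - x ^ 2 / 2 + x ^ 4 / 24 - x ^ 6 / 720))
    (fun x _ _ => by
      have h1 := (Real.hasDerivAt_sin x).sub (((hasDerivAt_id' x).sub
        (((hasDerivAt_id' x).pow 3).div_const 6) |>.add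
        (((hasDerivAt_id' x).pow 5).div_const 120)).sub
        (((hasDerivAt_id' x).pow 7).div_const 5040))
      refine h1.congr_deriv ?_
      simp only [Nat.cast_ofNat]
      ring)
    (by simp) (fun x hx _ => by linarith [Ls.cos_sext hx]) hx le_rfl
  linarith

/-- `sin (π r)` for `r ≤ 1/4` (or `1/2`). -/
theorem sin_lo {r x l : ℝ} (hx0 : 0 ≤ x) (hx : x ≤ 314159 / 100000 * r) (hr : r ≤ 1 / 2)
    (n : l ≤ x - x ^ 3 / 6 + x ^ 5 / 120 - x ^ 7 / 5040) : l ≤ Real.sin (Real.pi * r) := by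
  have hpi := Real.pi_gt_d6
  have hr0 : 0 ≤ r := by nlinarith
  refine n.trans ((sin_sept hx0).trans ?_)
  apply Real.sin_le_sin_of_le_of_le_pi_div_two
  · linarith
  · nlinarith
  · nlinarith

theorem sin_hi {r x l : ℝ} (hr0 : 0 ≤ r) (hx : 31416 / 10000 * r ≤ x) (hx1 : x ≤ 3 / 2)
    (n : x - x ^ 3 / 6 + x ^ 5 / 120 ≤ l) : Real.sin (Real.pi * r) ≤ l := by
  have hpi := Real.pi_gt_three
  have hpi2 := Real.pi_lt_d4
  have hx0 : 0 ≤ x := by nlinarith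
  refine le_trans ?_ ((Ls.sin_quint hx0).trans n)
  apply Real.sin_le_sin_of_le_of_le_pi_div_two
  · have : 0 ≤ Real.pi * r := by positivity
    linarith
  · linarith
  · nlinarith

theorem cos_lo {r x l : ℝ} (hr0 : 0 ≤ r) (hx : 31416 / 10000 * r ≤ x) (hx1 : x ≤ 3 / 2)
    (n : l ≤ 1 - x ^ 2 / 2 + x ^ 4 / 24 - x ^ 6 / 720) : l ≤ Real.cos (Real.pi * r) := by
  have hpi := Real.pi_gt_three
  have hpi2 := Real.pi_lt_d4
  have hx0 : 0 ≤ x := by nlinarith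
  refine n.trans ((Ls.cos_sext hx0).trans ?_)
  apply Real.cos_le_cos_of_nonneg_of_le_pi
  · positivity
  · linarith
  · nlinarith

theorem cos_hi {r x l : ℝ} (hx0 : 0 ≤ x) (hx : x ≤ 314159 / 100000 * r) (hr : r ≤ 1 / 2)
    (n : 1 - x ^ 2 / 2 + x ^ 4 / 24 - x ^ 6 / 720 + x ^ 8 / 40320 ≤ l) :
    Real.cos (Real.pi * r) ≤ l := by
  have hpi := Real.pi_gt_d6
  have hr0 : 0 ≤ r := by nlinarith
  refine le_trans ?_ ((Ls.cos_oct hx0).trans n)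
  apply Real.cos_le_cos_of_nonneg_of_le_pi hx0
  · nlinarith
  · nlinarith

theorem sin_eq_cos (r : ℝ) : Real.sin (Real.pi * r) = Real.cos (Real.pi * (1 / 2 - r)) := by
  rw [show Real.pi * (1 / 2 - r) = Real.pi / 2 - Real.pi * r by ring, Real.cos_pi_div_two_sub]

theorem cos_eq_sin (r : ℝ) : Real.cos (Real.pi * r) = Real.sin (Real.pi * (1 / 2 - r)) := by
  rw [show Real.pi * (1 / 2 - r) = Real.pi / 2 - Real.pi * r by ring, Real.sin_pi_div_two_sub]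

theorem sin_mono {r r' : ℝ} (h0 : 0 ≤ r) (h : r ≤ r') (h1 : r' ≤ 1 / 2) :
    Real.sin (Real.pi * r) ≤ Real.sin (Real.pi * r') := by
  have hpi := Real.pi_pos
  apply Real.sin_le_sin_of_le_of_le_pi_div_two
  · have : 0 ≤ Real.pi * r := by positivity
    linarith
  · nlinarith
  · exact mul_le_mul_of_nonneg_left h hpi.le

theorem base_mem {a0 x1 x2 l u : ℝ} {a b c d D : ℕ} (hD : 0 < D) (hr0 : a0 ≤ 1 / 2)
    (hr : 0 ≤ a0) (hx0 : 0 ≤ x1) (hx1 : x1 ≤ 314159 / 100000 * (1 / 2 - a0))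
    (hx2 : 31416 / 10000 * (1 / 2 - a0) ≤ x2) (hx3 : x2 ≤ 3 / 2) (l0 : 0 ≤ l)
    (nl : l ≤ x1 - x1 ^ 3 / 6 + x1 ^ 5 / 120 - x1 ^ 7 / 5040)
    (nu : x2 - x2 ^ 3 / 6 + x2 ^ 5 / 120 ≤ u)
    (n1 : (a : ℝ) / D ≤ l ^ 2) (n2 : u ^ 2 ≤ (b : ℝ) / D)
    (n3 : (c : ℝ) / D ≤ 1 - x2 ^ 2 / 2 + x2 ^ 4 / 24 - x2 ^ 6 / 720)
    (n4 : 1 - x1 ^ 2 / 2 + x1 ^ 4 / 24 - x1 ^ 6 / 720 + x1 ^ 8 / 40320 ≤ (d : ℝ) / D) :
    Mem (Real.cos (Real.pi * a0) ^ 2) (rng a b D) ∧ Mem (Real.sin (Real.pi * a0)) (rng c d D) := by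
  have e1 : l ≤ Real.cos (Real.pi * a0) := by
    rw [cos_eq_sin]; exact sin_lo hx0 hx1 (by linarith) nl
  have e2 : Real.cos (Real.pi * a0) ≤ u := by
    rw [cos_eq_sin]; exact sin_hi (by linarith) hx2 hx3 nu
  constructor
  · exact mem_rng hD (n1.trans (pow_le_pow_left₀ l0 e1 2))
      ((pow_le_pow_left₀ (l0.trans e1) e2 2).trans n2)
  · rw [sin_eq_cos]
    exact mem_rng hD (cos_lo (by linarith) hx2 hx3 n3) (cos_hi hx0 hx1 (by linarith) n4)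

theorem w_mem_sin {ω r1 r2 x1 x2 : ℝ} {a b D : ℕ} (hD : 0 < D) (h1 : r1 ≤ ω) (h2 : ω ≤ r2)
    (hr1 : 0 ≤ r1) (hr2 : r2 ≤ 9 / 20) (hx0 : 0 ≤ x1) (hx1 : x1 ≤ 314159 / 100000 * r1)
    (hx2 : 31416 / 10000 * r2 ≤ x2) (hx3 : x2 ≤ 3 / 2)
    (n1 : (a : ℝ) / D ≤ x1 - x1 ^ 3 / 6 + x1 ^ 5 / 120 - x1 ^ 7 / 5040)
    (n2 : x2 - x2 ^ 3 / 6 + x2 ^ 5 / 120 ≤ (b : ℝ) / D) :
    Mem (Real.sin (Real.pi * ω)) (rng a b D) :=
  mem_rng hD ((sin_lo hx0 hx1 (by linarith) n1).trans (sin_mono hr1 h1 (by linarith)))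
    ((sin_mono (hr1.trans h1) h2 (by linarith)).trans (sin_hi (by linarith) hx2 hx3 n2))

theorem w_mem_cos {ω r1 r2 x1 x2 : ℝ} {a b D : ℕ} (hD : 0 < D) (h1 : r1 ≤ ω) (h2 : ω ≤ r2)
    (hr1 : 0 ≤ r1) (hr2 : r2 ≤ 9 / 20) (hx0 : 0 ≤ x1) (hx1 : x1 ≤ 314159 / 100000 * (1 / 2 - r2))
    (hx2 : 31416 / 10000 * (1 / 2 - r1) ≤ x2) (hx3 : x2 ≤ 3 / 2)
    (n1 : (a : ℝ) / D ≤ 1 - x2 ^ 2 / 2 + x2 ^ 4 / 24 - x2 ^ 6 / 720)
    (n2 : 1 - x1 ^ 2 / 2 + x1 ^ 4 / 24 - x1 ^ 6 / 720 + x1 ^ 8 / 40320 ≤ (b : ℝ) / D) :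
    Mem (Real.sin (Real.pi * ω)) (rng a b D) := by
  have k1 := sin_mono hr1 h1 (by linarith)
  have k2 := sin_mono (hr1.trans h1) h2 (by linarith)
  rw [sin_eq_cos r1] at k1
  rw [sin_eq_cos r2] at k2
  exact mem_rng hD ((cos_lo (by linarith) hx2 hx3 n1).trans k1)
    (k2.trans (cos_hi hx0 hx1 (by linarith) n2))

/-- The data from the branch and bound. -/
theorem dat_of {θ θ' : ℝ} {v w : ℂ} {S S' kap : ℝ} {P : Par} {pat : List ℕ} {A B C : N}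
    (hbb : bb (test P) pat A B C one = true) (h : T2.Pr θ θ' v w)
    (hv : Real.sinh (Real.pi * v.im) = S * Real.cos (Real.pi * v.re))
    (hw : Real.sinh (Real.pi * w.im) = S' * Real.cos (Real.pi * w.re))
    (hD : Dom P.two S S') (S0 : 0 < S) (S1 : S ≤ 1) (S0' : 0 ≤ S') (S1' : S' ≤ 1)
    (k0 : 0 ≤ kap) (m1 : Mem (Real.cos (Real.pi * v.re) ^ 2) P.c0)
    (m2 : Mem (Real.sin (Real.pi * v.re)) P.s0) (m3 : Mem kap P.kap) (mA : Mem S A)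
    (mB : Mem S' B) (mC : Mem (Real.sin (Real.pi * w.re)) C)
    (hv4 : 1 / 4 ≤ v.re) : Dat θ θ' v w S S' kap P := by
  have hpi := Real.pi_pos
  have cv : 0 < Real.cos (Real.pi * v.re) := cos_pi_pos h.hv.abs
  have c2 : Real.cos (Real.pi * v.re) ^ 2 ≤ 1 / 2 := by
    have a := abs_lt.1 h.hv.abs
    have k : Real.cos (Real.pi * v.re) ≤ Real.cos (Real.pi / 4) := by
      apply Real.cos_le_cos_of_nonneg_of_le_pi (by positivity)
      · nlinarith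
      · nlinarith
    rw [Real.cos_pi_div_four] at k
    have := pow_le_pow_left₀ cv.le k 2
    have e : (√2 / 2) ^ 2 = 1 / 2 := by rw [div_pow, Real.sq_sqrt (by norm_num)]; norm_num
    linarith
  refine ⟨h, hv, hw, hD, S0, S1, S0', S1', k0, ?_⟩
  exact bb_sound (P := fun S S' s _ => Prp P (Real.cos (Real.pi * v.re) ^ 2)
    (Real.sin (Real.pi * v.re)) kap S S' s)
    (fun A B C D ht S S' s d a b c dd => test_sound m1 m2 m3 (by positivity) c2 A B C D ht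
      S S' s d a b c dd) pat A B C one hbb S S' (Real.sin (Real.pi * w.re)) 1 mA mB mC mem_one

end Pool.Agent.S3.Hz
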