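import Pool.Agent.H25.RK.DGI
import Pool.Agent.H25.RK.DGf
import Pool.Agent.H63.GO.MTaylor
import Pool.Agent.H63.VC.Asym
import Pool.Agent.H63.VC.EndB
import Pool.Agent.H63.VC.Riem
import Pool.Agent.H63.VC.SlowL
import Pool.Agent.H63.VC.SlowU
import Pool.Agent.H63.VC3.CritB
import Pool.Agent.H63.VC3.Upper
import Pool.Agent.H63.VC4.GaussN
import Pool.Agent.H63.VC4.KBN
import Pool.Agent.H63.VC4.LaplaceN
import Pool.Agent.H63.VC4.UpperN
import Pool.Agent.H63.VC5.Defs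
import Pool.Agent.H63.VC6.LocU
import Pool.Agent.H63.VC6.SlotU
import Pool.Agent.H63.VC7.Link
import Pool.Agent.S3.Asm.Def
import Pool.Agent.S3.Chain
import Pool.Agent.S3.Es12
import Pool.Agent.S3.Es13
import Pool.Agent.S3.Es14
import Pool.Agent.S3.Es15
import Pool.Agent.S3.Es7
import Pool.Agent.S3.Hz.Main

/-!
# Height ranges at two inner vertices with two half twists: the common part
-/

set_option autoImplicit false

namespace Pool.Agent.S3.Hz

open Pool.Agent.S3.NI Pool.Agent.S3.T2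

/-- The hypotheses, `v` on its line at `re v = a0`, `w` on its line, `r1 ≤ re w ≤ r2`. -/
structure H22 (θ θ' : ℝ) (v w : ℂ) (a0 r1 r2 : ℝ) : Prop where
  h : T2.Pr θ θ' v w
  hv : v.re = a0
  hvl : v.im = bl θ v.re
  hwl : w.im = bl θ' w.re
  w1 : r1 ≤ w.re
  w2 : w.re ≤ r2
  t1 : 1 / 2 ≤ Real.tan θ
  t2 : 1 / 2 ≤ Real.tan θ'
  d1 : Real.tan θ ^ 2 + 69 / 100 * Real.tan θ' ^ 2 ≤ 1
  d2 : Real.tan θ' ^ 2 + 69 / 100 * Real.tan θ ^ 2 ≤ 1

theorem H22.dat {θ θ' : ℝ} {v w : ℂ} {a0 r1 r2 kap : ℝ} (H : H22 θ θ' v w a0 r1 r2) {P : Par}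
    {pat : List ℕ} {C : N}
    (hbb : bb (test P) pat (rng 50000 90970 100000) (rng 50000 90970 100000) C one = true)
    (k0 : 0 ≤ kap) (ha : 1 / 4 ≤ a0)
    (m : Mem (Real.cos (Real.pi * a0) ^ 2) P.c0 ∧ Mem (Real.sin (Real.pi * a0)) P.s0)
    (m3 : Mem kap P.kap) (mC : Mem (Real.sin (Real.pi * w.re)) C) :
    Dat θ θ' v w (Real.tan θ) (Real.tan θ') kap P := by
  have t1 := H.t1
  have t2 := H.t2
  have d1 := H.d1
  have d2 := H.d2
  have hv := H.hv
  refine dat_of hbb H.h ?_ ?_ (fun _ => ⟨d1, d2⟩) (by linarith) (by nlinarith) (by linarith)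
    (by nlinarith) k0 (by rw [hv]; exact m.1) (by rw [hv]; exact m.2) m3 ?_ ?_ mC
    (by rw [hv]; exact ha)
  · rw [H.hvl, sinh_pi_bl]
  · rw [H.hwl, sinh_pi_bl]
  · apply mem_rng (by norm_num)
    · norm_num; linarith
    · norm_num; nlinarith
  · apply mem_rng (by norm_num)
    · norm_num; linarith
    · norm_num; nlinarith

end Pool.Agent.S3.Hz
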