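import Pool.Agent.S3.Hz.Main

/-!
# Height ranges at two inner vertices with two half twists, in boxes of the slopes: common part
-/

set_option autoImplicit false

namespace Pool.Agent.S3.Hz

open Pool.Agent.S3.NI Pool.Agent.S3.T2

/-- The hypotheses, `v` on its line at `re v = a0`, `w` on its line, `r1 ≤ re w ≤ r2`,
`p0 ≤ tan² θ' ≤ p1`, `s0 ≤ tan² θ ≤ s1`. -/
structure H22b (θ θ' : ℝ) (v w : ℂ) (a0 r1 r2 p0 p1 s0 s1 : ℝ) : Prop where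
  h : T2.Pr θ θ' v w
  hv : v.re = a0
  hvl : v.im = bl θ v.re
  hwl : w.im = bl θ' w.re
  w1 : r1 ≤ w.re
  w2 : w.re ≤ r2
  tp0 : p0 ≤ Real.tan θ' ^ 2
  tp1 : Real.tan θ' ^ 2 ≤ p1
  ts0 : s0 ≤ Real.tan θ ^ 2
  ts1 : Real.tan θ ^ 2 ≤ s1

theorem sq_rng {t x0 x1 : ℝ} (t0 : 0 ≤ t) (h0 : x0 ≤ t ^ 2) (h1 : t ^ 2 ≤ x1) {a b : ℕ}
    (ha : ((a : ℝ) / (100000 : ℕ)) ^ 2 ≤ x0) (hb : x1 ≤ ((b : ℝ) / (100000 : ℕ)) ^ 2) :
    Mem t (rng a b 100000) := by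
  apply mem_rng (by norm_num)
  · exact le_of_sq_le_sq' (ha.trans h0) t0
  · exact le_of_sq_le_sq' (h1.trans hb) (by positivity)
where
  le_of_sq_le_sq' {x y : ℝ} (h : x ^ 2 ≤ y ^ 2) (hy : 0 ≤ y) : x ≤ y := by
    by_contra hc
    push Not at hc
    nlinarith

theorem H22b.dat {θ θ' : ℝ} {v w : ℂ} {a0 r1 r2 p0 p1 s0 s1 kap : ℝ}
    (H : H22b θ θ' v w a0 r1 r2 p0 p1 s0 s1) {P : Par} {pat : List ℕ} {C : N} {a b c d : ℕ}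
    (hbb : bb (test P) pat (rng a b 100000) (rng c d 100000) C one = true)
    (tw : P.two = false) (k0 : 0 ≤ kap) (ha : 1 / 4 ≤ a0)
    (na : ((a : ℝ) / (100000 : ℕ)) ^ 2 ≤ s0) (nb : s1 ≤ ((b : ℝ) / (100000 : ℕ)) ^ 2)
    (nc : ((c : ℝ) / (100000 : ℕ)) ^ 2 ≤ p0) (nd : p1 ≤ ((d : ℝ) / (100000 : ℕ)) ^ 2)
    (s0' : 0 < s0) (s1' : s1 ≤ 1) (p1' : p1 ≤ 1)
    (m : Mem (Real.cos (Real.pi * a0) ^ 2) P.c0 ∧ Mem (Real.sin (Real.pi * a0)) P.s0)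
    (m3 : Mem kap P.kap) (mC : Mem (Real.sin (Real.pi * w.re)) C) :
    Dat θ θ' v w (Real.tan θ) (Real.tan θ') kap P := by
  have t1 : 0 < Real.tan θ := Real.tan_pos_of_pos_of_lt_pi_div_two H.h.hθ.1 H.h.hθ.2
  have t2 : 0 < Real.tan θ' := Real.tan_pos_of_pos_of_lt_pi_div_two H.h.hθ'.1 H.h.hθ'.2
  have hv := H.hv
  have u1 := H.ts1
  have u2 := H.tp1
  refine dat_of hbb H.h ?_ ?_ (fun h => ?_) t1 (by nlinarith) t2.le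
    (by nlinarith) k0 (by rw [hv]; exact m.1) (by rw [hv]; exact m.2) m3 ?_ ?_ mC
    (by rw [hv]; exact ha)
  · rw [H.hvl, sinh_pi_bl]
  · rw [H.hwl, sinh_pi_bl]
  · rw [tw] at h; exact absurd h (by decide)
  · exact sq_rng t1.le H.ts0 H.ts1 na nb
  · exact sq_rng t2.le H.tp0 H.tp1 nc nd

end Pool.Agent.S3.Hz
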