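import Pool.Agent.H25.RK.DGI
import Pool.Agent.H25.RK.DGf
import Pool.Agent.H63.GO.MTaylor
import Pool.Agent.H63.VC.Asym
import Pool.Agent.H63.VC.EndB
import Pool.Agent.H63.VC.Riem
import Pool.Agent.H63.VC.SlowL
import Pool.Agent.H63.VC.SlowU
import Pool.Agent.H63.VC3.CritB
import Pool.Agent.H63.VC3.Upper
import Pool.Agent.H63.VC4.GaussN
import Pool.Agent.H63.VC4.KBN
import Pool.Agent.H63.VC4.LaplaceN
import Pool.Agent.H63.VC4.UpperN
import Pool.Agent.H63.VC5.Defs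
import Pool.Agent.H63.VC6.LocU
import Pool.Agent.H63.VC6.SlotU
import Pool.Agent.H63.VC7.Link
import Pool.Agent.S3.Asm.Def
import Pool.Agent.S3.Chain
import Pool.Agent.S3.Es12
import Pool.Agent.S3.Es13
import Pool.Agent.S3.Es14
import Pool.Agent.S3.Es15
import Pool.Agent.S3.Es7
import Pool.Agent.S3.Hz.Main

/-!
# Height ranges, `w` a vertex with at least three half twists: the common part
-/

set_option autoImplicit false

namespace Pool.Agent.S3.Hz

open Pool.Agent.S3.NI Pool.Agent.S3.T2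

/-- The hypotheses: `v` on its line at `re v = a0`, `w` anywhere below its line (its vertical
included), `r1 ≤ re w ≤ r2`, `tan θ' ≤ B`. -/
structure H23 (θ θ' : ℝ) (v w : ℂ) (a0 r1 r2 B : ℝ) : Prop where
  h : T2.Pr θ θ' v w
  hv : v.re = a0
  hvl : v.im = bl θ v.re
  w1 : r1 ≤ w.re
  w2 : w.re ≤ r2
  t1 : 1 / 2 ≤ Real.tan θ
  t2 : Real.tan θ ≤ 1
  t3 : Real.tan θ' ≤ B

theorem H23.dat {θ θ' : ℝ} {v w : ℂ} {a0 r1 r2 kap B : ℝ} (H : H23 θ θ' v w a0 r1 r2 B)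
    {P : Par} {pat : List ℕ} {C : N} {Bm : ℕ}
    (hbb : bb (test P) pat (rng 50000 100000 100000) (rng 0 Bm 100000) C one = true)
    (k0 : 0 ≤ kap) (ha : 1 / 4 ≤ a0) (hB : B ≤ (Bm : ℝ) / (100000 : ℕ) ∧ B ≤ 1 ∧ P.two = false)
    (m : Mem (Real.cos (Real.pi * a0) ^ 2) P.c0 ∧ Mem (Real.sin (Real.pi * a0)) P.s0)
    (m3 : Mem kap P.kap) (mC : Mem (Real.sin (Real.pi * w.re)) C) :
    ∃ S', Dat θ θ' v w (Real.tan θ) S' kap P := by
  have t1 := H.t1
  have t2 := H.t2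
  have t3 := H.t3
  have hv := H.hv
  have cw : 0 < Real.cos (Real.pi * w.re) := cos_pi_pos H.h.hw.abs
  have i0 : 0 ≤ Real.sinh (Real.pi * w.im) :=
    Real.sinh_nonneg_iff.2 (mul_nonneg Real.pi_pos.le H.h.hw.im0)
  have i1 : Real.sinh (Real.pi * w.im) ≤ Real.tan θ' * Real.cos (Real.pi * w.re) := by
    rw [← sinh_pi_bl]
    exact Real.sinh_le_sinh.2 (mul_le_mul_of_nonneg_left H.h.hw.im1 Real.pi_pos.le)
  have s0 : 0 ≤ Real.sinh (Real.pi * w.im) / Real.cos (Real.pi * w.re) := div_nonneg i0 cw.le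
  have s1 : Real.sinh (Real.pi * w.im) / Real.cos (Real.pi * w.re) ≤ B := by
    rw [div_le_iff₀ cw]
    exact i1.trans (mul_le_mul_of_nonneg_right t3 cw.le)
  refine ⟨Real.sinh (Real.pi * w.im) / Real.cos (Real.pi * w.re), ?_⟩
  refine dat_of hbb H.h ?_ ?_ (fun h => ?_) (by linarith) t2 s0 (s1.trans hB.2.1) k0
    (by rw [hv]; exact m.1) (by rw [hv]; exact m.2) m3 ?_ ?_ mC (by rw [hv]; exact ha)
  · rw [H.hvl, sinh_pi_bl]
  · rw [div_mul_cancel₀ _ cw.ne']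
  · rw [hB.2.2] at h
    exact absurd h (by decide)
  · apply mem_rng (by norm_num)
    · norm_num; linarith
    · norm_num; linarith
  · apply mem_rng (by norm_num)
    · norm_num; exact s0
    · exact s1.trans hB.1

end Pool.Agent.S3.Hz
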