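import Pool.Agent.S3.W2.Pair2

/-!
# The height of the critical point of an edge

`Y² = 4 p N (X - 1 + p N)`, `p = σ (1 + σ)`, `σ = sinh² (π im y)`, `X + i Y` the sum of the inverse
squares of the cosines, `N = X² + Y²`.
-/

set_option autoImplicit false

namespace Pool.Agent.S3.Hz

open Complex Pool.Agent.S3.T2

/-- The real part of `1 / cos² (π v)`, `sinh (π im v) = S cos (π re v)`, `c = cos² (π re v)`. -/
noncomputable def ar (S c : ℝ) : ℝ := (1 - S ^ 2 * (1 - 2 * c)) / (c * (1 + S ^ 2) ^ 2)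

/-- Its imaginary part, `s = sin (π re v)`. -/
noncomputable def ai (S s c : ℝ) : ℝ :=
  2 * (s * S * √(1 + S ^ 2 * c)) / (c * (1 + S ^ 2) ^ 2)

theorem inv_cos_sq {v : ℂ} {S : ℝ} (hc : 0 < Real.cos (Real.pi * v.re))
    (hS : Real.sinh (Real.pi * v.im) = S * Real.cos (Real.pi * v.re)) :
    1 / cos (Real.pi * v) ^ 2 = ⟨ar S (Real.cos (Real.pi * v.re) ^ 2),
      ai S (Real.sin (Real.pi * v.re)) (Real.cos (Real.pi * v.re) ^ 2)⟩ := by
  set C := Real.cos (Real.pi * v.re) with hC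
  set s := Real.sin (Real.pi * v.re) with hs
  set ch := Real.cosh (Real.pi * v.im) with hch
  have c0 : 0 < ch := Real.cosh_pos _
  have hch2 : ch ^ 2 = 1 + S ^ 2 * C ^ 2 := by
    rw [hch, Real.cosh_sq, hS]; ring
  have hchs : ch = √(1 + S ^ 2 * C ^ 2) := by
    rw [← hch2, Real.sqrt_sq c0.le]
  have hs2 : s ^ 2 = 1 - C ^ 2 := by
    have := Real.sin_sq_add_cos_sq (Real.pi * v.re)
    rw [hs, hC]; linarith
  have e : cos (Real.pi * v) = ⟨C * ch, -(s * (S * C))⟩ := by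
    apply Complex.ext
    · rw [wcos_re, pi_mul_re, pi_mul_im]
    · rw [wcos_im, pi_mul_re, pi_mul_im, hS]
  have e2 : cos (Real.pi * v) ^ 2 = ⟨C ^ 2 * (ch ^ 2 - s ^ 2 * S ^ 2),
      -(2 * (C ^ 2 * (ch * s * S)))⟩ := by
    rw [e, sq]
    apply Complex.ext
    · simp only [mul_re]; ring
    · simp only [mul_im]; ring
  have hT : (0 : ℝ) < 1 + S ^ 2 := by positivity
  have hne : cos (Real.pi * v) ^ 2 ≠ 0 := by
    rw [e]
    apply pow_ne_zero
    intro h
    have := congrArg re h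
    simp only [zero_re] at this
    exact (mul_pos hc c0).ne' this
  rw [div_eq_iff hne, e2, hch2, hs2, ar, ai, ← hchs]
  have hC2 : C ^ 2 ≠ 0 := (pow_pos hc 2).ne'
  apply Complex.ext
  · simp only [mul_re, one_re]
    field_simp
    have k : s ^ 2 * ch ^ 2 = (1 - C ^ 2) * (1 + S ^ 2 * C ^ 2) := by rw [hs2, hch2]
    linear_combination (-4 * S ^ 2) * k
  · simp only [mul_im, one_im]
    field_simp
    ring

/-- The identity at the critical point. -/
theorem crit_id {y : ℂ} {X Y : ℝ} (h0 : 0 < y.re) (h1 : y.re < 1 / 2)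
    (h : 1 / cos (Real.pi * y) ^ 2 = ⟨X, Y⟩) :
    Y ^ 2 = 4 * (Real.sinh (Real.pi * y.im) ^ 2 * (1 + Real.sinh (Real.pi * y.im) ^ 2)) *
      (X ^ 2 + Y ^ 2) * (X - 1 + Real.sinh (Real.pi * y.im) ^ 2 *
        (1 + Real.sinh (Real.pi * y.im) ^ 2) * (X ^ 2 + Y ^ 2)) ∧
    (0 < Y → 0 < y.im) ∧ (0 ≤ Y → 0 ≤ y.im) := by
  have hpi := Real.pi_pos
  set n : ℂ := ⟨X, Y⟩ with hn
  have hne : cos (Real.pi * y) ≠ 0 := by
    intro hc
    rw [hc] at h
    have hn0 : n = 0 := by rw [← h]; simp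
    have h2 : (cos (Real.pi * y)).re = 0 := by rw [hc]; rfl
    rw [wcos_re, pi_mul_re] at h2
    have c1 : 0 < Real.cos (Real.pi * y.re) := cos_pi_pos (by rw [abs_of_pos h0]; exact h1)
    exact (mul_pos c1 (Real.cosh_pos _)).ne' h2
  have h2 : n * cos (Real.pi * y) ^ 2 = 1 := by
    rw [← h]; field_simp
  have h3 : n * cos (2 * (Real.pi * y)) = 2 - n := by
    rw [Complex.cos_two_mul]
    linear_combination 2 * h2
  have e1 : (cos (2 * (Real.pi * y))).re = Real.cos (2 * (Real.pi * y.re)) *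
      Real.cosh (2 * (Real.pi * y.im)) := by
    rw [wcos_re]; simp [pi_mul_re, pi_mul_im]
  have e2 : (cos (2 * (Real.pi * y))).im = -(Real.sin (2 * (Real.pi * y.re)) *
      Real.sinh (2 * (Real.pi * y.im))) := by
    rw [wcos_im]; simp [pi_mul_re, pi_mul_im]
  set c := Real.cos (2 * (Real.pi * y.re)) with hc
  set s := Real.sin (2 * (Real.pi * y.re)) with hs
  set ch := Real.cosh (2 * (Real.pi * y.im)) with hch
  set sh := Real.sinh (2 * (Real.pi * y.im)) with hsh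
  have hs0 : 0 < s := Real.sin_pos_of_pos_of_lt_pi (by positivity) (by nlinarith)
  have hcs := Real.sin_sq_add_cos_sq (2 * (Real.pi * y.re))
  rw [← hc, ← hs] at hcs
  have hcosh : ch ^ 2 = 1 + sh ^ 2 := by rw [hch, Real.cosh_sq]; ring
  have r1 := congrArg re h3
  have r2 := congrArg im h3
  rw [mul_re, e1, e2, sub_re] at r1
  rw [mul_im, e1, e2, sub_im] at r2
  simp only [hn, re_ofNat, im_ofNat] at r1 r2
  -- `N c ch = 2 X - N`, `N s sh = 2 Y`
  have k1 : (X ^ 2 + Y ^ 2) * (c * ch) = 2 * X - (X ^ 2 + Y ^ 2) := by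
    linear_combination X * r1 + Y * r2
  have k2 : (X ^ 2 + Y ^ 2) * (s * sh) = 2 * Y := by
    linear_combination Y * r1 - X * r2
  have hN : 0 < X ^ 2 + Y ^ 2 := by
    by_contra hcon
    have hX : X = 0 := by nlinarith [sq_nonneg X, sq_nonneg Y]
    have hY : Y = 0 := by nlinarith [sq_nonneg X, sq_nonneg Y]
    have : n = 0 := by rw [hn, hX, hY]; rfl
    rw [this, zero_mul] at h2
    exact zero_ne_one h2
  set N := X ^ 2 + Y ^ 2 with hNd
  have sgn : (0 < Y → 0 < y.im) ∧ (0 ≤ Y → 0 ≤ y.im) := by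
    constructor
    · intro hY
      have h5 : 0 < N * (s * sh) := by rw [k2]; linarith
      have h6 : 0 < s * sh := (pos_iff_pos_of_mul_pos h5).1 hN
      have h7 : 0 < sh := (pos_iff_pos_of_mul_pos h6).1 hs0
      have h8 := Real.sinh_pos_iff.1 h7
      have h9 : 0 < Real.pi * y.im := by linarith
      exact (pos_iff_pos_of_mul_pos h9).1 hpi
    · intro hY
      by_contra hcon
      push Not at hcon
      have h7 : sh < 0 := Real.sinh_neg_iff.2 (by nlinarith)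
      have : N * (s * sh) < 0 := mul_neg_of_pos_of_neg hN (mul_neg_of_pos_of_neg hs0 h7)
      rw [k2] at this
      linarith
  refine ⟨?_, sgn⟩
  set σ := Real.sinh (Real.pi * y.im) ^ 2 with hσ
  have hsh2 : sh ^ 2 = 4 * (σ * (1 + σ)) := by
    rw [hsh, Real.sinh_two_mul, hσ]
    have := Real.cosh_sq (Real.pi * y.im)
    calc (2 * Real.sinh (Real.pi * y.im) * Real.cosh (Real.pi * y.im)) ^ 2 =
        4 * Real.sinh (Real.pi * y.im) ^ 2 * Real.cosh (Real.pi * y.im) ^ 2 := by ring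
      _ = _ := by rw [this]; ring
  set p := σ * (1 + σ) with hp
  rw [hsh2] at hcosh
  -- `(2X - N)² sh² + 4 Y² ch² = N² ch² sh²`
  have k3 : (2 * X - N) ^ 2 * (4 * p) + 4 * Y ^ 2 * (1 + 4 * p) =
      N ^ 2 * ((1 + 4 * p) * (4 * p)) := by
    have a1 : (2 * X - N) ^ 2 = N ^ 2 * (c ^ 2 * (1 + 4 * p)) := by
      rw [← k1, ← hcosh]; ring
    have a2 : 4 * Y ^ 2 = N ^ 2 * (s ^ 2 * (4 * p)) := by
      rw [← hsh2, show 4 * Y ^ 2 = (2 * Y) ^ 2 by ring, ← k2]; ring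
    rw [a1, a2]
    linear_combination (N ^ 2 * ((1 + 4 * p) * (4 * p))) * hcs
  have hY : Y ^ 2 = N - X ^ 2 := by rw [hNd]; ring
  linear_combination (1 / 4) * k3 + (4 * p) * hY

theorem ar_neg (S c : ℝ) : ar (-S) c = ar S c := by rw [ar, ar, neg_sq]

theorem ai_neg (S s c : ℝ) : ai (-S) s c = -ai S s c := by
  rw [ai, ai, neg_sq, ← neg_div]; congr 1; ring

/-- The identity for the critical point of a pair. -/
theorem pair_id {θ θ' : ℝ} {v w : ℂ} {S S' : ℝ} (h : T2.Pr θ θ' v w)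
    (hv : Real.sinh (Real.pi * v.im) = S * Real.cos (Real.pi * v.re))
    (hw : Real.sinh (Real.pi * w.im) = S' * Real.cos (Real.pi * w.re)) {X Y : ℝ}
    (hX : X = ar S (Real.cos (Real.pi * v.re) ^ 2) +
      ar S' (1 - Real.sin (Real.pi * w.re) ^ 2))
    (hY : Y = ai S (Real.sin (Real.pi * v.re)) (Real.cos (Real.pi * v.re) ^ 2) -
      ai S' (Real.sin (Real.pi * w.re)) (1 - Real.sin (Real.pi * w.re) ^ 2)) :
    Y ^ 2 = 4 * (Real.sinh (Real.pi * (yv v w).im) ^ 2 *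
        (1 + Real.sinh (Real.pi * (yv v w).im) ^ 2)) *
      (X ^ 2 + Y ^ 2) * (X - 1 + Real.sinh (Real.pi * (yv v w).im) ^ 2 *
        (1 + Real.sinh (Real.pi * (yv v w).im) ^ 2) * (X ^ 2 + Y ^ 2)) ∧
    (0 < Y → 0 < (yv v w).im) ∧ (0 ≤ Y → 0 ≤ (yv v w).im) := by
  obtain ⟨y0, y1⟩ := h.yv_re
  have cv : 0 < Real.cos (Real.pi * v.re) := cos_pi_pos h.hv.abs
  have cw : 0 < Real.cos (Real.pi * w.re) := cos_pi_pos h.hw.abs
  have e1 := inv_cos_sq cv hv
  have e2 : 1 / cos (Real.pi * (starRingEnd ℂ) w) ^ 2 =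
      ⟨ar S' (1 - Real.sin (Real.pi * w.re) ^ 2),
        -ai S' (Real.sin (Real.pi * w.re)) (1 - Real.sin (Real.pi * w.re) ^ 2)⟩ := by
    have e := inv_cos_sq (v := (starRingEnd ℂ) w) (S := -S') (by rw [conj_re]; exact cw) (by
      rw [conj_im, conj_re, mul_neg, Real.sinh_neg, hw, neg_mul])
    rw [conj_re, ar_neg, ai_neg] at e
    have k : Real.cos (Real.pi * w.re) ^ 2 = 1 - Real.sin (Real.pi * w.re) ^ 2 := by
      have := Real.sin_sq_add_cos_sq (Real.pi * w.re); linarith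
    rw [k] at e
    exact e
  apply crit_id y0 y1
  rw [h.yv_eq, e1, e2, hX, hY]
  apply Complex.ext
  · simp only [add_re]
  · simp only [add_im]; ring

theorem lt_of_test {σ q X Y t : ℝ} (hX : 1 ≤ X) (σ0 : 0 ≤ σ) (t0 : 0 ≤ t)
    (hq : q = t * (1 + t)) (hσ : σ < t) (hN : 0 < X ^ 2 + Y ^ 2) :
    4 * (σ * (1 + σ)) * (X ^ 2 + Y ^ 2) * (X - 1 + σ * (1 + σ) * (X ^ 2 + Y ^ 2)) <
      4 * q * (X ^ 2 + Y ^ 2) * (X - 1 + q * (X ^ 2 + Y ^ 2)) := by
  have hp : σ * (1 + σ) < q := by rw [hq]; nlinarith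
  set p := σ * (1 + σ)
  have p0 : 0 ≤ p := by positivity
  set N := X ^ 2 + Y ^ 2
  have k1 : X - 1 + p * N < X - 1 + q * N := by nlinarith
  have k2 : 0 ≤ X - 1 + p * N := by
    have : 0 ≤ p * N := mul_nonneg p0 hN.le
    linarith
  have k3 : 4 * p * N < 4 * q * N := by nlinarith
  have k4 : 0 ≤ 4 * p * N := by positivity
  calc 4 * p * N * (X - 1 + p * N) ≤ 4 * q * N * (X - 1 + p * N) :=
        mul_le_mul_of_nonneg_right k3.le k2
    _ < 4 * q * N * (X - 1 + q * N) := by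
        apply mul_lt_mul_of_pos_left k1
        linarith

end Pool.Agent.S3.Hz
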