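import Pool.Agent.S3.NI
import Pool.Agent.S3.Hz.Geo

/-!
# The check of the height ranges

`test P A B C _`: `A` an interval of `S`, `B` of `S'`, `C` of `sin (π re w)`.
-/

set_option autoImplicit false

namespace Pool.Agent.S3.Hz

open Pool.Agent.S3.NI


/-! ### The square root of `1 + x` -/

def gP (x : ℕ) : ℕ := Nat.div (Nat.mul (Nat.add 4294967296 (Nat.mul 3 x)) 1073741824)
  (Nat.add 4294967296 x)
def gV (P x : ℕ) : ℕ := Nat.succ (Nat.div (Nat.succ (Nat.add P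
  (Nat.div (Nat.mul (Nat.add 1073741824 x) 1073741824) P))) 2)
def gU (x : ℕ) : ℕ := gV (gP x) x
def gL (x : ℕ) : ℕ := Nat.div (Nat.mul (Nat.add 1073741824 x) 1073741824) (gU x)
/-- `√(1 + x)`. -/
def g1 (A : N) : N := ⟨gL A.lo, gU A.hi⟩

theorem div_pos_aux {a b : ℕ} (h : b ≤ a) (hb : 0 < b) : 0 < Nat.div a b := Nat.div_pos h hb

theorem add_le_aux (K O x : ℕ) (hO : 1 ≤ O) :
    Nat.add K x ≤ Nat.mul (Nat.add K (Nat.mul 3 x)) O := by
  show K + x ≤ (K + 3 * x) * O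
  nlinarith

theorem add_pos_aux (K x : ℕ) (hK : 0 < K) : 0 < Nat.add K x := by
  show 0 < K + x
  omega

theorem gP_pos (x : ℕ) : 0 < gP x :=
  div_pos_aux (add_le_aux _ _ _ (by norm_num)) (add_pos_aux _ _ (by norm_num))

theorem cast_MO (O x : ℕ) {o : ℝ} (ho : (O : ℝ) = o) :
    ((Nat.mul (Nat.add O x) O : ℕ) : ℝ) = (o + x) * o := by
  show (((O + x) * O : ℕ) : ℝ) = _
  push_cast
  rw [ho]

theorem cast_succ_add (P Q : ℕ) : ((Nat.succ (Nat.add P Q) : ℕ) : ℝ) = (P : ℝ) + (Nat.succ Q : ℕ) := by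
  have : Nat.succ (Nat.add P Q) = P + Nat.succ Q := rfl
  rw [this]; push_cast; rfl

/-- The arithmetic-geometric mean. -/
theorem amgm_aux {M g : ℝ} (M0 : 0 ≤ M) {P T U : ℕ} (hP : 0 < P) (hT : (T : ℝ) = M)
    (hU : U = Nat.succ (Nat.div (Nat.succ (Nat.add P (Nat.div T P))) 2)) (hg : g = √M) :
    g ≤ (U : ℝ) := by
  have hP' : (0 : ℝ) < P := by exact_mod_cast hP
  have h1 := le_succ_div T hP
  rw [hT] at h1
  have h2 := le_succ_div (Nat.succ (Nat.add P (Nat.div T P))) (d := 2) (by norm_num)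
  rw [cast_succ_add] at h2
  have h3 : √M ≤ ((P : ℝ) + M / (P : ℝ)) / 2 := by
    rw [le_div_iff₀ (by norm_num)]
    have a := Real.sq_sqrt M0
    have b : 0 ≤ (P - √M) ^ 2 / (P : ℝ) := by positivity
    have c : (P - √M) ^ 2 / (P : ℝ) = P - 2 * √M + M / P := by
      field_simp
      linear_combination a
    linarith
  rw [hg, hU]
  refine h3.trans (le_trans ?_ h2)
  have : ((2 : ℕ) : ℝ) = 2 := by norm_num
  rw [this]
  linarith

theorem sqrt_le_gU (x : ℕ) : √((1073741824 + (x : ℝ)) * 1073741824) ≤ (gU x : ℝ) := by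
  have hx : (0 : ℝ) ≤ x := x.cast_nonneg
  exact amgm_aux (M := (1073741824 + (x : ℝ)) * 1073741824) (by positivity) (gP_pos x)
    (cast_MO 1073741824 x (by norm_num)) (Eq.refl (gU x)) rfl

theorem gL_aux {M : ℝ} (M0 : 0 < M) {T U : ℕ} (hT : (T : ℝ) = M) (hU : √M ≤ (U : ℝ)) :
    ((Nat.div T U : ℕ) : ℝ) ≤ √M := by
  have s0 : 0 < √M := Real.sqrt_pos.2 M0
  have h1 : ((Nat.div T U : ℕ) : ℝ) ≤ M / (U : ℝ) := by
    rw [← hT]
    exact nat_div_le _ _
  refine h1.trans ?_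
  rw [div_le_iff₀ (s0.trans_le hU)]
  calc M = √M * √M := (Real.mul_self_sqrt M0.le).symm
    _ ≤ √M * U := mul_le_mul_of_nonneg_left hU s0.le

theorem gL_le_sqrt (x : ℕ) : (gL x : ℝ) ≤ √((1073741824 + (x : ℝ)) * 1073741824) := by
  have hx : (0 : ℝ) ≤ x := x.cast_nonneg
  exact gL_aux (by positivity) (cast_MO 1073741824 x (by norm_num)) (sqrt_le_gU x)

theorem mem_g1 {x : ℝ} {A : N} (h : Mem x A) : Mem √(1 + x) (g1 A) := by
  have hx := h.nonneg
  have e : √(1 + x) * 1073741824 = √((1073741824 + x * 1073741824) * 1073741824) := by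
    rw [show (1073741824 + x * 1073741824) * 1073741824 = (1 + x) * 1073741824 ^ 2 by ring,
      Real.sqrt_mul (by linarith), Real.sqrt_sq (by norm_num)]
  constructor
  · rw [e]
    refine (gL_le_sqrt A.lo).trans (Real.sqrt_le_sqrt ?_)
    have := h.1
    nlinarith
  · rw [e]
    refine le_trans (Real.sqrt_le_sqrt ?_) (sqrt_le_gU A.hi)
    have := h.2
    nlinarith

/-! ### The test -/

structure Par where
  c0 : N
  s0 : N
  kap : N
  two : Bool
  mode : ℕ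

def rhs (X pn : N) : N := N.sm 4 (pn.mul ((X.sub one).add pn))
def fin0 (X Y2 pp : N) : Bool := (rhs X (pp.mul ((N.sq X).add Y2))).le Y2
def fin1 (X Y2 pp : N) : Bool := Y2.lt (rhs X (pp.mul ((N.sq X).add Y2)))
def t4 (m : ℕ) (be be2 X pp : N) : Bool :=
  bif Nat.beq m 0 then (be2.lt be && fin0 X (N.sq (be.sub be2)) pp)
  else ((Nat.beq m 2 && be2.le be) || fin1 X (N.sq (be.ad be2)) pp)
def sqp (kt : N) : N := kt.mul (one.add kt)
def alN (t c id : N) : N := (one.sub (t.mul (one.sub (N.sm 2 c)))).mul id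
def alM (k ic iD : N) : N := (((one.sub k).mul ic).add (N.sm 2 k)).mul iD
def beN (s A tc id : N) : N := N.sm 2 (((s.mul A).mul (g1 tc)).mul id)
def t3 (P : Par) (A B C t k c1 id ic iD : N) : Bool :=
  t4 P.mode (beN P.s0 A (t.mul P.c0) id) (beN C B (k.mul c1) (ic.mul iD))
    ((alN t P.c0 id).add (alM k ic iD)) (sqp ((N.sq P.kap).mul t))
def t2 (P : Par) (A B C t k c1 d D : N) : Bool :=
  ((c1.ps && d.ps) && D.ps) && t3 P A B C t k c1 (N.inv d) (N.inv c1) (N.inv D)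
def dom (t k : N) : Bool :=
  one.lt (t.add ((cst 69 100).mul k)) || one.lt (k.add ((cst 69 100).mul t))
def t1 (P : Par) (A B C t k c1 : N) : Bool :=
  (P.two && dom t k) || t2 P A B C t k c1 (P.c0.mul (N.sq (one.add t))) (N.sq (one.add k))
def t0 (P : Par) (A B C t k : N) : Bool := t1 P A B C t k (one.sub (N.sq C))
def test (P : Par) (A B C _D : N) : Bool := t0 P A B C (N.sq A) (N.sq B)

/-- The domain. -/
def Dom (two : Bool) (S S' : ℝ) : Prop :=
  two = true → S ^ 2 + 69 / 100 * S' ^ 2 ≤ 1 ∧ S' ^ 2 + 69 / 100 * S ^ 2 ≤ 1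

/-- The property proved by the test. -/
def Prp (P : Par) (c0 s0 kap : ℝ) (S S' s : ℝ) : Prop :=
  Dom P.two S S' → S ≤ 1 → S' ≤ 1 → s ^ 2 ≤ 1 →
    ∀ X Y q : ℝ, X = ar S c0 + ar S' (1 - s ^ 2) → Y = ai S s0 c0 - ai S' s (1 - s ^ 2) →
      q = kap ^ 2 * S ^ 2 * (1 + kap ^ 2 * S ^ 2) →
      (P.mode = 0 → 0 < Y ∧ 4 * q * (X ^ 2 + Y ^ 2) * (X - 1 + q * (X ^ 2 + Y ^ 2)) ≤ Y ^ 2) ∧
      (P.mode ≠ 0 → (P.mode = 2 ∧ 0 ≤ Y) ∨
        Y ^ 2 < 4 * q * (X ^ 2 + Y ^ 2) * (X - 1 + q * (X ^ 2 + Y ^ 2)))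

theorem ar_ge {S c : ℝ} (hc : 0 < c) (hc1 : c ≤ 1) (hS : S ^ 2 ≤ 1) :
    1 / (1 + S ^ 2) ≤ ar S c := by
  have : (0 : ℝ) < 1 + S ^ 2 := by positivity
  rw [ar, div_le_div_iff₀ this (by positivity)]
  have k : 0 ≤ (1 - S ^ 2) * (1 - c) * (1 + S ^ 2) := by
    have := mul_nonneg (sub_nonneg.2 hS) (sub_nonneg.2 hc1)
    positivity
  nlinarith

theorem X_ge {S S' c c' : ℝ} (hc : 0 < c) (hc1 : c ≤ 1) (hS : S ^ 2 ≤ 1) (hc' : 0 < c')
    (hc1' : c' ≤ 1) (hS' : S' ^ 2 ≤ 1) : 1 ≤ ar S c + ar S' c' := by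
  have a := ar_ge hc hc1 hS
  have b := ar_ge hc' hc1' hS'
  have a' : 1 / 2 ≤ 1 / (1 + S ^ 2) := by
    rw [div_le_div_iff₀ (by norm_num) (by positivity)]; linarith
  have b' : 1 / 2 ≤ 1 / (1 + S' ^ 2) := by
    rw [div_le_div_iff₀ (by norm_num) (by positivity)]; linarith
  linarith

theorem test_sound {P : Par} {c0 s0 kap : ℝ} (m1 : Mem c0 P.c0) (m2 : Mem s0 P.s0)
    (m3 : Mem kap P.kap) (hc0 : 0 < c0) (hc1 : c0 ≤ 1 / 2) (A B C D : N)
    (h : test P A B C D = true) (S S' s d : ℝ) (a : Mem S A) (b : Mem S' B) (c : Mem s C)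
    (_ : Mem d D) : Prp P c0 s0 kap S S' s := by
  intro hd hS hS' hs X Y q hX hY hq
  have S0 := a.nonneg
  have S0' := b.nonneg
  have s0' := c.nonneg
  have S2 : S ^ 2 ≤ 1 := pow_le_one₀ S0 hS
  have S2' : S' ^ 2 ≤ 1 := pow_le_one₀ S0' hS'
  unfold test t0 t1 at h
  rw [Bool.or_eq_true] at h
  have mt := a.sq
  have mk := b.sq
  have mc : Mem (1 - s ^ 2) (one.sub (N.sq C)) := mem_one.sub c.sq hs
  rcases h with h | h
  · exfalso
    rw [Bool.and_eq_true] at h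
    obtain ⟨d1, d2⟩ := hd h.1
    have h2 := h.2
    unfold dom at h2
    rw [Bool.or_eq_true] at h2
    have m69 : Mem ((69 : ℝ) / 100) (cst 69 100) := by
      have := mem_cst (n := 69) (d := 100) (by norm_num)
      norm_num at this ⊢
      exact this
    rcases h2 with h2 | h2
    · have := mem_one.lt (mt.add (m69.mul mk)) h2
      linarith
    · have := mem_one.lt (mk.add (m69.mul mt)) h2
      linarith
  · unfold t2 at h
    rw [Bool.and_eq_true, Bool.and_eq_true, Bool.and_eq_true] at h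
    obtain ⟨⟨⟨p1, p2⟩, p3⟩, h⟩ := h
    have md : Mem (c0 * (1 + S ^ 2) ^ 2) (P.c0.mul (N.sq (one.add (N.sq A)))) :=
      m1.mul (mem_one.add mt).sq
    have mD : Mem ((1 + S' ^ 2) ^ 2) (N.sq (one.add (N.sq B))) := (mem_one.add mk).sq
    have hcp : 0 < 1 - s ^ 2 := mc.pos p1
    have mid := md.inv p2
    have mic := mc.inv p1
    have miD := mD.inv p3
    unfold t3 at h
    have mal : Mem (ar S c0) (alN (N.sq A) P.c0 (N.inv (P.c0.mul (N.sq (one.add (N.sq A)))))) := by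
      have e : ar S c0 = (1 - S ^ 2 * (1 - (2 : ℕ) * c0)) * (c0 * (1 + S ^ 2) ^ 2)⁻¹ := by
        rw [ar, div_eq_mul_inv]; norm_num
      rw [e]
      refine (mem_one.sub (mt.mul (mem_one.sub (m1.sm 2) (by norm_num; linarith))) ?_).mul mid
      have : 0 ≤ 1 - (2 : ℕ) * c0 := by norm_num; linarith
      have h2 : 1 - (2 : ℕ) * c0 ≤ 1 := by norm_num; linarith
      exact mul_le_one₀ S2 this h2
    have mam : Mem (ar S' (1 - s ^ 2)) (alM (N.sq B) (N.inv (one.sub (N.sq C)))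
        (N.inv (N.sq (one.add (N.sq B))))) := by
      have e : ar S' (1 - s ^ 2) =
          ((1 - S' ^ 2) * (1 - s ^ 2)⁻¹ + (2 : ℕ) * S' ^ 2) * ((1 + S' ^ 2) ^ 2)⁻¹ := by
        have : (0 : ℝ) < 1 + S' ^ 2 := by positivity
        rw [ar]
        field_simp
        push_cast
        ring
      rw [e]
      exact (((mem_one.sub mk S2').mul mic).add (mk.sm 2)).mul miD
    have mbe : Mem (ai S s0 c0) (beN P.s0 A ((N.sq A).mul P.c0)
        (N.inv (P.c0.mul (N.sq (one.add (N.sq A)))))) := by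
      have e : ai S s0 c0 = (2 : ℕ) * (s0 * S * √(1 + S ^ 2 * c0) * (c0 * (1 + S ^ 2) ^ 2)⁻¹) := by
        rw [ai, div_eq_mul_inv]; push_cast; ring
      rw [e]
      exact (((m2.mul a).mul (mem_g1 (mt.mul m1))).mul mid).sm 2
    have mbm : Mem (ai S' s (1 - s ^ 2)) (beN C B ((N.sq B).mul (one.sub (N.sq C)))
        ((N.inv (one.sub (N.sq C))).mul (N.inv (N.sq (one.add (N.sq B)))))) := by
      have e : ai S' s (1 - s ^ 2) = (2 : ℕ) * (s * S' * √(1 + S' ^ 2 * (1 - s ^ 2)) *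
          ((1 - s ^ 2)⁻¹ * ((1 + S' ^ 2) ^ 2)⁻¹)) := by
        rw [ai, div_eq_mul_inv, mul_inv]; push_cast; ring
      rw [e]
      exact (((c.mul b).mul (mem_g1 (mk.mul mc))).mul (mic.mul miD)).sm 2
    have mX := mal.add mam
    rw [← hX] at mX
    have mq : Mem q (sqp ((N.sq P.kap).mul (N.sq A))) := by
      rw [hq]
      exact (m3.sq.mul mt).mul (mem_one.add (m3.sq.mul mt))
    have X1 : 1 ≤ X := by
      rw [hX]
      exact X_ge hc0 (by linarith) S2 hcp (by nlinarith) S2'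
    unfold t4 at h
    have mr : ∀ {Z : N}, Mem (Y ^ 2) Z → Mem (4 * q * (X ^ 2 + Y ^ 2) *
        (X - 1 + q * (X ^ 2 + Y ^ 2))) (rhs ((alN (N.sq A) P.c0
          (N.inv (P.c0.mul (N.sq (one.add (N.sq A)))))).add (alM (N.sq B) (N.inv (one.sub (N.sq C)))
        (N.inv (N.sq (one.add (N.sq B)))))) ((sqp ((N.sq P.kap).mul (N.sq A))).mul ((N.sq
        ((alN (N.sq A) P.c0 (N.inv (P.c0.mul (N.sq (one.add (N.sq A)))))).add (alM (N.sq B)
          (N.inv (one.sub (N.sq C))) (N.inv (N.sq (one.add (N.sq B))))))).add Z))) := by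
      intro Z hZ
      have mn := mq.mul (mX.sq.add hZ)
      have := (mn.mul ((mX.sub mem_one X1).add mn)).sm 4
      have e : ((4 : ℕ) : ℝ) * (q * (X ^ 2 + Y ^ 2) * (X - 1 + q * (X ^ 2 + Y ^ 2))) =
          4 * q * (X ^ 2 + Y ^ 2) * (X - 1 + q * (X ^ 2 + Y ^ 2)) := by
        push_cast; ring
      rw [← e]
      exact this
    rcases hm : Nat.beq P.mode 0 with _ | _
    · rw [hm, cond_false, Bool.or_eq_true, Bool.and_eq_true] at h
      have hm0 : P.mode ≠ 0 := by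
        intro hc
        rw [hc] at hm
        exact absurd hm (by decide)
      refine ⟨fun h0 => absurd h0 hm0, fun _ => ?_⟩
      rcases h with ⟨h2, h3⟩ | h
      · left
        refine ⟨Nat.eq_of_beq_eq_true h2, ?_⟩
        have := mbm.le mbe h3
        rw [hY]; linarith
      · right
        have m5 := (mbe.ad mbm).sq_abs
        rw [← hY] at m5
        exact m5.lt (mr m5) h
    · rw [hm, cond_true, Bool.and_eq_true] at h
      refine ⟨fun _ => ?_, fun h0 => absurd (Nat.eq_of_beq_eq_true hm) h0⟩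
      have h5 := mbm.lt mbe h.1
      have Y0 : 0 < Y := by rw [hY]; linarith
      have m5 := (mbe.sub mbm h5.le).sq
      rw [← hY] at m5
      exact ⟨Y0, (mr m5).le m5 h.2⟩

end Pool.Agent.S3.Hz
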