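import Pool.Agent.S3.Hz.B22

/-!
# Height ranges at two inner vertices with two half twists, base point `29/100` (generated)
-/

set_option autoImplicit false

namespace Pool.Agent.S3.Hz

open Pool.Agent.S3.NI Pool.Agent.S3.T2

theorem bb22_1_lo : bb (test ⟨rng 37562 37569 100000, rng 79013 79018 100000, cst 31000 100000, true, 0⟩)
    [0, 0, 1, 0, 1, 0, 1, 0, 1, 2, 0, 1, 2, 0, 1, 2, 0, 1, 2, 0]
    (rng 50000 90970 100000) (rng 50000 90970 100000) (rng 24858 36833 100000) one = true := by
  decide +kernel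

theorem bb22_1_hi : bb (test ⟨rng 37562 37569 100000, rng 79013 79018 100000, cst 41200 100000, true, 1⟩)
    [0, 0, 1, 0, 1, 0, 1, 0, 1, 0, 2, 1, 0, 2, 1, 0, 2, 1, 0, 2]
    (rng 50000 90970 100000) (rng 50000 90970 100000) (rng 24858 36833 100000) one = true := by
  decide +kernel

/-- **Height range** at `re v = 29/100`, `2/25 ≤ re w ≤ 3/25`. -/
theorem h22_1 {θ θ' : ℝ} {v w : ℂ} (H : H22 θ θ' v w (29 / 100) (2 / 25) (3 / 25)) :
    (31 / 100) * Real.tan θ ≤ Real.sinh (Real.pi * (yv v w).im) ∧
      Real.sinh (Real.pi * (yv v w).im) ≤ (103 / 250) * Real.tan θ := by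
  have mb := base_mem (a0 := (29 / 100)) (a := 37562) (b := 37569) (c := 79013) (d := 79018) (D := 100000) (x1 := (6597339 / 10000000)) (x2 := (82467 / 125000)) (l := (1225813 / 2000000)) (u := (6129191 / 10000000)) (by norm_num) (by norm_num) (by norm_num) (by norm_num) (by norm_num) (by norm_num) (by norm_num) (by norm_num) (by norm_num) (by norm_num) (by norm_num) (by norm_num) (by norm_num) (by norm_num)
  have mw := w_mem_sin (a := 24858) (b := 36833) (D := 100000) (x1 := (314159 / 1250000)) (x2 := (11781 / 31250)) (by norm_num) H.w1 H.w2 (by norm_num) (by norm_num) (by norm_num) (by norm_num) (by norm_num) (by norm_num) (by norm_num) (by norm_num)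
  have e : ∀ n : ℕ, Mem ((n : ℝ) / (100000 : ℕ)) (cst n 100000) := fun n => mem_cst (by norm_num)
  have klo := (H.dat (kap := (31000 : ℕ) / (100000 : ℕ)) bb22_1_lo (by positivity) (by norm_num) mb
    (e 31000) mw).lo rfl
  have khi := (H.dat (kap := (41200 : ℕ) / (100000 : ℕ)) bb22_1_hi (by positivity) (by norm_num) mb
    (e 41200) mw).hi rfl
  push_cast at klo khi
  constructor
  · linarith
  · linarith

end Pool.Agent.S3.Hz
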