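import Pool.Agent.S3.Hz.B22

/-!
# Height ranges at two inner vertices with two half twists, base point `59/200` (generated)
-/

set_option autoImplicit false

namespace Pool.Agent.S3.Hz

open Pool.Agent.S3.NI Pool.Agent.S3.T2

theorem bb22_3_lo : bb (test ⟨rng 36047 36054 100000, rng 79966 79971 100000, cst 22000 100000, true, 0⟩)
    [0, 1, 0, 1, 0, 1, 0, 2, 1, 0, 2, 1, 0, 2, 1, 0, 2, 1, 0]
    (rng 50000 90970 100000) (rng 50000 90970 100000) (rng 48165 58799 100000) one = true := by
  decide +kernel

theorem bb22_3_hi : bb (test ⟨rng 36047 36054 100000, rng 79966 79971 100000, cst 36900 100000, true, 1⟩)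
    [0, 1, 0, 1, 0, 1, 0, 1, 0, 2, 1, 0, 2, 1, 0, 2, 1, 0, 2, 1, 0]
    (rng 50000 90970 100000) (rng 50000 90970 100000) (rng 48165 58799 100000) one = true := by
  decide +kernel

/-- **Height range** at `re v = 59/200`, `4/25 ≤ re w ≤ 1/5`. -/
theorem h22_3 {θ θ' : ℝ} {v w : ℂ} (H : H22 θ θ' v w (59 / 200) (4 / 25) (1 / 5)) :
    (11 / 50) * Real.tan θ ≤ Real.sinh (Real.pi * (yv v w).im) ∧
      Real.sinh (Real.pi * (yv v w).im) ≤ (369 / 1000) * Real.tan θ := by
  have mb := base_mem (a0 := (59 / 200)) (a := 36047) (b := 36054) (c := 79966) (d := 79971) (D := 100000) (x1 := (6440259 / 10000000)) (x2 := (161007 / 250000)) (l := (1501049 / 2500000)) (u := (1200861 / 2000000)) (by norm_num) (by norm_num) (by norm_num) (by norm_num) (by norm_num) (by norm_num) (by norm_num) (by norm_num) (by norm_num) (by norm_num) (by norm_num) (by norm_num) (by norm_num) (by norm_num)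
  have mw := w_mem_sin (a := 48165) (b := 58799) (D := 100000) (x1 := (314159 / 625000)) (x2 := (3927 / 6250)) (by norm_num) H.w1 H.w2 (by norm_num) (by norm_num) (by norm_num) (by norm_num) (by norm_num) (by norm_num) (by norm_num) (by norm_num)
  have e : ∀ n : ℕ, Mem ((n : ℝ) / (100000 : ℕ)) (cst n 100000) := fun n => mem_cst (by norm_num)
  have klo := (H.dat (kap := (22000 : ℕ) / (100000 : ℕ)) bb22_3_lo (by positivity) (by norm_num) mb
    (e 22000) mw).lo rfl
  have khi := (H.dat (kap := (36900 : ℕ) / (100000 : ℕ)) bb22_3_hi (by positivity) (by norm_num) mb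
    (e 36900) mw).hi rfl
  push_cast at klo khi
  constructor
  · linarith
  · linarith

end Pool.Agent.S3.Hz
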