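import Pool.Agent.S3.Hz.B22

/-!
# Height ranges at two inner vertices with two half twists, base point `31/100` (generated)
-/

set_option autoImplicit false

namespace Pool.Agent.S3.Hz

open Pool.Agent.S3.NI Pool.Agent.S3.T2

theorem bb22_4_lo : bb (test ⟨rng 31590 31597 100000, rng 82706 82711 100000, cst 18000 100000, true, 0⟩)
    [0, 1, 0, 1, 0, 1, 0, 2, 1, 0, 2, 1, 0, 2, 1, 0, 2, 1, 0]
    (rng 50000 90970 100000) (rng 50000 90970 100000) (rng 58768 68475 100000) one = true := by
  decide +kernel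

theorem bb22_4_hi : bb (test ⟨rng 31590 31597 100000, rng 82706 82711 100000, cst 35000 100000, true, 1⟩)
    [0, 1, 0, 1, 0, 1, 0, 1, 0, 2, 1, 0, 2, 1, 0, 2, 1, 0, 2, 1, 0, 2]
    (rng 50000 90970 100000) (rng 50000 90970 100000) (rng 58768 68475 100000) one = true := by
  decide +kernel

/-- **Height range** at `re v = 31/100`, `1/5 ≤ re w ≤ 6/25`. -/
theorem h22_4 {θ θ' : ℝ} {v w : ℂ} (H : H22 θ θ' v w (31 / 100) (1 / 5) (6 / 25)) :
    (9 / 50) * Real.tan θ ≤ Real.sinh (Real.pi * (yv v w).im) ∧
      Real.sinh (Real.pi * (yv v w).im) ≤ (7 / 20) * Real.tan θ := by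
  have mb := base_mem (a0 := (31 / 100)) (a := 31590) (b := 31597) (c := 82706) (d := 82711) (D := 100000) (x1 := (5969021 / 10000000)) (x2 := (74613 / 125000)) (l := (5620829 / 10000000)) (u := (5620899 / 10000000)) (by norm_num) (by norm_num) (by norm_num) (by norm_num) (by norm_num) (by norm_num) (by norm_num) (by norm_num) (by norm_num) (by norm_num) (by norm_num) (by norm_num) (by norm_num) (by norm_num)
  have mw := w_mem_sin (a := 58768) (b := 68475) (D := 100000) (x1 := (314159 / 500000)) (x2 := (11781 / 15625)) (by norm_num) H.w1 H.w2 (by norm_num) (by norm_num) (by norm_num) (by norm_num) (by norm_num) (by norm_num) (by norm_num) (by norm_num)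
  have e : ∀ n : ℕ, Mem ((n : ℝ) / (100000 : ℕ)) (cst n 100000) := fun n => mem_cst (by norm_num)
  have klo := (H.dat (kap := (18000 : ℕ) / (100000 : ℕ)) bb22_4_lo (by positivity) (by norm_num) mb
    (e 18000) mw).lo rfl
  have khi := (H.dat (kap := (35000 : ℕ) / (100000 : ℕ)) bb22_4_hi (by positivity) (by norm_num) mb
    (e 35000) mw).hi rfl
  push_cast at klo khi
  constructor
  · linarith
  · linarith

end Pool.Agent.S3.Hz
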