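import Pool.Agent.S3.Hz.B22

/-!
# Height ranges at two inner vertices with two half twists, base point `643/2000` (generated)
-/

set_option autoImplicit false

namespace Pool.Agent.S3.Hz

open Pool.Agent.S3.NI Pool.Agent.S3.T2

theorem bb22_5_lo : bb (test ⟨rng 28282 28289 100000, rng 84682 84687 100000, cst 11500 100000, true, 0⟩)
    [0, 1, 0, 1, 0, 1, 2, 0, 1, 2, 0, 1, 2, 0, 1, 2, 0, 1, 2, 0, 1, 2, 0]
    (rng 50000 90970 100000) (rng 50000 90970 100000) (rng 68444 77072 100000) one = true := by
  decide +kernel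

theorem bb22_5_hi : bb (test ⟨rng 28282 28289 100000, rng 84682 84687 100000, cst 31900 100000, true, 1⟩)
    [0, 1, 0, 1, 0, 1, 0, 2, 1, 0, 2, 1, 0, 2, 1, 0, 2, 1, 0, 2, 1, 0]
    (rng 50000 90970 100000) (rng 50000 90970 100000) (rng 68444 77072 100000) one = true := by
  decide +kernel

/-- **Height range** at `re v = 643/2000`, `6/25 ≤ re w ≤ 7/25`. -/
theorem h22_5 {θ θ' : ℝ} {v w : ℂ} (H : H22 θ θ' v w (643 / 2000) (6 / 25) (7 / 25)) :
    (23 / 200) * Real.tan θ ≤ Real.sinh (Real.pi * (yv v w).im) ∧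
      Real.sinh (Real.pi * (yv v w).im) ≤ (319 / 1000) * Real.tan θ := by
  have mb := base_mem (a0 := (643 / 2000)) (a := 28282) (b := 28289) (c := 84682) (d := 84687) (D := 100000) (x1 := (2803869 / 5000000)) (x2 := (1401939 / 2500000)) (l := (332401 / 625000)) (u := (5318467 / 10000000)) (by norm_num) (by norm_num) (by norm_num) (by norm_num) (by norm_num) (by norm_num) (by norm_num) (by norm_num) (by norm_num) (by norm_num) (by norm_num) (by norm_num) (by norm_num) (by norm_num)
  have mw := w_mem_cos (a := 68444) (b := 77072) (D := 100000) (x1 := (3455749 / 5000000)) (x2 := (51051 / 62500)) (by norm_num) H.w1 H.w2 (by norm_num) (by norm_num) (by norm_num) (by norm_num) (by norm_num) (by norm_num) (by norm_num) (by norm_num)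
  have e : ∀ n : ℕ, Mem ((n : ℝ) / (100000 : ℕ)) (cst n 100000) := fun n => mem_cst (by norm_num)
  have klo := (H.dat (kap := (11500 : ℕ) / (100000 : ℕ)) bb22_5_lo (by positivity) (by norm_num) mb
    (e 11500) mw).lo rfl
  have khi := (H.dat (kap := (31900 : ℕ) / (100000 : ℕ)) bb22_5_hi (by positivity) (by norm_num) mb
    (e 31900) mw).hi rfl
  push_cast at klo khi
  constructor
  · linarith
  · linarith

end Pool.Agent.S3.Hz
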