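import Pool.Agent.S3.Hz.B22

/-!
# Height ranges at two inner vertices with two half twists, base point `67/200` (generated)
-/

set_option autoImplicit false

namespace Pool.Agent.S3.Hz

open Pool.Agent.S3.NI Pool.Agent.S3.T2

theorem bb22_6_lo : bb (test ⟨rng 24544 24551 100000, rng 86861 86866 100000, cst 2000 100000, true, 0⟩)
    [0, 1, 0, 1, 0, 1, 2, 0, 1, 2, 0, 1, 2, 0, 1, 2, 0, 1]
    (rng 50000 90970 100000) (rng 50000 90970 100000) (rng 77041 84453 100000) one = true := by
  decide +kernel

theorem bb22_6_hi : bb (test ⟨rng 24544 24551 100000, rng 86861 86866 100000, cst 27700 100000, true, 1⟩)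
    [0, 1, 0, 1, 0, 1, 0, 2, 1, 0, 2, 1, 0, 2, 1, 0, 2, 1, 0, 2, 1, 0, 2]
    (rng 50000 90970 100000) (rng 50000 90970 100000) (rng 77041 84453 100000) one = true := by
  decide +kernel

/-- **Height range** at `re v = 67/200`, `7/25 ≤ re w ≤ 8/25`. -/
theorem h22_6 {θ θ' : ℝ} {v w : ℂ} (H : H22 θ θ' v w (67 / 200) (7 / 25) (8 / 25)) :
    (1 / 50) * Real.tan θ ≤ Real.sinh (Real.pi * (yv v w).im) ∧
      Real.sinh (Real.pi * (yv v w).im) ≤ (277 / 1000) * Real.tan θ := by
  have mb := base_mem (a0 := (67 / 200)) (a := 24544) (b := 24551) (c := 86861) (d := 86866) (D := 100000) (x1 := (5183623 / 10000000)) (x2 := (129591 / 250000)) (l := (2477291 / 5000000)) (u := (2477309 / 5000000)) (by norm_num) (by norm_num) (by norm_num) (by norm_num) (by norm_num) (by norm_num) (by norm_num) (by norm_num) (by norm_num) (by norm_num) (by norm_num) (by norm_num) (by norm_num) (by norm_num)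
  have mw := w_mem_cos (a := 77041) (b := 84453) (D := 100000) (x1 := (2827431 / 5000000)) (x2 := (43197 / 62500)) (by norm_num) H.w1 H.w2 (by norm_num) (by norm_num) (by norm_num) (by norm_num) (by norm_num) (by norm_num) (by norm_num) (by norm_num)
  have e : ∀ n : ℕ, Mem ((n : ℝ) / (100000 : ℕ)) (cst n 100000) := fun n => mem_cst (by norm_num)
  have klo := (H.dat (kap := (2000 : ℕ) / (100000 : ℕ)) bb22_6_lo (by positivity) (by norm_num) mb
    (e 2000) mw).lo rfl
  have khi := (H.dat (kap := (27700 : ℕ) / (100000 : ℕ)) bb22_6_hi (by positivity) (by norm_num) mb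
    (e 27700) mw).hi rfl
  push_cast at klo khi
  constructor
  · linarith
  · linarith

end Pool.Agent.S3.Hz
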