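import Pool.Agent.S3.Hz.B22

/-!
# Height ranges at two inner vertices with two half twists, base point `3/8` (generated)
-/

set_option autoImplicit false

namespace Pool.Agent.S3.Hz

open Pool.Agent.S3.NI Pool.Agent.S3.T2

theorem bb22_8_lo : bb (test ⟨rng 14641 14648 100000, rng 92385 92390 100000, cst 4300 100000, true, 2⟩)
    [1, 0, 1, 0, 1, 0, 2, 1, 0, 2, 1, 0, 2, 1, 0, 2, 1, 0, 2, 1, 0, 2, 1, 0]
    (rng 50000 90970 100000) (rng 50000 90970 100000) (rng 89792 92408 100000) one = true := by
  decide +kernel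

theorem bb22_8_hi : bb (test ⟨rng 14641 14648 100000, rng 92385 92390 100000, cst 18000 100000, true, 1⟩)
    [0, 1, 0, 1, 0, 1, 0, 1, 2, 0, 1, 2, 0, 1, 2, 0, 1, 2, 0, 1, 2, 0]
    (rng 50000 90970 100000) (rng 50000 90970 100000) (rng 89792 92408 100000) one = true := by
  decide +kernel

/-- **Height range** at `re v = 3/8`, `71/200 ≤ re w ≤ 3/8`. -/
theorem h22_8 {θ θ' : ℝ} {v w : ℂ} (H : H22 θ θ' v w (3 / 8) (71 / 200) (3 / 8)) :
    (-43 / 1000) * Real.tan θ ≤ Real.sinh (Real.pi * (yv v w).im) ∧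
      Real.sinh (Real.pi * (yv v w).im) ≤ (9 / 50) * Real.tan θ := by
  have mb := base_mem (a0 := (3 / 8)) (a := 14641) (b := 14648) (c := 92385) (d := 92390) (D := 100000) (x1 := (3926987 / 10000000)) (x2 := (3927 / 10000)) (l := (382683 / 1000000)) (u := (1913423 / 5000000)) (by norm_num) (by norm_num) (by norm_num) (by norm_num) (by norm_num) (by norm_num) (by norm_num) (by norm_num) (by norm_num) (by norm_num) (by norm_num) (by norm_num) (by norm_num) (by norm_num)
  have mw := w_mem_cos (a := 89792) (b := 92408) (D := 100000) (x1 := (3926987 / 10000000)) (x2 := (113883 / 250000)) (by norm_num) H.w1 H.w2 (by norm_num) (by norm_num) (by norm_num) (by norm_num) (by norm_num) (by norm_num) (by norm_num) (by norm_num)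
  have e : ∀ n : ℕ, Mem ((n : ℝ) / (100000 : ℕ)) (cst n 100000) := fun n => mem_cst (by norm_num)
  have klo := (H.dat (kap := (4300 : ℕ) / (100000 : ℕ)) bb22_8_lo (by positivity) (by norm_num) mb
    (e 4300) mw).neg rfl
  have khi := (H.dat (kap := (18000 : ℕ) / (100000 : ℕ)) bb22_8_hi (by positivity) (by norm_num) mb
    (e 18000) mw).hi rfl
  push_cast at klo khi
  constructor
  · linarith
  · linarith

end Pool.Agent.S3.Hz
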