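import Pool.Agent.S3.Hz.B22

/-!
# Height ranges at two inner vertices with two half twists, base point `39/100` (generated)
-/

set_option autoImplicit false

namespace Pool.Agent.S3.Hz

open Pool.Agent.S3.NI Pool.Agent.S3.T2

theorem bb22_9_lo : bb (test ⟨rng 11471 11478 100000, rng 94086 94091 100000, cst 4300 100000, true, 2⟩)
    [1, 0, 1, 0, 1, 0, 2, 1, 0, 2, 1, 0, 2, 1, 0, 2, 1, 0, 2, 1, 0, 2]
    (rng 50000 90970 100000) (rng 50000 90970 100000) (rng 92377 94109 100000) one = true := by
  decide +kernel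

theorem bb22_9_hi : bb (test ⟨rng 11471 11478 100000, rng 94086 94091 100000, cst 15700 100000, true, 1⟩)
    [0, 1, 0, 1, 0, 1, 0, 1, 2, 0, 1, 2, 0, 1, 2, 0, 1, 2, 0, 1, 2, 0, 1]
    (rng 50000 90970 100000) (rng 50000 90970 100000) (rng 92377 94109 100000) one = true := by
  decide +kernel

/-- **Height range** at `re v = 39/100`, `3/8 ≤ re w ≤ 39/100`. -/
theorem h22_9 {θ θ' : ℝ} {v w : ℂ} (H : H22 θ θ' v w (39 / 100) (3 / 8) (39 / 100)) :
    (-43 / 1000) * Real.tan θ ≤ Real.sinh (Real.pi * (yv v w).im) ∧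
      Real.sinh (Real.pi * (yv v w).im) ≤ (157 / 1000) * Real.tan θ := by
  have mb := base_mem (a0 := (39 / 100)) (a := 11471) (b := 11478) (c := 94086) (d := 94091) (D := 100000) (x1 := (3455749 / 10000000)) (x2 := (43197 / 125000)) (l := (211711 / 625000)) (u := (846847 / 2500000)) (by norm_num) (by norm_num) (by norm_num) (by norm_num) (by norm_num) (by norm_num) (by norm_num) (by norm_num) (by norm_num) (by norm_num) (by norm_num) (by norm_num) (by norm_num) (by norm_num)
  have mw := w_mem_cos (a := 92377) (b := 94109) (D := 100000) (x1 := (3455749 / 10000000)) (x2 := (3927 / 10000)) (by norm_num) H.w1 H.w2 (by norm_num) (by norm_num) (by norm_num) (by norm_num) (by norm_num) (by norm_num) (by norm_num) (by norm_num)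
  have e : ∀ n : ℕ, Mem ((n : ℝ) / (100000 : ℕ)) (cst n 100000) := fun n => mem_cst (by norm_num)
  have klo := (H.dat (kap := (4300 : ℕ) / (100000 : ℕ)) bb22_9_lo (by positivity) (by norm_num) mb
    (e 4300) mw).neg rfl
  have khi := (H.dat (kap := (15700 : ℕ) / (100000 : ℕ)) bb22_9_hi (by positivity) (by norm_num) mb
    (e 15700) mw).hi rfl
  push_cast at klo khi
  constructor
  · linarith
  · linarith

end Pool.Agent.S3.Hz
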