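import Pool.Agent.S3.Hz.B22b

/-!
# Height ranges at two inner vertices with two half twists, in boxes (generated)
-/

set_option autoImplicit false

namespace Pool.Agent.S3.Hz

open Pool.Agent.S3.NI Pool.Agent.S3.T2

theorem bb22b_0_lo : bb (test ⟨rng 37565 37567 100000, rng 79015 79016 100000, cst 36000 100000, false, 0⟩)
    [0, 1, 0, 2, 1, 0, 2, 1, 0, 0, 0, 1, 0, 1, 0, 2, 1, 0, 2]
    (rng 50000 87006 100000) (rng 50000 70000 100000) (rng 0 12534 100000) one = true := by
  decide +kernel

theorem bb22b_0_hi : bb (test ⟨rng 37565 37567 100000, rng 79015 79016 100000, cst 41400 100000, false, 1⟩)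
    [0, 1, 0, 2, 1, 0, 2, 1, 0, 0, 0, 1, 0, 1, 0, 2, 1, 0]
    (rng 50000 87006 100000) (rng 50000 70000 100000) (rng 0 12534 100000) one = true := by
  decide +kernel

/-- Height range `0`. -/
theorem h22b_0 {θ θ' : ℝ} {v w : ℂ}
    (H : H22b θ θ' v w (29 / 100) 0 (1 / 25) (1 / 4) (49 / 100) (1 / 4) (757 / 1000)) :
    (9 / 25) * Real.tan θ ≤ Real.sinh (Real.pi * (yv v w).im) ∧
      Real.sinh (Real.pi * (yv v w).im) ≤ (207 / 500) * Real.tan θ := by
  have mb := base_mem (a0 := (29 / 100)) (a := 37565) (b := 37567) (c := 79015) (d := 79016) (D := 100000)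
    (x1 := (6597339 / 10000000)) (x2 := (82467 / 125000)) (l := (1225813 / 2000000)) (u := (6129191 / 10000000))
    (by norm_num) (by norm_num) (by norm_num) (by norm_num) (by norm_num) (by norm_num) (by norm_num) (by norm_num)
    (by norm_num) (by norm_num) (by norm_num) (by norm_num) (by norm_num) (by norm_num)
  have mw := w_mem_sin (a := 0) (b := 12534) (D := 100000) (x1 := 0) (x2 := (3927 / 31250)) (by norm_num) H.w1 H.w2
    (by norm_num) (by norm_num) (by norm_num) (by norm_num) (by norm_num) (by norm_num) (by norm_num) (by norm_num)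
  have e : ∀ n : ℕ, Mem ((n : ℝ) / (100000 : ℕ)) (cst n 100000) := fun n => mem_cst (by norm_num)
  have klo := (H.dat (kap := (36000 : ℕ) / (100000 : ℕ)) bb22b_0_lo rfl (by positivity) (by norm_num)
    (by norm_num) (by norm_num) (by norm_num) (by norm_num) (by norm_num) (by norm_num)
    (by norm_num) mb (e 36000) mw).lo rfl
  have khi := (H.dat (kap := (41400 : ℕ) / (100000 : ℕ)) bb22b_0_hi rfl (by positivity) (by norm_num)
    (by norm_num) (by norm_num) (by norm_num) (by norm_num) (by norm_num) (by norm_num)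
    (by norm_num) mb (e 41400) mw).hi rfl
  push_cast at klo khi
  constructor
  · linarith
  · linarith

theorem bb22b_1_lo : bb (test ⟨rng 37565 37567 100000, rng 79015 79016 100000, cst 39000 100000, false, 0⟩)
    [0, 0, 2, 1, 0, 2, 1, 0, 0, 0, 1, 0, 1, 0, 2, 1, 2]
    (rng 50000 83067 100000) (rng 70000 79687 100000) (rng 0 12534 100000) one = true := by
  decide +kernel

theorem bb22b_1_hi : bb (test ⟨rng 37565 37567 100000, rng 79015 79016 100000, cst 42800 100000, false, 1⟩)
    [0, 0, 2, 1, 0, 2, 1, 0, 2, 0, 0, 1, 0, 1, 0, 1, 0]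
    (rng 50000 83067 100000) (rng 70000 79687 100000) (rng 0 12534 100000) one = true := by
  decide +kernel

/-- Height range `1`. -/
theorem h22b_1 {θ θ' : ℝ} {v w : ℂ}
    (H : H22b θ θ' v w (29 / 100) 0 (1 / 25) (49 / 100) (127 / 200) (1 / 4) (69 / 100)) :
    (39 / 100) * Real.tan θ ≤ Real.sinh (Real.pi * (yv v w).im) ∧
      Real.sinh (Real.pi * (yv v w).im) ≤ (107 / 250) * Real.tan θ := by
  have mb := base_mem (a0 := (29 / 100)) (a := 37565) (b := 37567) (c := 79015) (d := 79016) (D := 100000)
    (x1 := (6597339 / 10000000)) (x2 := (82467 / 125000)) (l := (1225813 / 2000000)) (u := (6129191 / 10000000))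
    (by norm_num) (by norm_num) (by norm_num) (by norm_num) (by norm_num) (by norm_num) (by norm_num) (by norm_num)
    (by norm_num) (by norm_num) (by norm_num) (by norm_num) (by norm_num) (by norm_num)
  have mw := w_mem_sin (a := 0) (b := 12534) (D := 100000) (x1 := 0) (x2 := (3927 / 31250)) (by norm_num) H.w1 H.w2
    (by norm_num) (by norm_num) (by norm_num) (by norm_num) (by norm_num) (by norm_num) (by norm_num) (by norm_num)
  have e : ∀ n : ℕ, Mem ((n : ℝ) / (100000 : ℕ)) (cst n 100000) := fun n => mem_cst (by norm_num)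
  have klo := (H.dat (kap := (39000 : ℕ) / (100000 : ℕ)) bb22b_1_lo rfl (by positivity) (by norm_num)
    (by norm_num) (by norm_num) (by norm_num) (by norm_num) (by norm_num) (by norm_num)
    (by norm_num) mb (e 39000) mw).lo rfl
  have khi := (H.dat (kap := (42800 : ℕ) / (100000 : ℕ)) bb22b_1_hi rfl (by positivity) (by norm_num)
    (by norm_num) (by norm_num) (by norm_num) (by norm_num) (by norm_num) (by norm_num)
    (by norm_num) mb (e 42800) mw).hi rfl
  push_cast at klo khi
  constructor
  · linarith
  · linarith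

theorem bb22b_2_lo : bb (test ⟨rng 37565 37567 100000, rng 79015 79016 100000, cst 40500 100000, false, 0⟩)
    [0, 2, 0, 1, 2, 0, 1, 0, 0, 0, 1, 2, 1, 0, 1, 0]
    (rng 50000 64808 100000) (rng 79686 87006 100000) (rng 0 12534 100000) one = true := by
  decide +kernel

theorem bb22b_2_hi : bb (test ⟨rng 37565 37567 100000, rng 79015 79016 100000, cst 43900 100000, false, 1⟩)
    [0, 2, 0, 1, 2, 0, 1, 2, 0, 0, 0, 1, 1, 0, 2]
    (rng 50000 64808 100000) (rng 79686 87006 100000) (rng 0 12534 100000) one = true := by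
  decide +kernel

/-- Height range `2`. -/
theorem h22b_2 {θ θ' : ℝ} {v w : ℂ}
    (H : H22b θ θ' v w (29 / 100) 0 (1 / 25) (127 / 200) (757 / 1000) (1 / 4) (21 / 50)) :
    (81 / 200) * Real.tan θ ≤ Real.sinh (Real.pi * (yv v w).im) ∧
      Real.sinh (Real.pi * (yv v w).im) ≤ (439 / 1000) * Real.tan θ := by
  have mb := base_mem (a0 := (29 / 100)) (a := 37565) (b := 37567) (c := 79015) (d := 79016) (D := 100000)
    (x1 := (6597339 / 10000000)) (x2 := (82467 / 125000)) (l := (1225813 / 2000000)) (u := (6129191 / 10000000))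
    (by norm_num) (by norm_num) (by norm_num) (by norm_num) (by norm_num) (by norm_num) (by norm_num) (by norm_num)
    (by norm_num) (by norm_num) (by norm_num) (by norm_num) (by norm_num) (by norm_num)
  have mw := w_mem_sin (a := 0) (b := 12534) (D := 100000) (x1 := 0) (x2 := (3927 / 31250)) (by norm_num) H.w1 H.w2
    (by norm_num) (by norm_num) (by norm_num) (by norm_num) (by norm_num) (by norm_num) (by norm_num) (by norm_num)
  have e : ∀ n : ℕ, Mem ((n : ℝ) / (100000 : ℕ)) (cst n 100000) := fun n => mem_cst (by norm_num)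
  have klo := (H.dat (kap := (40500 : ℕ) / (100000 : ℕ)) bb22b_2_lo rfl (by positivity) (by norm_num)
    (by norm_num) (by norm_num) (by norm_num) (by norm_num) (by norm_num) (by norm_num)
    (by norm_num) mb (e 40500) mw).lo rfl
  have khi := (H.dat (kap := (43900 : ℕ) / (100000 : ℕ)) bb22b_2_hi rfl (by positivity) (by norm_num)
    (by norm_num) (by norm_num) (by norm_num) (by norm_num) (by norm_num) (by norm_num)
    (by norm_num) mb (e 43900) mw).hi rfl
  push_cast at klo khi
  constructor
  · linarith
  · linarith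

theorem bb22b_3_lo : bb (test ⟨rng 37565 37567 100000, rng 79015 79016 100000, cst 40900 100000, false, 0⟩)
    [0, 2, 1, 0, 2, 1, 0, 0, 0, 1, 0, 1, 2, 0, 2]
    (rng 64807 77460 100000) (rng 79686 87006 100000) (rng 0 12534 100000) one = true := by
  decide +kernel

theorem bb22b_3_hi : bb (test ⟨rng 37565 37567 100000, rng 79015 79016 100000, cst 43800 100000, false, 1⟩)
    [0, 2, 1, 0, 2, 1, 0, 2, 0, 0, 1, 0, 1, 0, 2]
    (rng 64807 77460 100000) (rng 79686 87006 100000) (rng 0 12534 100000) one = true := by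
  decide +kernel

/-- Height range `3`. -/
theorem h22b_3 {θ θ' : ℝ} {v w : ℂ}
    (H : H22b θ θ' v w (29 / 100) 0 (1 / 25) (127 / 200) (757 / 1000) (21 / 50) (3 / 5)) :
    (409 / 1000) * Real.tan θ ≤ Real.sinh (Real.pi * (yv v w).im) ∧
      Real.sinh (Real.pi * (yv v w).im) ≤ (219 / 500) * Real.tan θ := by
  have mb := base_mem (a0 := (29 / 100)) (a := 37565) (b := 37567) (c := 79015) (d := 79016) (D := 100000)
    (x1 := (6597339 / 10000000)) (x2 := (82467 / 125000)) (l := (1225813 / 2000000)) (u := (6129191 / 10000000))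
    (by norm_num) (by norm_num) (by norm_num) (by norm_num) (by norm_num) (by norm_num) (by norm_num) (by norm_num)
    (by norm_num) (by norm_num) (by norm_num) (by norm_num) (by norm_num) (by norm_num)
  have mw := w_mem_sin (a := 0) (b := 12534) (D := 100000) (x1 := 0) (x2 := (3927 / 31250)) (by norm_num) H.w1 H.w2
    (by norm_num) (by norm_num) (by norm_num) (by norm_num) (by norm_num) (by norm_num) (by norm_num) (by norm_num)
  have e : ∀ n : ℕ, Mem ((n : ℝ) / (100000 : ℕ)) (cst n 100000) := fun n => mem_cst (by norm_num)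
  have klo := (H.dat (kap := (40900 : ℕ) / (100000 : ℕ)) bb22b_3_lo rfl (by positivity) (by norm_num)
    (by norm_num) (by norm_num) (by norm_num) (by norm_num) (by norm_num) (by norm_num)
    (by norm_num) mb (e 40900) mw).lo rfl
  have khi := (H.dat (kap := (43800 : ℕ) / (100000 : ℕ)) bb22b_3_hi rfl (by positivity) (by norm_num)
    (by norm_num) (by norm_num) (by norm_num) (by norm_num) (by norm_num) (by norm_num)
    (by norm_num) mb (e 43800) mw).hi rfl
  push_cast at klo khi
  constructor
  · linarith
  · linarith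

theorem bb22b_4_lo : bb (test ⟨rng 37565 37567 100000, rng 79015 79016 100000, cst 34000 100000, false, 0⟩)
    [0, 1, 0, 2, 1, 0, 2, 1, 0, 0, 0, 1, 0, 1, 0, 1, 0]
    (rng 50000 87006 100000) (rng 50000 70000 100000) (rng 12533 24870 100000) one = true := by
  decide +kernel

theorem bb22b_4_hi : bb (test ⟨rng 37565 37567 100000, rng 79015 79016 100000, cst 40200 100000, false, 1⟩)
    [0, 1, 0, 2, 1, 0, 2, 1, 0, 0, 0, 1, 0, 1, 2, 0, 1, 2, 1]
    (rng 50000 87006 100000) (rng 50000 70000 100000) (rng 12533 24870 100000) one = true := by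
  decide +kernel

/-- Height range `4`. -/
theorem h22b_4 {θ θ' : ℝ} {v w : ℂ}
    (H : H22b θ θ' v w (29 / 100) (1 / 25) (2 / 25) (1 / 4) (49 / 100) (1 / 4) (757 / 1000)) :
    (17 / 50) * Real.tan θ ≤ Real.sinh (Real.pi * (yv v w).im) ∧
      Real.sinh (Real.pi * (yv v w).im) ≤ (201 / 500) * Real.tan θ := by
  have mb := base_mem (a0 := (29 / 100)) (a := 37565) (b := 37567) (c := 79015) (d := 79016) (D := 100000)
    (x1 := (6597339 / 10000000)) (x2 := (82467 / 125000)) (l := (1225813 / 2000000)) (u := (6129191 / 10000000))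
    (by norm_num) (by norm_num) (by norm_num) (by norm_num) (by norm_num) (by norm_num) (by norm_num) (by norm_num)
    (by norm_num) (by norm_num) (by norm_num) (by norm_num) (by norm_num) (by norm_num)
  have mw := w_mem_sin (a := 12533) (b := 24870) (D := 100000) (x1 := (314159 / 2500000)) (x2 := (3927 / 15625)) (by norm_num) H.w1 H.w2
    (by norm_num) (by norm_num) (by norm_num) (by norm_num) (by norm_num) (by norm_num) (by norm_num) (by norm_num)
  have e : ∀ n : ℕ, Mem ((n : ℝ) / (100000 : ℕ)) (cst n 100000) := fun n => mem_cst (by norm_num)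
  have klo := (H.dat (kap := (34000 : ℕ) / (100000 : ℕ)) bb22b_4_lo rfl (by positivity) (by norm_num)
    (by norm_num) (by norm_num) (by norm_num) (by norm_num) (by norm_num) (by norm_num)
    (by norm_num) mb (e 34000) mw).lo rfl
  have khi := (H.dat (kap := (40200 : ℕ) / (100000 : ℕ)) bb22b_4_hi rfl (by positivity) (by norm_num)
    (by norm_num) (by norm_num) (by norm_num) (by norm_num) (by norm_num) (by norm_num)
    (by norm_num) mb (e 40200) mw).hi rfl
  push_cast at klo khi
  constructor
  · linarith
  · linarith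

theorem bb22b_5_lo : bb (test ⟨rng 37565 37567 100000, rng 79015 79016 100000, cst 36800 100000, false, 0⟩)
    [0, 0, 2, 1, 0, 2, 1, 0, 0, 0, 1, 0, 1, 2, 0, 1, 2]
    (rng 50000 83067 100000) (rng 70000 79687 100000) (rng 12533 24870 100000) one = true := by
  decide +kernel

theorem bb22b_5_hi : bb (test ⟨rng 37565 37567 100000, rng 79015 79016 100000, cst 41900 100000, false, 1⟩)
    [0, 0, 2, 1, 0, 2, 1, 0, 0, 0, 1, 0, 1, 2, 0, 1, 2, 1]
    (rng 50000 83067 100000) (rng 70000 79687 100000) (rng 12533 24870 100000) one = true := by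
  decide +kernel

/-- Height range `5`. -/
theorem h22b_5 {θ θ' : ℝ} {v w : ℂ}
    (H : H22b θ θ' v w (29 / 100) (1 / 25) (2 / 25) (49 / 100) (127 / 200) (1 / 4) (69 / 100)) :
    (46 / 125) * Real.tan θ ≤ Real.sinh (Real.pi * (yv v w).im) ∧
      Real.sinh (Real.pi * (yv v w).im) ≤ (419 / 1000) * Real.tan θ := by
  have mb := base_mem (a0 := (29 / 100)) (a := 37565) (b := 37567) (c := 79015) (d := 79016) (D := 100000)
    (x1 := (6597339 / 10000000)) (x2 := (82467 / 125000)) (l := (1225813 / 2000000)) (u := (6129191 / 10000000))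
    (by norm_num) (by norm_num) (by norm_num) (by norm_num) (by norm_num) (by norm_num) (by norm_num) (by norm_num)
    (by norm_num) (by norm_num) (by norm_num) (by norm_num) (by norm_num) (by norm_num)
  have mw := w_mem_sin (a := 12533) (b := 24870) (D := 100000) (x1 := (314159 / 2500000)) (x2 := (3927 / 15625)) (by norm_num) H.w1 H.w2
    (by norm_num) (by norm_num) (by norm_num) (by norm_num) (by norm_num) (by norm_num) (by norm_num) (by norm_num)
  have e : ∀ n : ℕ, Mem ((n : ℝ) / (100000 : ℕ)) (cst n 100000) := fun n => mem_cst (by norm_num)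
  have klo := (H.dat (kap := (36800 : ℕ) / (100000 : ℕ)) bb22b_5_lo rfl (by positivity) (by norm_num)
    (by norm_num) (by norm_num) (by norm_num) (by norm_num) (by norm_num) (by norm_num)
    (by norm_num) mb (e 36800) mw).lo rfl
  have khi := (H.dat (kap := (41900 : ℕ) / (100000 : ℕ)) bb22b_5_hi rfl (by positivity) (by norm_num)
    (by norm_num) (by norm_num) (by norm_num) (by norm_num) (by norm_num) (by norm_num)
    (by norm_num) mb (e 41900) mw).hi rfl
  push_cast at klo khi
  constructor
  · linarith
  · linarith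

theorem bb22b_6_lo : bb (test ⟨rng 37565 37567 100000, rng 79015 79016 100000, cst 39500 100000, false, 0⟩)
    [0, 0, 2, 0, 1, 2, 0, 0, 1, 0, 0, 1, 0, 2]
    (rng 50000 64808 100000) (rng 79686 83067 100000) (rng 12533 18739 100000) one = true := by
  decide +kernel

theorem bb22b_6_hi : bb (test ⟨rng 37565 37567 100000, rng 79015 79016 100000, cst 42200 100000, false, 1⟩)
    [0, 0, 2, 0, 1, 2, 0, 0, 1, 0, 1, 0, 1, 2]
    (rng 50000 64808 100000) (rng 79686 83067 100000) (rng 12533 18739 100000) one = true := by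
  decide +kernel

/-- Height range `6`. -/
theorem h22b_6 {θ θ' : ℝ} {v w : ℂ}
    (H : H22b θ θ' v w (29 / 100) (1 / 25) (3 / 50) (127 / 200) (69 / 100) (1 / 4) (21 / 50)) :
    (79 / 200) * Real.tan θ ≤ Real.sinh (Real.pi * (yv v w).im) ∧
      Real.sinh (Real.pi * (yv v w).im) ≤ (211 / 500) * Real.tan θ := by
  have mb := base_mem (a0 := (29 / 100)) (a := 37565) (b := 37567) (c := 79015) (d := 79016) (D := 100000)
    (x1 := (6597339 / 10000000)) (x2 := (82467 / 125000)) (l := (1225813 / 2000000)) (u := (6129191 / 10000000))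
    (by norm_num) (by norm_num) (by norm_num) (by norm_num) (by norm_num) (by norm_num) (by norm_num) (by norm_num)
    (by norm_num) (by norm_num) (by norm_num) (by norm_num) (by norm_num) (by norm_num)
  have mw := w_mem_sin (a := 12533) (b := 18739) (D := 100000) (x1 := (314159 / 2500000)) (x2 := (11781 / 62500)) (by norm_num) H.w1 H.w2
    (by norm_num) (by norm_num) (by norm_num) (by norm_num) (by norm_num) (by norm_num) (by norm_num) (by norm_num)
  have e : ∀ n : ℕ, Mem ((n : ℝ) / (100000 : ℕ)) (cst n 100000) := fun n => mem_cst (by norm_num)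
  have klo := (H.dat (kap := (39500 : ℕ) / (100000 : ℕ)) bb22b_6_lo rfl (by positivity) (by norm_num)
    (by norm_num) (by norm_num) (by norm_num) (by norm_num) (by norm_num) (by norm_num)
    (by norm_num) mb (e 39500) mw).lo rfl
  have khi := (H.dat (kap := (42200 : ℕ) / (100000 : ℕ)) bb22b_6_hi rfl (by positivity) (by norm_num)
    (by norm_num) (by norm_num) (by norm_num) (by norm_num) (by norm_num) (by norm_num)
    (by norm_num) mb (e 42200) mw).hi rfl
  push_cast at klo khi
  constructor
  · linarith
  · linarith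

theorem bb22b_7_lo : bb (test ⟨rng 37565 37567 100000, rng 79015 79016 100000, cst 40300 100000, false, 0⟩)
    [0, 0, 2, 1, 0, 2, 1, 0, 0, 0, 1, 0, 1, 2]
    (rng 64807 77460 100000) (rng 79686 83067 100000) (rng 12533 18739 100000) one = true := by
  decide +kernel

theorem bb22b_7_hi : bb (test ⟨rng 37565 37567 100000, rng 79015 79016 100000, cst 42400 100000, false, 1⟩)
    [0, 0, 2, 1, 0, 2, 1, 0, 0, 0, 1, 0, 2, 1]
    (rng 64807 77460 100000) (rng 79686 83067 100000) (rng 12533 18739 100000) one = true := by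
  decide +kernel

/-- Height range `7`. -/
theorem h22b_7 {θ θ' : ℝ} {v w : ℂ}
    (H : H22b θ θ' v w (29 / 100) (1 / 25) (3 / 50) (127 / 200) (69 / 100) (21 / 50) (3 / 5)) :
    (403 / 1000) * Real.tan θ ≤ Real.sinh (Real.pi * (yv v w).im) ∧
      Real.sinh (Real.pi * (yv v w).im) ≤ (53 / 125) * Real.tan θ := by
  have mb := base_mem (a0 := (29 / 100)) (a := 37565) (b := 37567) (c := 79015) (d := 79016) (D := 100000)
    (x1 := (6597339 / 10000000)) (x2 := (82467 / 125000)) (l := (1225813 / 2000000)) (u := (6129191 / 10000000))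
    (by norm_num) (by norm_num) (by norm_num) (by norm_num) (by norm_num) (by norm_num) (by norm_num) (by norm_num)
    (by norm_num) (by norm_num) (by norm_num) (by norm_num) (by norm_num) (by norm_num)
  have mw := w_mem_sin (a := 12533) (b := 18739) (D := 100000) (x1 := (314159 / 2500000)) (x2 := (11781 / 62500)) (by norm_num) H.w1 H.w2
    (by norm_num) (by norm_num) (by norm_num) (by norm_num) (by norm_num) (by norm_num) (by norm_num) (by norm_num)
  have e : ∀ n : ℕ, Mem ((n : ℝ) / (100000 : ℕ)) (cst n 100000) := fun n => mem_cst (by norm_num)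
  have klo := (H.dat (kap := (40300 : ℕ) / (100000 : ℕ)) bb22b_7_lo rfl (by positivity) (by norm_num)
    (by norm_num) (by norm_num) (by norm_num) (by norm_num) (by norm_num) (by norm_num)
    (by norm_num) mb (e 40300) mw).lo rfl
  have khi := (H.dat (kap := (42400 : ℕ) / (100000 : ℕ)) bb22b_7_hi rfl (by positivity) (by norm_num)
    (by norm_num) (by norm_num) (by norm_num) (by norm_num) (by norm_num) (by norm_num)
    (by norm_num) mb (e 42400) mw).hi rfl
  push_cast at klo khi
  constructor
  · linarith
  · linarith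

end Pool.Agent.S3.Hz
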