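import Pool.Agent.S3.Hz.B22b

/-!
# Height ranges at two inner vertices with two half twists, in boxes (generated)
-/

set_option autoImplicit false

namespace Pool.Agent.S3.Hz

open Pool.Agent.S3.NI Pool.Agent.S3.T2

theorem bb22b_8_lo : bb (test ⟨rng 37565 37567 100000, rng 79015 79016 100000, cst 40000 100000, false, 0⟩)
    [0, 2, 0, 1, 2, 0, 0, 0, 1, 0, 1, 0, 2]
    (rng 50000 59161 100000) (rng 83066 87006 100000) (rng 12533 18739 100000) one = true := by
  decide +kernel

theorem bb22b_8_hi : bb (test ⟨rng 37565 37567 100000, rng 79015 79016 100000, cst 42600 100000, false, 1⟩)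
    [0, 2, 0, 1, 2, 0, 1, 0, 0, 0, 1, 0, 1, 2]
    (rng 50000 59161 100000) (rng 83066 87006 100000) (rng 12533 18739 100000) one = true := by
  decide +kernel

/-- Height range `8`. -/
theorem h22b_8 {θ θ' : ℝ} {v w : ℂ}
    (H : H22b θ θ' v w (29 / 100) (1 / 25) (3 / 50) (69 / 100) (757 / 1000) (1 / 4) (7 / 20)) :
    (2 / 5) * Real.tan θ ≤ Real.sinh (Real.pi * (yv v w).im) ∧
      Real.sinh (Real.pi * (yv v w).im) ≤ (213 / 500) * Real.tan θ := by
  have mb := base_mem (a0 := (29 / 100)) (a := 37565) (b := 37567) (c := 79015) (d := 79016) (D := 100000)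
    (x1 := (6597339 / 10000000)) (x2 := (82467 / 125000)) (l := (1225813 / 2000000)) (u := (6129191 / 10000000))
    (by norm_num) (by norm_num) (by norm_num) (by norm_num) (by norm_num) (by norm_num) (by norm_num) (by norm_num)
    (by norm_num) (by norm_num) (by norm_num) (by norm_num) (by norm_num) (by norm_num)
  have mw := w_mem_sin (a := 12533) (b := 18739) (D := 100000) (x1 := (314159 / 2500000)) (x2 := (11781 / 62500)) (by norm_num) H.w1 H.w2
    (by norm_num) (by norm_num) (by norm_num) (by norm_num) (by norm_num) (by norm_num) (by norm_num) (by norm_num)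
  have e : ∀ n : ℕ, Mem ((n : ℝ) / (100000 : ℕ)) (cst n 100000) := fun n => mem_cst (by norm_num)
  have klo := (H.dat (kap := (40000 : ℕ) / (100000 : ℕ)) bb22b_8_lo rfl (by positivity) (by norm_num)
    (by norm_num) (by norm_num) (by norm_num) (by norm_num) (by norm_num) (by norm_num)
    (by norm_num) mb (e 40000) mw).lo rfl
  have khi := (H.dat (kap := (42600 : ℕ) / (100000 : ℕ)) bb22b_8_hi rfl (by positivity) (by norm_num)
    (by norm_num) (by norm_num) (by norm_num) (by norm_num) (by norm_num) (by norm_num)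
    (by norm_num) mb (e 42600) mw).hi rfl
  push_cast at klo khi
  constructor
  · linarith
  · linarith

theorem bb22b_9_lo : bb (test ⟨rng 37565 37567 100000, rng 79015 79016 100000, cst 40600 100000, false, 0⟩)
    [0, 2, 0, 1, 2, 0, 1, 0, 0, 1, 0, 1, 0]
    (rng 59160 67083 100000) (rng 83066 87006 100000) (rng 12533 18739 100000) one = true := by
  decide +kernel

theorem bb22b_9_hi : bb (test ⟨rng 37565 37567 100000, rng 79015 79016 100000, cst 42900 100000, false, 1⟩)
    [0, 2, 0, 1, 2, 0, 1, 0, 0, 1, 0, 1, 2]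
    (rng 59160 67083 100000) (rng 83066 87006 100000) (rng 12533 18739 100000) one = true := by
  decide +kernel

/-- Height range `9`. -/
theorem h22b_9 {θ θ' : ℝ} {v w : ℂ}
    (H : H22b θ θ' v w (29 / 100) (1 / 25) (3 / 50) (69 / 100) (757 / 1000) (7 / 20) (9 / 20)) :
    (203 / 500) * Real.tan θ ≤ Real.sinh (Real.pi * (yv v w).im) ∧
      Real.sinh (Real.pi * (yv v w).im) ≤ (429 / 1000) * Real.tan θ := by
  have mb := base_mem (a0 := (29 / 100)) (a := 37565) (b := 37567) (c := 79015) (d := 79016) (D := 100000)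
    (x1 := (6597339 / 10000000)) (x2 := (82467 / 125000)) (l := (1225813 / 2000000)) (u := (6129191 / 10000000))
    (by norm_num) (by norm_num) (by norm_num) (by norm_num) (by norm_num) (by norm_num) (by norm_num) (by norm_num)
    (by norm_num) (by norm_num) (by norm_num) (by norm_num) (by norm_num) (by norm_num)
  have mw := w_mem_sin (a := 12533) (b := 18739) (D := 100000) (x1 := (314159 / 2500000)) (x2 := (11781 / 62500)) (by norm_num) H.w1 H.w2
    (by norm_num) (by norm_num) (by norm_num) (by norm_num) (by norm_num) (by norm_num) (by norm_num) (by norm_num)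
  have e : ∀ n : ℕ, Mem ((n : ℝ) / (100000 : ℕ)) (cst n 100000) := fun n => mem_cst (by norm_num)
  have klo := (H.dat (kap := (40600 : ℕ) / (100000 : ℕ)) bb22b_9_lo rfl (by positivity) (by norm_num)
    (by norm_num) (by norm_num) (by norm_num) (by norm_num) (by norm_num) (by norm_num)
    (by norm_num) mb (e 40600) mw).lo rfl
  have khi := (H.dat (kap := (42900 : ℕ) / (100000 : ℕ)) bb22b_9_hi rfl (by positivity) (by norm_num)
    (by norm_num) (by norm_num) (by norm_num) (by norm_num) (by norm_num) (by norm_num)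
    (by norm_num) mb (e 42900) mw).hi rfl
  push_cast at klo khi
  constructor
  · linarith
  · linarith

theorem bb22b_10_lo : bb (test ⟨rng 37565 37567 100000, rng 79015 79016 100000, cst 38400 100000, false, 0⟩)
    [0, 0, 2, 0, 1, 2, 0, 0, 1, 0, 1, 0, 0, 2]
    (rng 50000 64808 100000) (rng 79686 83067 100000) (rng 18738 24870 100000) one = true := by
  decide +kernel

theorem bb22b_10_hi : bb (test ⟨rng 37565 37567 100000, rng 79015 79016 100000, cst 41600 100000, false, 1⟩)
    [0, 0, 2, 0, 1, 2, 0, 0, 1, 0, 1, 0, 1, 2]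
    (rng 50000 64808 100000) (rng 79686 83067 100000) (rng 18738 24870 100000) one = true := by
  decide +kernel

/-- Height range `10`. -/
theorem h22b_10 {θ θ' : ℝ} {v w : ℂ}
    (H : H22b θ θ' v w (29 / 100) (3 / 50) (2 / 25) (127 / 200) (69 / 100) (1 / 4) (21 / 50)) :
    (48 / 125) * Real.tan θ ≤ Real.sinh (Real.pi * (yv v w).im) ∧
      Real.sinh (Real.pi * (yv v w).im) ≤ (52 / 125) * Real.tan θ := by
  have mb := base_mem (a0 := (29 / 100)) (a := 37565) (b := 37567) (c := 79015) (d := 79016) (D := 100000)
    (x1 := (6597339 / 10000000)) (x2 := (82467 / 125000)) (l := (1225813 / 2000000)) (u := (6129191 / 10000000))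
    (by norm_num) (by norm_num) (by norm_num) (by norm_num) (by norm_num) (by norm_num) (by norm_num) (by norm_num)
    (by norm_num) (by norm_num) (by norm_num) (by norm_num) (by norm_num) (by norm_num)
  have mw := w_mem_sin (a := 18738) (b := 24870) (D := 100000) (x1 := (942477 / 5000000)) (x2 := (3927 / 15625)) (by norm_num) H.w1 H.w2
    (by norm_num) (by norm_num) (by norm_num) (by norm_num) (by norm_num) (by norm_num) (by norm_num) (by norm_num)
  have e : ∀ n : ℕ, Mem ((n : ℝ) / (100000 : ℕ)) (cst n 100000) := fun n => mem_cst (by norm_num)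
  have klo := (H.dat (kap := (38400 : ℕ) / (100000 : ℕ)) bb22b_10_lo rfl (by positivity) (by norm_num)
    (by norm_num) (by norm_num) (by norm_num) (by norm_num) (by norm_num) (by norm_num)
    (by norm_num) mb (e 38400) mw).lo rfl
  have khi := (H.dat (kap := (41600 : ℕ) / (100000 : ℕ)) bb22b_10_hi rfl (by positivity) (by norm_num)
    (by norm_num) (by norm_num) (by norm_num) (by norm_num) (by norm_num) (by norm_num)
    (by norm_num) mb (e 41600) mw).hi rfl
  push_cast at klo khi
  constructor
  · linarith
  · linarith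

theorem bb22b_11_lo : bb (test ⟨rng 37565 37567 100000, rng 79015 79016 100000, cst 39500 100000, false, 0⟩)
    [0, 0, 2, 1, 0, 2, 1, 0, 0, 0, 1, 0, 1, 2]
    (rng 64807 77460 100000) (rng 79686 83067 100000) (rng 18738 24870 100000) one = true := by
  decide +kernel

theorem bb22b_11_hi : bb (test ⟨rng 37565 37567 100000, rng 79015 79016 100000, cst 42000 100000, false, 1⟩)
    [0, 0, 2, 1, 0, 2, 1, 0, 0, 0, 1, 0, 2, 1]
    (rng 64807 77460 100000) (rng 79686 83067 100000) (rng 18738 24870 100000) one = true := by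
  decide +kernel

/-- Height range `11`. -/
theorem h22b_11 {θ θ' : ℝ} {v w : ℂ}
    (H : H22b θ θ' v w (29 / 100) (3 / 50) (2 / 25) (127 / 200) (69 / 100) (21 / 50) (3 / 5)) :
    (79 / 200) * Real.tan θ ≤ Real.sinh (Real.pi * (yv v w).im) ∧
      Real.sinh (Real.pi * (yv v w).im) ≤ (21 / 50) * Real.tan θ := by
  have mb := base_mem (a0 := (29 / 100)) (a := 37565) (b := 37567) (c := 79015) (d := 79016) (D := 100000)
    (x1 := (6597339 / 10000000)) (x2 := (82467 / 125000)) (l := (1225813 / 2000000)) (u := (6129191 / 10000000))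
    (by norm_num) (by norm_num) (by norm_num) (by norm_num) (by norm_num) (by norm_num) (by norm_num) (by norm_num)
    (by norm_num) (by norm_num) (by norm_num) (by norm_num) (by norm_num) (by norm_num)
  have mw := w_mem_sin (a := 18738) (b := 24870) (D := 100000) (x1 := (942477 / 5000000)) (x2 := (3927 / 15625)) (by norm_num) H.w1 H.w2
    (by norm_num) (by norm_num) (by norm_num) (by norm_num) (by norm_num) (by norm_num) (by norm_num) (by norm_num)
  have e : ∀ n : ℕ, Mem ((n : ℝ) / (100000 : ℕ)) (cst n 100000) := fun n => mem_cst (by norm_num)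
  have klo := (H.dat (kap := (39500 : ℕ) / (100000 : ℕ)) bb22b_11_lo rfl (by positivity) (by norm_num)
    (by norm_num) (by norm_num) (by norm_num) (by norm_num) (by norm_num) (by norm_num)
    (by norm_num) mb (e 39500) mw).lo rfl
  have khi := (H.dat (kap := (42000 : ℕ) / (100000 : ℕ)) bb22b_11_hi rfl (by positivity) (by norm_num)
    (by norm_num) (by norm_num) (by norm_num) (by norm_num) (by norm_num) (by norm_num)
    (by norm_num) mb (e 42000) mw).hi rfl
  push_cast at klo khi
  constructor
  · linarith
  · linarith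

theorem bb22b_12_lo : bb (test ⟨rng 37565 37567 100000, rng 79015 79016 100000, cst 39000 100000, false, 0⟩)
    [0, 2, 0, 1, 2, 0, 0, 1, 0, 1, 0, 1, 0, 2]
    (rng 50000 59161 100000) (rng 83066 87006 100000) (rng 18738 24870 100000) one = true := by
  decide +kernel

theorem bb22b_12_hi : bb (test ⟨rng 37565 37567 100000, rng 79015 79016 100000, cst 41900 100000, false, 1⟩)
    [0, 2, 0, 1, 2, 0, 0, 1, 0, 0, 1, 1, 0, 2]
    (rng 50000 59161 100000) (rng 83066 87006 100000) (rng 18738 24870 100000) one = true := by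
  decide +kernel

/-- Height range `12`. -/
theorem h22b_12 {θ θ' : ℝ} {v w : ℂ}
    (H : H22b θ θ' v w (29 / 100) (3 / 50) (2 / 25) (69 / 100) (757 / 1000) (1 / 4) (7 / 20)) :
    (39 / 100) * Real.tan θ ≤ Real.sinh (Real.pi * (yv v w).im) ∧
      Real.sinh (Real.pi * (yv v w).im) ≤ (419 / 1000) * Real.tan θ := by
  have mb := base_mem (a0 := (29 / 100)) (a := 37565) (b := 37567) (c := 79015) (d := 79016) (D := 100000)
    (x1 := (6597339 / 10000000)) (x2 := (82467 / 125000)) (l := (1225813 / 2000000)) (u := (6129191 / 10000000))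
    (by norm_num) (by norm_num) (by norm_num) (by norm_num) (by norm_num) (by norm_num) (by norm_num) (by norm_num)
    (by norm_num) (by norm_num) (by norm_num) (by norm_num) (by norm_num) (by norm_num)
  have mw := w_mem_sin (a := 18738) (b := 24870) (D := 100000) (x1 := (942477 / 5000000)) (x2 := (3927 / 15625)) (by norm_num) H.w1 H.w2
    (by norm_num) (by norm_num) (by norm_num) (by norm_num) (by norm_num) (by norm_num) (by norm_num) (by norm_num)
  have e : ∀ n : ℕ, Mem ((n : ℝ) / (100000 : ℕ)) (cst n 100000) := fun n => mem_cst (by norm_num)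
  have klo := (H.dat (kap := (39000 : ℕ) / (100000 : ℕ)) bb22b_12_lo rfl (by positivity) (by norm_num)
    (by norm_num) (by norm_num) (by norm_num) (by norm_num) (by norm_num) (by norm_num)
    (by norm_num) mb (e 39000) mw).lo rfl
  have khi := (H.dat (kap := (41900 : ℕ) / (100000 : ℕ)) bb22b_12_hi rfl (by positivity) (by norm_num)
    (by norm_num) (by norm_num) (by norm_num) (by norm_num) (by norm_num) (by norm_num)
    (by norm_num) mb (e 41900) mw).hi rfl
  push_cast at klo khi
  constructor
  · linarith
  · linarith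

theorem bb22b_13_lo : bb (test ⟨rng 37565 37567 100000, rng 79015 79016 100000, cst 39700 100000, false, 0⟩)
    [0, 2, 0, 1, 2, 0, 0, 1, 0, 1, 0, 1, 2]
    (rng 59160 67083 100000) (rng 83066 87006 100000) (rng 18738 24870 100000) one = true := by
  decide +kernel

theorem bb22b_13_hi : bb (test ⟨rng 37565 37567 100000, rng 79015 79016 100000, cst 42300 100000, false, 1⟩)
    [0, 2, 0, 1, 2, 0, 1, 0, 0, 1, 0, 1, 0, 2]
    (rng 59160 67083 100000) (rng 83066 87006 100000) (rng 18738 24870 100000) one = true := by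
  decide +kernel

/-- Height range `13`. -/
theorem h22b_13 {θ θ' : ℝ} {v w : ℂ}
    (H : H22b θ θ' v w (29 / 100) (3 / 50) (2 / 25) (69 / 100) (757 / 1000) (7 / 20) (9 / 20)) :
    (397 / 1000) * Real.tan θ ≤ Real.sinh (Real.pi * (yv v w).im) ∧
      Real.sinh (Real.pi * (yv v w).im) ≤ (423 / 1000) * Real.tan θ := by
  have mb := base_mem (a0 := (29 / 100)) (a := 37565) (b := 37567) (c := 79015) (d := 79016) (D := 100000)
    (x1 := (6597339 / 10000000)) (x2 := (82467 / 125000)) (l := (1225813 / 2000000)) (u := (6129191 / 10000000))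
    (by norm_num) (by norm_num) (by norm_num) (by norm_num) (by norm_num) (by norm_num) (by norm_num) (by norm_num)
    (by norm_num) (by norm_num) (by norm_num) (by norm_num) (by norm_num) (by norm_num)
  have mw := w_mem_sin (a := 18738) (b := 24870) (D := 100000) (x1 := (942477 / 5000000)) (x2 := (3927 / 15625)) (by norm_num) H.w1 H.w2
    (by norm_num) (by norm_num) (by norm_num) (by norm_num) (by norm_num) (by norm_num) (by norm_num) (by norm_num)
  have e : ∀ n : ℕ, Mem ((n : ℝ) / (100000 : ℕ)) (cst n 100000) := fun n => mem_cst (by norm_num)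
  have klo := (H.dat (kap := (39700 : ℕ) / (100000 : ℕ)) bb22b_13_lo rfl (by positivity) (by norm_num)
    (by norm_num) (by norm_num) (by norm_num) (by norm_num) (by norm_num) (by norm_num)
    (by norm_num) mb (e 39700) mw).lo rfl
  have khi := (H.dat (kap := (42300 : ℕ) / (100000 : ℕ)) bb22b_13_hi rfl (by positivity) (by norm_num)
    (by norm_num) (by norm_num) (by norm_num) (by norm_num) (by norm_num) (by norm_num)
    (by norm_num) mb (e 42300) mw).hi rfl
  push_cast at klo khi
  constructor
  · linarith
  · linarith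

theorem bb22b_14_lo : bb (test ⟨rng 37565 37567 100000, rng 79015 79016 100000, cst 31000 100000, false, 0⟩)
    [1, 0, 2, 1, 0, 2, 0, 0, 1, 0, 1, 0, 1, 2, 0, 1, 1]
    (rng 50000 67083 100000) (rng 50000 70000 100000) (rng 24868 36813 100000) one = true := by
  decide +kernel

theorem bb22b_14_hi : bb (test ⟨rng 37565 37567 100000, rng 79015 79016 100000, cst 38600 100000, false, 1⟩)
    [1, 0, 2, 1, 0, 2, 1, 0, 0, 0, 1, 0, 1, 2, 0, 1, 0, 2]
    (rng 50000 67083 100000) (rng 50000 70000 100000) (rng 24868 36813 100000) one = true := by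
  decide +kernel

/-- Height range `14`. -/
theorem h22b_14 {θ θ' : ℝ} {v w : ℂ}
    (H : H22b θ θ' v w (29 / 100) (2 / 25) (3 / 25) (1 / 4) (49 / 100) (1 / 4) (9 / 20)) :
    (31 / 100) * Real.tan θ ≤ Real.sinh (Real.pi * (yv v w).im) ∧
      Real.sinh (Real.pi * (yv v w).im) ≤ (193 / 500) * Real.tan θ := by
  have mb := base_mem (a0 := (29 / 100)) (a := 37565) (b := 37567) (c := 79015) (d := 79016) (D := 100000)
    (x1 := (6597339 / 10000000)) (x2 := (82467 / 125000)) (l := (1225813 / 2000000)) (u := (6129191 / 10000000))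
    (by norm_num) (by norm_num) (by norm_num) (by norm_num) (by norm_num) (by norm_num) (by norm_num) (by norm_num)
    (by norm_num) (by norm_num) (by norm_num) (by norm_num) (by norm_num) (by norm_num)
  have mw := w_mem_sin (a := 24868) (b := 36813) (D := 100000) (x1 := (314159 / 1250000)) (x2 := (11781 / 31250)) (by norm_num) H.w1 H.w2
    (by norm_num) (by norm_num) (by norm_num) (by norm_num) (by norm_num) (by norm_num) (by norm_num) (by norm_num)
  have e : ∀ n : ℕ, Mem ((n : ℝ) / (100000 : ℕ)) (cst n 100000) := fun n => mem_cst (by norm_num)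
  have klo := (H.dat (kap := (31000 : ℕ) / (100000 : ℕ)) bb22b_14_lo rfl (by positivity) (by norm_num)
    (by norm_num) (by norm_num) (by norm_num) (by norm_num) (by norm_num) (by norm_num)
    (by norm_num) mb (e 31000) mw).lo rfl
  have khi := (H.dat (kap := (38600 : ℕ) / (100000 : ℕ)) bb22b_14_hi rfl (by positivity) (by norm_num)
    (by norm_num) (by norm_num) (by norm_num) (by norm_num) (by norm_num) (by norm_num)
    (by norm_num) mb (e 38600) mw).hi rfl
  push_cast at klo khi
  constructor
  · linarith
  · linarith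

theorem bb22b_15_lo : bb (test ⟨rng 37565 37567 100000, rng 79015 79016 100000, cst 32000 100000, false, 0⟩)
    [1, 0, 2, 1, 0, 2, 1, 0, 0, 0, 1, 0, 1, 2, 0, 1, 0, 2]
    (rng 67082 87006 100000) (rng 50000 70000 100000) (rng 24868 36813 100000) one = true := by
  decide +kernel

theorem bb22b_15_hi : bb (test ⟨rng 37565 37567 100000, rng 79015 79016 100000, cst 39200 100000, false, 1⟩)
    [1, 0, 2, 1, 0, 2, 1, 0, 0, 0, 1, 0, 1, 2, 0, 1, 2, 1]
    (rng 67082 87006 100000) (rng 50000 70000 100000) (rng 24868 36813 100000) one = true := by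
  decide +kernel

/-- Height range `15`. -/
theorem h22b_15 {θ θ' : ℝ} {v w : ℂ}
    (H : H22b θ θ' v w (29 / 100) (2 / 25) (3 / 25) (1 / 4) (49 / 100) (9 / 20) (757 / 1000)) :
    (8 / 25) * Real.tan θ ≤ Real.sinh (Real.pi * (yv v w).im) ∧
      Real.sinh (Real.pi * (yv v w).im) ≤ (49 / 125) * Real.tan θ := by
  have mb := base_mem (a0 := (29 / 100)) (a := 37565) (b := 37567) (c := 79015) (d := 79016) (D := 100000)
    (x1 := (6597339 / 10000000)) (x2 := (82467 / 125000)) (l := (1225813 / 2000000)) (u := (6129191 / 10000000))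
    (by norm_num) (by norm_num) (by norm_num) (by norm_num) (by norm_num) (by norm_num) (by norm_num) (by norm_num)
    (by norm_num) (by norm_num) (by norm_num) (by norm_num) (by norm_num) (by norm_num)
  have mw := w_mem_sin (a := 24868) (b := 36813) (D := 100000) (x1 := (314159 / 1250000)) (x2 := (11781 / 31250)) (by norm_num) H.w1 H.w2
    (by norm_num) (by norm_num) (by norm_num) (by norm_num) (by norm_num) (by norm_num) (by norm_num) (by norm_num)
  have e : ∀ n : ℕ, Mem ((n : ℝ) / (100000 : ℕ)) (cst n 100000) := fun n => mem_cst (by norm_num)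
  have klo := (H.dat (kap := (32000 : ℕ) / (100000 : ℕ)) bb22b_15_lo rfl (by positivity) (by norm_num)
    (by norm_num) (by norm_num) (by norm_num) (by norm_num) (by norm_num) (by norm_num)
    (by norm_num) mb (e 32000) mw).lo rfl
  have khi := (H.dat (kap := (39200 : ℕ) / (100000 : ℕ)) bb22b_15_hi rfl (by positivity) (by norm_num)
    (by norm_num) (by norm_num) (by norm_num) (by norm_num) (by norm_num) (by norm_num)
    (by norm_num) mb (e 39200) mw).hi rfl
  push_cast at klo khi
  constructor
  · linarith
  · linarith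

end Pool.Agent.S3.Hz
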