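import Pool.Agent.S3.Hz.B22b

/-!
# Height ranges at two inner vertices with two half twists, in boxes (generated)
-/

set_option autoImplicit false

namespace Pool.Agent.S3.Hz

open Pool.Agent.S3.NI Pool.Agent.S3.T2

theorem bb22b_16_lo : bb (test ⟨rng 37565 37567 100000, rng 79015 79016 100000, cst 34000 100000, false, 0⟩)
    [0, 2, 1, 0, 2, 1, 0, 0, 0, 1, 0, 1, 2, 0, 1, 0, 2]
    (rng 50000 67083 100000) (rng 70000 79687 100000) (rng 24868 36813 100000) one = true := by
  decide +kernel

theorem bb22b_16_hi : bb (test ⟨rng 37565 37567 100000, rng 79015 79016 100000, cst 40300 100000, false, 1⟩)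
    [0, 2, 1, 0, 2, 1, 0, 0, 0, 1, 0, 1, 2, 0, 1, 2, 0, 2]
    (rng 50000 67083 100000) (rng 70000 79687 100000) (rng 24868 36813 100000) one = true := by
  decide +kernel

/-- Height range `16`. -/
theorem h22b_16 {θ θ' : ℝ} {v w : ℂ}
    (H : H22b θ θ' v w (29 / 100) (2 / 25) (3 / 25) (49 / 100) (127 / 200) (1 / 4) (9 / 20)) :
    (17 / 50) * Real.tan θ ≤ Real.sinh (Real.pi * (yv v w).im) ∧
      Real.sinh (Real.pi * (yv v w).im) ≤ (403 / 1000) * Real.tan θ := by
  have mb := base_mem (a0 := (29 / 100)) (a := 37565) (b := 37567) (c := 79015) (d := 79016) (D := 100000)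
    (x1 := (6597339 / 10000000)) (x2 := (82467 / 125000)) (l := (1225813 / 2000000)) (u := (6129191 / 10000000))
    (by norm_num) (by norm_num) (by norm_num) (by norm_num) (by norm_num) (by norm_num) (by norm_num) (by norm_num)
    (by norm_num) (by norm_num) (by norm_num) (by norm_num) (by norm_num) (by norm_num)
  have mw := w_mem_sin (a := 24868) (b := 36813) (D := 100000) (x1 := (314159 / 1250000)) (x2 := (11781 / 31250)) (by norm_num) H.w1 H.w2
    (by norm_num) (by norm_num) (by norm_num) (by norm_num) (by norm_num) (by norm_num) (by norm_num) (by norm_num)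
  have e : ∀ n : ℕ, Mem ((n : ℝ) / (100000 : ℕ)) (cst n 100000) := fun n => mem_cst (by norm_num)
  have klo := (H.dat (kap := (34000 : ℕ) / (100000 : ℕ)) bb22b_16_lo rfl (by positivity) (by norm_num)
    (by norm_num) (by norm_num) (by norm_num) (by norm_num) (by norm_num) (by norm_num)
    (by norm_num) mb (e 34000) mw).lo rfl
  have khi := (H.dat (kap := (40300 : ℕ) / (100000 : ℕ)) bb22b_16_hi rfl (by positivity) (by norm_num)
    (by norm_num) (by norm_num) (by norm_num) (by norm_num) (by norm_num) (by norm_num)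
    (by norm_num) mb (e 40300) mw).hi rfl
  push_cast at klo khi
  constructor
  · linarith
  · linarith

theorem bb22b_17_lo : bb (test ⟨rng 37565 37567 100000, rng 79015 79016 100000, cst 35700 100000, false, 0⟩)
    [0, 2, 1, 0, 2, 1, 0, 0, 1, 0, 1, 0, 2, 1, 0, 2, 1, 2]
    (rng 67082 83067 100000) (rng 70000 79687 100000) (rng 24868 36813 100000) one = true := by
  decide +kernel

theorem bb22b_17_hi : bb (test ⟨rng 37565 37567 100000, rng 79015 79016 100000, cst 41000 100000, false, 1⟩)
    [0, 2, 1, 0, 2, 1, 0, 0, 1, 0, 1, 0, 2, 1, 0, 2, 1, 2]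
    (rng 67082 83067 100000) (rng 70000 79687 100000) (rng 24868 36813 100000) one = true := by
  decide +kernel

/-- Height range `17`. -/
theorem h22b_17 {θ θ' : ℝ} {v w : ℂ}
    (H : H22b θ θ' v w (29 / 100) (2 / 25) (3 / 25) (49 / 100) (127 / 200) (9 / 20) (69 / 100)) :
    (357 / 1000) * Real.tan θ ≤ Real.sinh (Real.pi * (yv v w).im) ∧
      Real.sinh (Real.pi * (yv v w).im) ≤ (41 / 100) * Real.tan θ := by
  have mb := base_mem (a0 := (29 / 100)) (a := 37565) (b := 37567) (c := 79015) (d := 79016) (D := 100000)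
    (x1 := (6597339 / 10000000)) (x2 := (82467 / 125000)) (l := (1225813 / 2000000)) (u := (6129191 / 10000000))
    (by norm_num) (by norm_num) (by norm_num) (by norm_num) (by norm_num) (by norm_num) (by norm_num) (by norm_num)
    (by norm_num) (by norm_num) (by norm_num) (by norm_num) (by norm_num) (by norm_num)
  have mw := w_mem_sin (a := 24868) (b := 36813) (D := 100000) (x1 := (314159 / 1250000)) (x2 := (11781 / 31250)) (by norm_num) H.w1 H.w2
    (by norm_num) (by norm_num) (by norm_num) (by norm_num) (by norm_num) (by norm_num) (by norm_num) (by norm_num)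
  have e : ∀ n : ℕ, Mem ((n : ℝ) / (100000 : ℕ)) (cst n 100000) := fun n => mem_cst (by norm_num)
  have klo := (H.dat (kap := (35700 : ℕ) / (100000 : ℕ)) bb22b_17_lo rfl (by positivity) (by norm_num)
    (by norm_num) (by norm_num) (by norm_num) (by norm_num) (by norm_num) (by norm_num)
    (by norm_num) mb (e 35700) mw).lo rfl
  have khi := (H.dat (kap := (41000 : ℕ) / (100000 : ℕ)) bb22b_17_hi rfl (by positivity) (by norm_num)
    (by norm_num) (by norm_num) (by norm_num) (by norm_num) (by norm_num) (by norm_num)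
    (by norm_num) mb (e 41000) mw).hi rfl
  push_cast at klo khi
  constructor
  · linarith
  · linarith

theorem bb22b_18_lo : bb (test ⟨rng 37565 37567 100000, rng 79015 79016 100000, cst 37200 100000, false, 0⟩)
    [0, 0, 2, 0, 1, 0, 0, 1, 0, 2, 1, 0, 1, 0]
    (rng 50000 64808 100000) (rng 79686 83067 100000) (rng 24868 30902 100000) one = true := by
  decide +kernel

theorem bb22b_18_hi : bb (test ⟨rng 37565 37567 100000, rng 79015 79016 100000, cst 40800 100000, false, 1⟩)
    [0, 0, 2, 0, 1, 2, 0, 0, 1, 0, 1, 0, 1, 0, 2]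
    (rng 50000 64808 100000) (rng 79686 83067 100000) (rng 24868 30902 100000) one = true := by
  decide +kernel

/-- Height range `18`. -/
theorem h22b_18 {θ θ' : ℝ} {v w : ℂ}
    (H : H22b θ θ' v w (29 / 100) (2 / 25) (1 / 10) (127 / 200) (69 / 100) (1 / 4) (21 / 50)) :
    (93 / 250) * Real.tan θ ≤ Real.sinh (Real.pi * (yv v w).im) ∧
      Real.sinh (Real.pi * (yv v w).im) ≤ (51 / 125) * Real.tan θ := by
  have mb := base_mem (a0 := (29 / 100)) (a := 37565) (b := 37567) (c := 79015) (d := 79016) (D := 100000)
    (x1 := (6597339 / 10000000)) (x2 := (82467 / 125000)) (l := (1225813 / 2000000)) (u := (6129191 / 10000000))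
    (by norm_num) (by norm_num) (by norm_num) (by norm_num) (by norm_num) (by norm_num) (by norm_num) (by norm_num)
    (by norm_num) (by norm_num) (by norm_num) (by norm_num) (by norm_num) (by norm_num)
  have mw := w_mem_sin (a := 24868) (b := 30902) (D := 100000) (x1 := (314159 / 1250000)) (x2 := (3927 / 12500)) (by norm_num) H.w1 H.w2
    (by norm_num) (by norm_num) (by norm_num) (by norm_num) (by norm_num) (by norm_num) (by norm_num) (by norm_num)
  have e : ∀ n : ℕ, Mem ((n : ℝ) / (100000 : ℕ)) (cst n 100000) := fun n => mem_cst (by norm_num)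
  have klo := (H.dat (kap := (37200 : ℕ) / (100000 : ℕ)) bb22b_18_lo rfl (by positivity) (by norm_num)
    (by norm_num) (by norm_num) (by norm_num) (by norm_num) (by norm_num) (by norm_num)
    (by norm_num) mb (e 37200) mw).lo rfl
  have khi := (H.dat (kap := (40800 : ℕ) / (100000 : ℕ)) bb22b_18_hi rfl (by positivity) (by norm_num)
    (by norm_num) (by norm_num) (by norm_num) (by norm_num) (by norm_num) (by norm_num)
    (by norm_num) mb (e 40800) mw).hi rfl
  push_cast at klo khi
  constructor
  · linarith
  · linarith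

theorem bb22b_19_lo : bb (test ⟨rng 37565 37567 100000, rng 79015 79016 100000, cst 38600 100000, false, 0⟩)
    [0, 0, 2, 1, 0, 2, 1, 0, 0, 0, 1, 0, 1, 2]
    (rng 64807 77460 100000) (rng 79686 83067 100000) (rng 24868 30902 100000) one = true := by
  decide +kernel

theorem bb22b_19_hi : bb (test ⟨rng 37565 37567 100000, rng 79015 79016 100000, cst 41500 100000, false, 1⟩)
    [0, 0, 2, 1, 0, 2, 1, 0, 0, 0, 1, 0, 2, 1]
    (rng 64807 77460 100000) (rng 79686 83067 100000) (rng 24868 30902 100000) one = true := by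
  decide +kernel

/-- Height range `19`. -/
theorem h22b_19 {θ θ' : ℝ} {v w : ℂ}
    (H : H22b θ θ' v w (29 / 100) (2 / 25) (1 / 10) (127 / 200) (69 / 100) (21 / 50) (3 / 5)) :
    (193 / 500) * Real.tan θ ≤ Real.sinh (Real.pi * (yv v w).im) ∧
      Real.sinh (Real.pi * (yv v w).im) ≤ (83 / 200) * Real.tan θ := by
  have mb := base_mem (a0 := (29 / 100)) (a := 37565) (b := 37567) (c := 79015) (d := 79016) (D := 100000)
    (x1 := (6597339 / 10000000)) (x2 := (82467 / 125000)) (l := (1225813 / 2000000)) (u := (6129191 / 10000000))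
    (by norm_num) (by norm_num) (by norm_num) (by norm_num) (by norm_num) (by norm_num) (by norm_num) (by norm_num)
    (by norm_num) (by norm_num) (by norm_num) (by norm_num) (by norm_num) (by norm_num)
  have mw := w_mem_sin (a := 24868) (b := 30902) (D := 100000) (x1 := (314159 / 1250000)) (x2 := (3927 / 12500)) (by norm_num) H.w1 H.w2
    (by norm_num) (by norm_num) (by norm_num) (by norm_num) (by norm_num) (by norm_num) (by norm_num) (by norm_num)
  have e : ∀ n : ℕ, Mem ((n : ℝ) / (100000 : ℕ)) (cst n 100000) := fun n => mem_cst (by norm_num)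
  have klo := (H.dat (kap := (38600 : ℕ) / (100000 : ℕ)) bb22b_19_lo rfl (by positivity) (by norm_num)
    (by norm_num) (by norm_num) (by norm_num) (by norm_num) (by norm_num) (by norm_num)
    (by norm_num) mb (e 38600) mw).lo rfl
  have khi := (H.dat (kap := (41500 : ℕ) / (100000 : ℕ)) bb22b_19_hi rfl (by positivity) (by norm_num)
    (by norm_num) (by norm_num) (by norm_num) (by norm_num) (by norm_num) (by norm_num)
    (by norm_num) mb (e 41500) mw).hi rfl
  push_cast at klo khi
  constructor
  · linarith
  · linarith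

theorem bb22b_20_lo : bb (test ⟨rng 37565 37567 100000, rng 79015 79016 100000, cst 37800 100000, false, 0⟩)
    [0, 2, 0, 1, 2, 0, 0, 1, 0, 1, 0, 1, 0, 2]
    (rng 50000 59161 100000) (rng 83066 87006 100000) (rng 24868 30902 100000) one = true := by
  decide +kernel

theorem bb22b_20_hi : bb (test ⟨rng 37565 37567 100000, rng 79015 79016 100000, cst 41100 100000, false, 1⟩)
    [0, 2, 0, 1, 2, 0, 0, 1, 0, 1, 0, 1, 0, 2]
    (rng 50000 59161 100000) (rng 83066 87006 100000) (rng 24868 30902 100000) one = true := by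
  decide +kernel

/-- Height range `20`. -/
theorem h22b_20 {θ θ' : ℝ} {v w : ℂ}
    (H : H22b θ θ' v w (29 / 100) (2 / 25) (1 / 10) (69 / 100) (757 / 1000) (1 / 4) (7 / 20)) :
    (189 / 500) * Real.tan θ ≤ Real.sinh (Real.pi * (yv v w).im) ∧
      Real.sinh (Real.pi * (yv v w).im) ≤ (411 / 1000) * Real.tan θ := by
  have mb := base_mem (a0 := (29 / 100)) (a := 37565) (b := 37567) (c := 79015) (d := 79016) (D := 100000)
    (x1 := (6597339 / 10000000)) (x2 := (82467 / 125000)) (l := (1225813 / 2000000)) (u := (6129191 / 10000000))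
    (by norm_num) (by norm_num) (by norm_num) (by norm_num) (by norm_num) (by norm_num) (by norm_num) (by norm_num)
    (by norm_num) (by norm_num) (by norm_num) (by norm_num) (by norm_num) (by norm_num)
  have mw := w_mem_sin (a := 24868) (b := 30902) (D := 100000) (x1 := (314159 / 1250000)) (x2 := (3927 / 12500)) (by norm_num) H.w1 H.w2
    (by norm_num) (by norm_num) (by norm_num) (by norm_num) (by norm_num) (by norm_num) (by norm_num) (by norm_num)
  have e : ∀ n : ℕ, Mem ((n : ℝ) / (100000 : ℕ)) (cst n 100000) := fun n => mem_cst (by norm_num)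
  have klo := (H.dat (kap := (37800 : ℕ) / (100000 : ℕ)) bb22b_20_lo rfl (by positivity) (by norm_num)
    (by norm_num) (by norm_num) (by norm_num) (by norm_num) (by norm_num) (by norm_num)
    (by norm_num) mb (e 37800) mw).lo rfl
  have khi := (H.dat (kap := (41100 : ℕ) / (100000 : ℕ)) bb22b_20_hi rfl (by positivity) (by norm_num)
    (by norm_num) (by norm_num) (by norm_num) (by norm_num) (by norm_num) (by norm_num)
    (by norm_num) mb (e 41100) mw).hi rfl
  push_cast at klo khi
  constructor
  · linarith
  · linarith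

theorem bb22b_21_lo : bb (test ⟨rng 37565 37567 100000, rng 79015 79016 100000, cst 38800 100000, false, 0⟩)
    [0, 2, 0, 1, 2, 0, 0, 1, 0, 1, 0, 1, 2, 0]
    (rng 59160 67083 100000) (rng 83066 87006 100000) (rng 24868 30902 100000) one = true := by
  decide +kernel

theorem bb22b_21_hi : bb (test ⟨rng 37565 37567 100000, rng 79015 79016 100000, cst 41700 100000, false, 1⟩)
    [0, 2, 0, 1, 2, 0, 0, 1, 0, 1, 0, 1, 2]
    (rng 59160 67083 100000) (rng 83066 87006 100000) (rng 24868 30902 100000) one = true := by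
  decide +kernel

/-- Height range `21`. -/
theorem h22b_21 {θ θ' : ℝ} {v w : ℂ}
    (H : H22b θ θ' v w (29 / 100) (2 / 25) (1 / 10) (69 / 100) (757 / 1000) (7 / 20) (9 / 20)) :
    (97 / 250) * Real.tan θ ≤ Real.sinh (Real.pi * (yv v w).im) ∧
      Real.sinh (Real.pi * (yv v w).im) ≤ (417 / 1000) * Real.tan θ := by
  have mb := base_mem (a0 := (29 / 100)) (a := 37565) (b := 37567) (c := 79015) (d := 79016) (D := 100000)
    (x1 := (6597339 / 10000000)) (x2 := (82467 / 125000)) (l := (1225813 / 2000000)) (u := (6129191 / 10000000))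
    (by norm_num) (by norm_num) (by norm_num) (by norm_num) (by norm_num) (by norm_num) (by norm_num) (by norm_num)
    (by norm_num) (by norm_num) (by norm_num) (by norm_num) (by norm_num) (by norm_num)
  have mw := w_mem_sin (a := 24868) (b := 30902) (D := 100000) (x1 := (314159 / 1250000)) (x2 := (3927 / 12500)) (by norm_num) H.w1 H.w2
    (by norm_num) (by norm_num) (by norm_num) (by norm_num) (by norm_num) (by norm_num) (by norm_num) (by norm_num)
  have e : ∀ n : ℕ, Mem ((n : ℝ) / (100000 : ℕ)) (cst n 100000) := fun n => mem_cst (by norm_num)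
  have klo := (H.dat (kap := (38800 : ℕ) / (100000 : ℕ)) bb22b_21_lo rfl (by positivity) (by norm_num)
    (by norm_num) (by norm_num) (by norm_num) (by norm_num) (by norm_num) (by norm_num)
    (by norm_num) mb (e 38800) mw).lo rfl
  have khi := (H.dat (kap := (41700 : ℕ) / (100000 : ℕ)) bb22b_21_hi rfl (by positivity) (by norm_num)
    (by norm_num) (by norm_num) (by norm_num) (by norm_num) (by norm_num) (by norm_num)
    (by norm_num) mb (e 41700) mw).hi rfl
  push_cast at klo khi
  constructor
  · linarith
  · linarith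

theorem bb22b_22_lo : bb (test ⟨rng 37565 37567 100000, rng 79015 79016 100000, cst 35700 100000, false, 0⟩)
    [0, 0, 2, 0, 1, 0, 0, 1, 0, 2, 1, 0, 1, 2]
    (rng 50000 64808 100000) (rng 79686 83067 100000) (rng 30901 36813 100000) one = true := by
  decide +kernel

theorem bb22b_22_hi : bb (test ⟨rng 37565 37567 100000, rng 79015 79016 100000, cst 39900 100000, false, 1⟩)
    [0, 0, 2, 0, 1, 0, 0, 1, 0, 2, 1, 0, 2, 1, 0]
    (rng 50000 64808 100000) (rng 79686 83067 100000) (rng 30901 36813 100000) one = true := by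
  decide +kernel

/-- Height range `22`. -/
theorem h22b_22 {θ θ' : ℝ} {v w : ℂ}
    (H : H22b θ θ' v w (29 / 100) (1 / 10) (3 / 25) (127 / 200) (69 / 100) (1 / 4) (21 / 50)) :
    (357 / 1000) * Real.tan θ ≤ Real.sinh (Real.pi * (yv v w).im) ∧
      Real.sinh (Real.pi * (yv v w).im) ≤ (399 / 1000) * Real.tan θ := by
  have mb := base_mem (a0 := (29 / 100)) (a := 37565) (b := 37567) (c := 79015) (d := 79016) (D := 100000)
    (x1 := (6597339 / 10000000)) (x2 := (82467 / 125000)) (l := (1225813 / 2000000)) (u := (6129191 / 10000000))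
    (by norm_num) (by norm_num) (by norm_num) (by norm_num) (by norm_num) (by norm_num) (by norm_num) (by norm_num)
    (by norm_num) (by norm_num) (by norm_num) (by norm_num) (by norm_num) (by norm_num)
  have mw := w_mem_sin (a := 30901) (b := 36813) (D := 100000) (x1 := (314159 / 1000000)) (x2 := (11781 / 31250)) (by norm_num) H.w1 H.w2
    (by norm_num) (by norm_num) (by norm_num) (by norm_num) (by norm_num) (by norm_num) (by norm_num) (by norm_num)
  have e : ∀ n : ℕ, Mem ((n : ℝ) / (100000 : ℕ)) (cst n 100000) := fun n => mem_cst (by norm_num)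
  have klo := (H.dat (kap := (35700 : ℕ) / (100000 : ℕ)) bb22b_22_lo rfl (by positivity) (by norm_num)
    (by norm_num) (by norm_num) (by norm_num) (by norm_num) (by norm_num) (by norm_num)
    (by norm_num) mb (e 35700) mw).lo rfl
  have khi := (H.dat (kap := (39900 : ℕ) / (100000 : ℕ)) bb22b_22_hi rfl (by positivity) (by norm_num)
    (by norm_num) (by norm_num) (by norm_num) (by norm_num) (by norm_num) (by norm_num)
    (by norm_num) mb (e 39900) mw).hi rfl
  push_cast at klo khi
  constructor
  · linarith
  · linarith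

theorem bb22b_23_lo : bb (test ⟨rng 37565 37567 100000, rng 79015 79016 100000, cst 37500 100000, false, 0⟩)
    [0, 0, 2, 1, 0, 2, 0, 0, 1, 0, 1, 2, 0, 1, 2]
    (rng 64807 77460 100000) (rng 79686 83067 100000) (rng 30901 36813 100000) one = true := by
  decide +kernel

theorem bb22b_23_hi : bb (test ⟨rng 37565 37567 100000, rng 79015 79016 100000, cst 40800 100000, false, 1⟩)
    [0, 0, 2, 1, 0, 2, 0, 0, 1, 0, 1, 0, 2, 1, 2]
    (rng 64807 77460 100000) (rng 79686 83067 100000) (rng 30901 36813 100000) one = true := by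
  decide +kernel

/-- Height range `23`. -/
theorem h22b_23 {θ θ' : ℝ} {v w : ℂ}
    (H : H22b θ θ' v w (29 / 100) (1 / 10) (3 / 25) (127 / 200) (69 / 100) (21 / 50) (3 / 5)) :
    (3 / 8) * Real.tan θ ≤ Real.sinh (Real.pi * (yv v w).im) ∧
      Real.sinh (Real.pi * (yv v w).im) ≤ (51 / 125) * Real.tan θ := by
  have mb := base_mem (a0 := (29 / 100)) (a := 37565) (b := 37567) (c := 79015) (d := 79016) (D := 100000)
    (x1 := (6597339 / 10000000)) (x2 := (82467 / 125000)) (l := (1225813 / 2000000)) (u := (6129191 / 10000000))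
    (by norm_num) (by norm_num) (by norm_num) (by norm_num) (by norm_num) (by norm_num) (by norm_num) (by norm_num)
    (by norm_num) (by norm_num) (by norm_num) (by norm_num) (by norm_num) (by norm_num)
  have mw := w_mem_sin (a := 30901) (b := 36813) (D := 100000) (x1 := (314159 / 1000000)) (x2 := (11781 / 31250)) (by norm_num) H.w1 H.w2
    (by norm_num) (by norm_num) (by norm_num) (by norm_num) (by norm_num) (by norm_num) (by norm_num) (by norm_num)
  have e : ∀ n : ℕ, Mem ((n : ℝ) / (100000 : ℕ)) (cst n 100000) := fun n => mem_cst (by norm_num)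
  have klo := (H.dat (kap := (37500 : ℕ) / (100000 : ℕ)) bb22b_23_lo rfl (by positivity) (by norm_num)
    (by norm_num) (by norm_num) (by norm_num) (by norm_num) (by norm_num) (by norm_num)
    (by norm_num) mb (e 37500) mw).lo rfl
  have khi := (H.dat (kap := (40800 : ℕ) / (100000 : ℕ)) bb22b_23_hi rfl (by positivity) (by norm_num)
    (by norm_num) (by norm_num) (by norm_num) (by norm_num) (by norm_num) (by norm_num)
    (by norm_num) mb (e 40800) mw).hi rfl
  push_cast at klo khi
  constructor
  · linarith
  · linarith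

end Pool.Agent.S3.Hz
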