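import Pool.Agent.S3.Hz.B22b

/-!
# Height ranges at two inner vertices with two half twists, in boxes (generated)
-/

set_option autoImplicit false

namespace Pool.Agent.S3.Hz

open Pool.Agent.S3.NI Pool.Agent.S3.T2

theorem bb22b_24_lo : bb (test ⟨rng 37565 37567 100000, rng 79015 79016 100000, cst 36400 100000, false, 0⟩)
    [0, 2, 0, 1, 2, 0, 0, 1, 0, 1, 0, 1, 0, 2]
    (rng 50000 59161 100000) (rng 83066 87006 100000) (rng 30901 36813 100000) one = true := by
  decide +kernel

theorem bb22b_24_hi : bb (test ⟨rng 37565 37567 100000, rng 79015 79016 100000, cst 40200 100000, false, 1⟩)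
    [0, 2, 0, 1, 2, 0, 0, 1, 0, 1, 0, 1, 0, 2]
    (rng 50000 59161 100000) (rng 83066 87006 100000) (rng 30901 36813 100000) one = true := by
  decide +kernel

/-- Height range `24`. -/
theorem h22b_24 {θ θ' : ℝ} {v w : ℂ}
    (H : H22b θ θ' v w (29 / 100) (1 / 10) (3 / 25) (69 / 100) (757 / 1000) (1 / 4) (7 / 20)) :
    (91 / 250) * Real.tan θ ≤ Real.sinh (Real.pi * (yv v w).im) ∧
      Real.sinh (Real.pi * (yv v w).im) ≤ (201 / 500) * Real.tan θ := by
  have mb := base_mem (a0 := (29 / 100)) (a := 37565) (b := 37567) (c := 79015) (d := 79016) (D := 100000)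
    (x1 := (6597339 / 10000000)) (x2 := (82467 / 125000)) (l := (1225813 / 2000000)) (u := (6129191 / 10000000))
    (by norm_num) (by norm_num) (by norm_num) (by norm_num) (by norm_num) (by norm_num) (by norm_num) (by norm_num)
    (by norm_num) (by norm_num) (by norm_num) (by norm_num) (by norm_num) (by norm_num)
  have mw := w_mem_sin (a := 30901) (b := 36813) (D := 100000) (x1 := (314159 / 1000000)) (x2 := (11781 / 31250)) (by norm_num) H.w1 H.w2
    (by norm_num) (by norm_num) (by norm_num) (by norm_num) (by norm_num) (by norm_num) (by norm_num) (by norm_num)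
  have e : ∀ n : ℕ, Mem ((n : ℝ) / (100000 : ℕ)) (cst n 100000) := fun n => mem_cst (by norm_num)
  have klo := (H.dat (kap := (36400 : ℕ) / (100000 : ℕ)) bb22b_24_lo rfl (by positivity) (by norm_num)
    (by norm_num) (by norm_num) (by norm_num) (by norm_num) (by norm_num) (by norm_num)
    (by norm_num) mb (e 36400) mw).lo rfl
  have khi := (H.dat (kap := (40200 : ℕ) / (100000 : ℕ)) bb22b_24_hi rfl (by positivity) (by norm_num)
    (by norm_num) (by norm_num) (by norm_num) (by norm_num) (by norm_num) (by norm_num)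
    (by norm_num) mb (e 40200) mw).hi rfl
  push_cast at klo khi
  constructor
  · linarith
  · linarith

theorem bb22b_25_lo : bb (test ⟨rng 37565 37567 100000, rng 79015 79016 100000, cst 37600 100000, false, 0⟩)
    [0, 2, 0, 1, 2, 0, 0, 1, 0, 1, 0, 1, 2, 0]
    (rng 59160 67083 100000) (rng 83066 87006 100000) (rng 30901 36813 100000) one = true := by
  decide +kernel

theorem bb22b_25_hi : bb (test ⟨rng 37565 37567 100000, rng 79015 79016 100000, cst 40900 100000, false, 1⟩)
    [0, 2, 0, 1, 2, 0, 0, 1, 0, 1, 0, 1, 2, 2]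
    (rng 59160 67083 100000) (rng 83066 87006 100000) (rng 30901 36813 100000) one = true := by
  decide +kernel

/-- Height range `25`. -/
theorem h22b_25 {θ θ' : ℝ} {v w : ℂ}
    (H : H22b θ θ' v w (29 / 100) (1 / 10) (3 / 25) (69 / 100) (757 / 1000) (7 / 20) (9 / 20)) :
    (47 / 125) * Real.tan θ ≤ Real.sinh (Real.pi * (yv v w).im) ∧
      Real.sinh (Real.pi * (yv v w).im) ≤ (409 / 1000) * Real.tan θ := by
  have mb := base_mem (a0 := (29 / 100)) (a := 37565) (b := 37567) (c := 79015) (d := 79016) (D := 100000)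
    (x1 := (6597339 / 10000000)) (x2 := (82467 / 125000)) (l := (1225813 / 2000000)) (u := (6129191 / 10000000))
    (by norm_num) (by norm_num) (by norm_num) (by norm_num) (by norm_num) (by norm_num) (by norm_num) (by norm_num)
    (by norm_num) (by norm_num) (by norm_num) (by norm_num) (by norm_num) (by norm_num)
  have mw := w_mem_sin (a := 30901) (b := 36813) (D := 100000) (x1 := (314159 / 1000000)) (x2 := (11781 / 31250)) (by norm_num) H.w1 H.w2
    (by norm_num) (by norm_num) (by norm_num) (by norm_num) (by norm_num) (by norm_num) (by norm_num) (by norm_num)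
  have e : ∀ n : ℕ, Mem ((n : ℝ) / (100000 : ℕ)) (cst n 100000) := fun n => mem_cst (by norm_num)
  have klo := (H.dat (kap := (37600 : ℕ) / (100000 : ℕ)) bb22b_25_lo rfl (by positivity) (by norm_num)
    (by norm_num) (by norm_num) (by norm_num) (by norm_num) (by norm_num) (by norm_num)
    (by norm_num) mb (e 37600) mw).lo rfl
  have khi := (H.dat (kap := (40900 : ℕ) / (100000 : ℕ)) bb22b_25_hi rfl (by positivity) (by norm_num)
    (by norm_num) (by norm_num) (by norm_num) (by norm_num) (by norm_num) (by norm_num)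
    (by norm_num) mb (e 40900) mw).hi rfl
  push_cast at klo khi
  constructor
  · linarith
  · linarith

theorem bb22b_26_lo : bb (test ⟨rng 36050 36052 100000, rng 79968 79969 100000, cst 27600 100000, false, 0⟩)
    [0, 1, 0, 2, 1, 0, 0, 1, 0, 2, 0, 1, 0, 1, 2, 0, 1, 0, 2]
    (rng 50000 87006 100000) (rng 50000 70000 100000) (rng 36812 48176 100000) one = true := by
  decide +kernel

theorem bb22b_26_hi : bb (test ⟨rng 36050 36052 100000, rng 79968 79969 100000, cst 37800 100000, false, 1⟩)
    [0, 1, 0, 2, 1, 0, 0, 0, 1, 1, 0, 2, 1, 0, 2, 1, 0, 2, 1, 0]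
    (rng 50000 87006 100000) (rng 50000 70000 100000) (rng 36812 48176 100000) one = true := by
  decide +kernel

/-- Height range `26`. -/
theorem h22b_26 {θ θ' : ℝ} {v w : ℂ}
    (H : H22b θ θ' v w (59 / 200) (3 / 25) (4 / 25) (1 / 4) (49 / 100) (1 / 4) (757 / 1000)) :
    (69 / 250) * Real.tan θ ≤ Real.sinh (Real.pi * (yv v w).im) ∧
      Real.sinh (Real.pi * (yv v w).im) ≤ (189 / 500) * Real.tan θ := by
  have mb := base_mem (a0 := (59 / 200)) (a := 36050) (b := 36052) (c := 79968) (d := 79969) (D := 100000)
    (x1 := (6440259 / 10000000)) (x2 := (161007 / 250000)) (l := (1501049 / 2500000)) (u := (1200861 / 2000000))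
    (by norm_num) (by norm_num) (by norm_num) (by norm_num) (by norm_num) (by norm_num) (by norm_num) (by norm_num)
    (by norm_num) (by norm_num) (by norm_num) (by norm_num) (by norm_num) (by norm_num)
  have mw := w_mem_sin (a := 36812) (b := 48176) (D := 100000) (x1 := (942477 / 2500000)) (x2 := (7854 / 15625)) (by norm_num) H.w1 H.w2
    (by norm_num) (by norm_num) (by norm_num) (by norm_num) (by norm_num) (by norm_num) (by norm_num) (by norm_num)
  have e : ∀ n : ℕ, Mem ((n : ℝ) / (100000 : ℕ)) (cst n 100000) := fun n => mem_cst (by norm_num)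
  have klo := (H.dat (kap := (27600 : ℕ) / (100000 : ℕ)) bb22b_26_lo rfl (by positivity) (by norm_num)
    (by norm_num) (by norm_num) (by norm_num) (by norm_num) (by norm_num) (by norm_num)
    (by norm_num) mb (e 27600) mw).lo rfl
  have khi := (H.dat (kap := (37800 : ℕ) / (100000 : ℕ)) bb22b_26_hi rfl (by positivity) (by norm_num)
    (by norm_num) (by norm_num) (by norm_num) (by norm_num) (by norm_num) (by norm_num)
    (by norm_num) mb (e 37800) mw).hi rfl
  push_cast at klo khi
  constructor
  · linarith
  · linarith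

theorem bb22b_27_lo : bb (test ⟨rng 36050 36052 100000, rng 79968 79969 100000, cst 30700 100000, false, 0⟩)
    [0, 0, 2, 1, 0, 0, 1, 0, 1, 0, 2, 0, 2, 1, 0, 1, 2, 1, 2]
    (rng 50000 83067 100000) (rng 70000 79687 100000) (rng 36812 48176 100000) one = true := by
  decide +kernel

theorem bb22b_27_hi : bb (test ⟨rng 36050 36052 100000, rng 79968 79969 100000, cst 39900 100000, false, 1⟩)
    [0, 0, 2, 1, 0, 2, 0, 0, 1, 1, 0, 1, 0, 2, 1, 0, 2, 1, 2]
    (rng 50000 83067 100000) (rng 70000 79687 100000) (rng 36812 48176 100000) one = true := by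
  decide +kernel

/-- Height range `27`. -/
theorem h22b_27 {θ θ' : ℝ} {v w : ℂ}
    (H : H22b θ θ' v w (59 / 200) (3 / 25) (4 / 25) (49 / 100) (127 / 200) (1 / 4) (69 / 100)) :
    (307 / 1000) * Real.tan θ ≤ Real.sinh (Real.pi * (yv v w).im) ∧
      Real.sinh (Real.pi * (yv v w).im) ≤ (399 / 1000) * Real.tan θ := by
  have mb := base_mem (a0 := (59 / 200)) (a := 36050) (b := 36052) (c := 79968) (d := 79969) (D := 100000)
    (x1 := (6440259 / 10000000)) (x2 := (161007 / 250000)) (l := (1501049 / 2500000)) (u := (1200861 / 2000000))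
    (by norm_num) (by norm_num) (by norm_num) (by norm_num) (by norm_num) (by norm_num) (by norm_num) (by norm_num)
    (by norm_num) (by norm_num) (by norm_num) (by norm_num) (by norm_num) (by norm_num)
  have mw := w_mem_sin (a := 36812) (b := 48176) (D := 100000) (x1 := (942477 / 2500000)) (x2 := (7854 / 15625)) (by norm_num) H.w1 H.w2
    (by norm_num) (by norm_num) (by norm_num) (by norm_num) (by norm_num) (by norm_num) (by norm_num) (by norm_num)
  have e : ∀ n : ℕ, Mem ((n : ℝ) / (100000 : ℕ)) (cst n 100000) := fun n => mem_cst (by norm_num)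
  have klo := (H.dat (kap := (30700 : ℕ) / (100000 : ℕ)) bb22b_27_lo rfl (by positivity) (by norm_num)
    (by norm_num) (by norm_num) (by norm_num) (by norm_num) (by norm_num) (by norm_num)
    (by norm_num) mb (e 30700) mw).lo rfl
  have khi := (H.dat (kap := (39900 : ℕ) / (100000 : ℕ)) bb22b_27_hi rfl (by positivity) (by norm_num)
    (by norm_num) (by norm_num) (by norm_num) (by norm_num) (by norm_num) (by norm_num)
    (by norm_num) mb (e 39900) mw).hi rfl
  push_cast at klo khi
  constructor
  · linarith
  · linarith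

theorem bb22b_28_lo : bb (test ⟨rng 36050 36052 100000, rng 79968 79969 100000, cst 34500 100000, false, 0⟩)
    [0, 0, 2, 0, 1, 0, 0, 1, 0, 2, 1, 0, 1, 0]
    (rng 50000 64808 100000) (rng 79686 83067 100000) (rng 36812 42579 100000) one = true := by
  decide +kernel

theorem bb22b_28_hi : bb (test ⟨rng 36050 36052 100000, rng 79968 79969 100000, cst 39200 100000, false, 1⟩)
    [0, 0, 2, 0, 1, 0, 0, 1, 0, 2, 1, 0, 2, 1]
    (rng 50000 64808 100000) (rng 79686 83067 100000) (rng 36812 42579 100000) one = true := by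
  decide +kernel

/-- Height range `28`. -/
theorem h22b_28 {θ θ' : ℝ} {v w : ℂ}
    (H : H22b θ θ' v w (59 / 200) (3 / 25) (7 / 50) (127 / 200) (69 / 100) (1 / 4) (21 / 50)) :
    (69 / 200) * Real.tan θ ≤ Real.sinh (Real.pi * (yv v w).im) ∧
      Real.sinh (Real.pi * (yv v w).im) ≤ (49 / 125) * Real.tan θ := by
  have mb := base_mem (a0 := (59 / 200)) (a := 36050) (b := 36052) (c := 79968) (d := 79969) (D := 100000)
    (x1 := (6440259 / 10000000)) (x2 := (161007 / 250000)) (l := (1501049 / 2500000)) (u := (1200861 / 2000000))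
    (by norm_num) (by norm_num) (by norm_num) (by norm_num) (by norm_num) (by norm_num) (by norm_num) (by norm_num)
    (by norm_num) (by norm_num) (by norm_num) (by norm_num) (by norm_num) (by norm_num)
  have mw := w_mem_sin (a := 36812) (b := 42579) (D := 100000) (x1 := (942477 / 2500000)) (x2 := (27489 / 62500)) (by norm_num) H.w1 H.w2
    (by norm_num) (by norm_num) (by norm_num) (by norm_num) (by norm_num) (by norm_num) (by norm_num) (by norm_num)
  have e : ∀ n : ℕ, Mem ((n : ℝ) / (100000 : ℕ)) (cst n 100000) := fun n => mem_cst (by norm_num)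
  have klo := (H.dat (kap := (34500 : ℕ) / (100000 : ℕ)) bb22b_28_lo rfl (by positivity) (by norm_num)
    (by norm_num) (by norm_num) (by norm_num) (by norm_num) (by norm_num) (by norm_num)
    (by norm_num) mb (e 34500) mw).lo rfl
  have khi := (H.dat (kap := (39200 : ℕ) / (100000 : ℕ)) bb22b_28_hi rfl (by positivity) (by norm_num)
    (by norm_num) (by norm_num) (by norm_num) (by norm_num) (by norm_num) (by norm_num)
    (by norm_num) mb (e 39200) mw).hi rfl
  push_cast at klo khi
  constructor
  · linarith
  · linarith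

theorem bb22b_29_lo : bb (test ⟨rng 36050 36052 100000, rng 79968 79969 100000, cst 36500 100000, false, 0⟩)
    [0, 0, 2, 1, 0, 0, 0, 1, 2, 0, 1, 2, 0, 1]
    (rng 64807 77460 100000) (rng 79686 83067 100000) (rng 36812 42579 100000) one = true := by
  decide +kernel

theorem bb22b_29_hi : bb (test ⟨rng 36050 36052 100000, rng 79968 79969 100000, cst 40300 100000, false, 1⟩)
    [0, 0, 2, 1, 0, 2, 0, 0, 1, 0, 1, 0, 2, 1]
    (rng 64807 77460 100000) (rng 79686 83067 100000) (rng 36812 42579 100000) one = true := by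
  decide +kernel

/-- Height range `29`. -/
theorem h22b_29 {θ θ' : ℝ} {v w : ℂ}
    (H : H22b θ θ' v w (59 / 200) (3 / 25) (7 / 50) (127 / 200) (69 / 100) (21 / 50) (3 / 5)) :
    (73 / 200) * Real.tan θ ≤ Real.sinh (Real.pi * (yv v w).im) ∧
      Real.sinh (Real.pi * (yv v w).im) ≤ (403 / 1000) * Real.tan θ := by
  have mb := base_mem (a0 := (59 / 200)) (a := 36050) (b := 36052) (c := 79968) (d := 79969) (D := 100000)
    (x1 := (6440259 / 10000000)) (x2 := (161007 / 250000)) (l := (1501049 / 2500000)) (u := (1200861 / 2000000))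
    (by norm_num) (by norm_num) (by norm_num) (by norm_num) (by norm_num) (by norm_num) (by norm_num) (by norm_num)
    (by norm_num) (by norm_num) (by norm_num) (by norm_num) (by norm_num) (by norm_num)
  have mw := w_mem_sin (a := 36812) (b := 42579) (D := 100000) (x1 := (942477 / 2500000)) (x2 := (27489 / 62500)) (by norm_num) H.w1 H.w2
    (by norm_num) (by norm_num) (by norm_num) (by norm_num) (by norm_num) (by norm_num) (by norm_num) (by norm_num)
  have e : ∀ n : ℕ, Mem ((n : ℝ) / (100000 : ℕ)) (cst n 100000) := fun n => mem_cst (by norm_num)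
  have klo := (H.dat (kap := (36500 : ℕ) / (100000 : ℕ)) bb22b_29_lo rfl (by positivity) (by norm_num)
    (by norm_num) (by norm_num) (by norm_num) (by norm_num) (by norm_num) (by norm_num)
    (by norm_num) mb (e 36500) mw).lo rfl
  have khi := (H.dat (kap := (40300 : ℕ) / (100000 : ℕ)) bb22b_29_hi rfl (by positivity) (by norm_num)
    (by norm_num) (by norm_num) (by norm_num) (by norm_num) (by norm_num) (by norm_num)
    (by norm_num) mb (e 40300) mw).hi rfl
  push_cast at klo khi
  constructor
  · linarith
  · linarith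

theorem bb22b_30_lo : bb (test ⟨rng 36050 36052 100000, rng 79968 79969 100000, cst 35200 100000, false, 0⟩)
    [0, 2, 0, 1, 2, 0, 0, 1, 0, 1, 0, 2, 1, 0, 2]
    (rng 50000 59161 100000) (rng 83066 87006 100000) (rng 36812 42579 100000) one = true := by
  decide +kernel

theorem bb22b_30_hi : bb (test ⟨rng 36050 36052 100000, rng 79968 79969 100000, cst 39300 100000, false, 1⟩)
    [0, 2, 0, 1, 2, 0, 0, 1, 0, 1, 0, 1, 0, 2]
    (rng 50000 59161 100000) (rng 83066 87006 100000) (rng 36812 42579 100000) one = true := by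
  decide +kernel

/-- Height range `30`. -/
theorem h22b_30 {θ θ' : ℝ} {v w : ℂ}
    (H : H22b θ θ' v w (59 / 200) (3 / 25) (7 / 50) (69 / 100) (757 / 1000) (1 / 4) (7 / 20)) :
    (44 / 125) * Real.tan θ ≤ Real.sinh (Real.pi * (yv v w).im) ∧
      Real.sinh (Real.pi * (yv v w).im) ≤ (393 / 1000) * Real.tan θ := by
  have mb := base_mem (a0 := (59 / 200)) (a := 36050) (b := 36052) (c := 79968) (d := 79969) (D := 100000)
    (x1 := (6440259 / 10000000)) (x2 := (161007 / 250000)) (l := (1501049 / 2500000)) (u := (1200861 / 2000000))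
    (by norm_num) (by norm_num) (by norm_num) (by norm_num) (by norm_num) (by norm_num) (by norm_num) (by norm_num)
    (by norm_num) (by norm_num) (by norm_num) (by norm_num) (by norm_num) (by norm_num)
  have mw := w_mem_sin (a := 36812) (b := 42579) (D := 100000) (x1 := (942477 / 2500000)) (x2 := (27489 / 62500)) (by norm_num) H.w1 H.w2
    (by norm_num) (by norm_num) (by norm_num) (by norm_num) (by norm_num) (by norm_num) (by norm_num) (by norm_num)
  have e : ∀ n : ℕ, Mem ((n : ℝ) / (100000 : ℕ)) (cst n 100000) := fun n => mem_cst (by norm_num)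
  have klo := (H.dat (kap := (35200 : ℕ) / (100000 : ℕ)) bb22b_30_lo rfl (by positivity) (by norm_num)
    (by norm_num) (by norm_num) (by norm_num) (by norm_num) (by norm_num) (by norm_num)
    (by norm_num) mb (e 35200) mw).lo rfl
  have khi := (H.dat (kap := (39300 : ℕ) / (100000 : ℕ)) bb22b_30_hi rfl (by positivity) (by norm_num)
    (by norm_num) (by norm_num) (by norm_num) (by norm_num) (by norm_num) (by norm_num)
    (by norm_num) mb (e 39300) mw).hi rfl
  push_cast at klo khi
  constructor
  · linarith
  · linarith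

theorem bb22b_31_lo : bb (test ⟨rng 36050 36052 100000, rng 79968 79969 100000, cst 36600 100000, false, 0⟩)
    [0, 2, 0, 1, 2, 0, 0, 1, 0, 1, 0, 2, 1, 0]
    (rng 59160 67083 100000) (rng 83066 87006 100000) (rng 36812 42579 100000) one = true := by
  decide +kernel

theorem bb22b_31_hi : bb (test ⟨rng 36050 36052 100000, rng 79968 79969 100000, cst 40200 100000, false, 1⟩)
    [0, 2, 0, 1, 2, 0, 0, 1, 0, 1, 0, 1, 2, 2]
    (rng 59160 67083 100000) (rng 83066 87006 100000) (rng 36812 42579 100000) one = true := by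
  decide +kernel

/-- Height range `31`. -/
theorem h22b_31 {θ θ' : ℝ} {v w : ℂ}
    (H : H22b θ θ' v w (59 / 200) (3 / 25) (7 / 50) (69 / 100) (757 / 1000) (7 / 20) (9 / 20)) :
    (183 / 500) * Real.tan θ ≤ Real.sinh (Real.pi * (yv v w).im) ∧
      Real.sinh (Real.pi * (yv v w).im) ≤ (201 / 500) * Real.tan θ := by
  have mb := base_mem (a0 := (59 / 200)) (a := 36050) (b := 36052) (c := 79968) (d := 79969) (D := 100000)
    (x1 := (6440259 / 10000000)) (x2 := (161007 / 250000)) (l := (1501049 / 2500000)) (u := (1200861 / 2000000))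
    (by norm_num) (by norm_num) (by norm_num) (by norm_num) (by norm_num) (by norm_num) (by norm_num) (by norm_num)
    (by norm_num) (by norm_num) (by norm_num) (by norm_num) (by norm_num) (by norm_num)
  have mw := w_mem_sin (a := 36812) (b := 42579) (D := 100000) (x1 := (942477 / 2500000)) (x2 := (27489 / 62500)) (by norm_num) H.w1 H.w2
    (by norm_num) (by norm_num) (by norm_num) (by norm_num) (by norm_num) (by norm_num) (by norm_num) (by norm_num)
  have e : ∀ n : ℕ, Mem ((n : ℝ) / (100000 : ℕ)) (cst n 100000) := fun n => mem_cst (by norm_num)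
  have klo := (H.dat (kap := (36600 : ℕ) / (100000 : ℕ)) bb22b_31_lo rfl (by positivity) (by norm_num)
    (by norm_num) (by norm_num) (by norm_num) (by norm_num) (by norm_num) (by norm_num)
    (by norm_num) mb (e 36600) mw).lo rfl
  have khi := (H.dat (kap := (40200 : ℕ) / (100000 : ℕ)) bb22b_31_hi rfl (by positivity) (by norm_num)
    (by norm_num) (by norm_num) (by norm_num) (by norm_num) (by norm_num) (by norm_num)
    (by norm_num) mb (e 40200) mw).hi rfl
  push_cast at klo khi
  constructor
  · linarith
  · linarith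

end Pool.Agent.S3.Hz
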