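import Pool.Agent.S3.Hz.B22b

/-!
# Height ranges at two inner vertices with two half twists, in boxes (generated)
-/

set_option autoImplicit false

namespace Pool.Agent.S3.Hz

open Pool.Agent.S3.NI Pool.Agent.S3.T2

theorem bb22b_32_lo : bb (test ⟨rng 36050 36052 100000, rng 79968 79969 100000, cst 32600 100000, false, 0⟩)
    [0, 0, 2, 0, 0, 1, 0, 1, 2, 0, 1, 0, 1, 2]
    (rng 50000 64808 100000) (rng 79686 83067 100000) (rng 42577 48176 100000) one = true := by
  decide +kernel

theorem bb22b_32_hi : bb (test ⟨rng 36050 36052 100000, rng 79968 79969 100000, cst 38000 100000, false, 1⟩)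
    [0, 0, 2, 0, 1, 0, 0, 1, 0, 2, 1, 0, 2, 1, 2]
    (rng 50000 64808 100000) (rng 79686 83067 100000) (rng 42577 48176 100000) one = true := by
  decide +kernel

/-- Height range `32`. -/
theorem h22b_32 {θ θ' : ℝ} {v w : ℂ}
    (H : H22b θ θ' v w (59 / 200) (7 / 50) (4 / 25) (127 / 200) (69 / 100) (1 / 4) (21 / 50)) :
    (163 / 500) * Real.tan θ ≤ Real.sinh (Real.pi * (yv v w).im) ∧
      Real.sinh (Real.pi * (yv v w).im) ≤ (19 / 50) * Real.tan θ := by
  have mb := base_mem (a0 := (59 / 200)) (a := 36050) (b := 36052) (c := 79968) (d := 79969) (D := 100000)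
    (x1 := (6440259 / 10000000)) (x2 := (161007 / 250000)) (l := (1501049 / 2500000)) (u := (1200861 / 2000000))
    (by norm_num) (by norm_num) (by norm_num) (by norm_num) (by norm_num) (by norm_num) (by norm_num) (by norm_num)
    (by norm_num) (by norm_num) (by norm_num) (by norm_num) (by norm_num) (by norm_num)
  have mw := w_mem_sin (a := 42577) (b := 48176) (D := 100000) (x1 := (2199113 / 5000000)) (x2 := (7854 / 15625)) (by norm_num) H.w1 H.w2
    (by norm_num) (by norm_num) (by norm_num) (by norm_num) (by norm_num) (by norm_num) (by norm_num) (by norm_num)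
  have e : ∀ n : ℕ, Mem ((n : ℝ) / (100000 : ℕ)) (cst n 100000) := fun n => mem_cst (by norm_num)
  have klo := (H.dat (kap := (32600 : ℕ) / (100000 : ℕ)) bb22b_32_lo rfl (by positivity) (by norm_num)
    (by norm_num) (by norm_num) (by norm_num) (by norm_num) (by norm_num) (by norm_num)
    (by norm_num) mb (e 32600) mw).lo rfl
  have khi := (H.dat (kap := (38000 : ℕ) / (100000 : ℕ)) bb22b_32_hi rfl (by positivity) (by norm_num)
    (by norm_num) (by norm_num) (by norm_num) (by norm_num) (by norm_num) (by norm_num)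
    (by norm_num) mb (e 38000) mw).hi rfl
  push_cast at klo khi
  constructor
  · linarith
  · linarith

theorem bb22b_33_lo : bb (test ⟨rng 36050 36052 100000, rng 79968 79969 100000, cst 35000 100000, false, 0⟩)
    [0, 0, 2, 1, 0, 0, 1, 0, 2, 0, 1, 2, 1, 0, 2]
    (rng 64807 77460 100000) (rng 79686 83067 100000) (rng 42577 48176 100000) one = true := by
  decide +kernel

theorem bb22b_33_hi : bb (test ⟨rng 36050 36052 100000, rng 79968 79969 100000, cst 39300 100000, false, 1⟩)
    [0, 0, 2, 1, 0, 0, 0, 1, 2, 0, 1, 2, 1, 0, 1]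
    (rng 64807 77460 100000) (rng 79686 83067 100000) (rng 42577 48176 100000) one = true := by
  decide +kernel

/-- Height range `33`. -/
theorem h22b_33 {θ θ' : ℝ} {v w : ℂ}
    (H : H22b θ θ' v w (59 / 200) (7 / 50) (4 / 25) (127 / 200) (69 / 100) (21 / 50) (3 / 5)) :
    (7 / 20) * Real.tan θ ≤ Real.sinh (Real.pi * (yv v w).im) ∧
      Real.sinh (Real.pi * (yv v w).im) ≤ (393 / 1000) * Real.tan θ := by
  have mb := base_mem (a0 := (59 / 200)) (a := 36050) (b := 36052) (c := 79968) (d := 79969) (D := 100000)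
    (x1 := (6440259 / 10000000)) (x2 := (161007 / 250000)) (l := (1501049 / 2500000)) (u := (1200861 / 2000000))
    (by norm_num) (by norm_num) (by norm_num) (by norm_num) (by norm_num) (by norm_num) (by norm_num) (by norm_num)
    (by norm_num) (by norm_num) (by norm_num) (by norm_num) (by norm_num) (by norm_num)
  have mw := w_mem_sin (a := 42577) (b := 48176) (D := 100000) (x1 := (2199113 / 5000000)) (x2 := (7854 / 15625)) (by norm_num) H.w1 H.w2
    (by norm_num) (by norm_num) (by norm_num) (by norm_num) (by norm_num) (by norm_num) (by norm_num) (by norm_num)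
  have e : ∀ n : ℕ, Mem ((n : ℝ) / (100000 : ℕ)) (cst n 100000) := fun n => mem_cst (by norm_num)
  have klo := (H.dat (kap := (35000 : ℕ) / (100000 : ℕ)) bb22b_33_lo rfl (by positivity) (by norm_num)
    (by norm_num) (by norm_num) (by norm_num) (by norm_num) (by norm_num) (by norm_num)
    (by norm_num) mb (e 35000) mw).lo rfl
  have khi := (H.dat (kap := (39300 : ℕ) / (100000 : ℕ)) bb22b_33_hi rfl (by positivity) (by norm_num)
    (by norm_num) (by norm_num) (by norm_num) (by norm_num) (by norm_num) (by norm_num)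
    (by norm_num) mb (e 39300) mw).hi rfl
  push_cast at klo khi
  constructor
  · linarith
  · linarith

theorem bb22b_34_lo : bb (test ⟨rng 36050 36052 100000, rng 79968 79969 100000, cst 33300 100000, false, 0⟩)
    [0, 2, 0, 1, 0, 0, 1, 0, 2, 1, 0, 1, 0]
    (rng 50000 59161 100000) (rng 83066 87006 100000) (rng 42577 48176 100000) one = true := by
  decide +kernel

theorem bb22b_34_hi : bb (test ⟨rng 36050 36052 100000, rng 79968 79969 100000, cst 38100 100000, false, 1⟩)
    [0, 2, 0, 1, 2, 0, 0, 1, 0, 1, 0, 1, 2, 0]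
    (rng 50000 59161 100000) (rng 83066 87006 100000) (rng 42577 48176 100000) one = true := by
  decide +kernel

/-- Height range `34`. -/
theorem h22b_34 {θ θ' : ℝ} {v w : ℂ}
    (H : H22b θ θ' v w (59 / 200) (7 / 50) (4 / 25) (69 / 100) (757 / 1000) (1 / 4) (7 / 20)) :
    (333 / 1000) * Real.tan θ ≤ Real.sinh (Real.pi * (yv v w).im) ∧
      Real.sinh (Real.pi * (yv v w).im) ≤ (381 / 1000) * Real.tan θ := by
  have mb := base_mem (a0 := (59 / 200)) (a := 36050) (b := 36052) (c := 79968) (d := 79969) (D := 100000)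
    (x1 := (6440259 / 10000000)) (x2 := (161007 / 250000)) (l := (1501049 / 2500000)) (u := (1200861 / 2000000))
    (by norm_num) (by norm_num) (by norm_num) (by norm_num) (by norm_num) (by norm_num) (by norm_num) (by norm_num)
    (by norm_num) (by norm_num) (by norm_num) (by norm_num) (by norm_num) (by norm_num)
  have mw := w_mem_sin (a := 42577) (b := 48176) (D := 100000) (x1 := (2199113 / 5000000)) (x2 := (7854 / 15625)) (by norm_num) H.w1 H.w2
    (by norm_num) (by norm_num) (by norm_num) (by norm_num) (by norm_num) (by norm_num) (by norm_num) (by norm_num)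
  have e : ∀ n : ℕ, Mem ((n : ℝ) / (100000 : ℕ)) (cst n 100000) := fun n => mem_cst (by norm_num)
  have klo := (H.dat (kap := (33300 : ℕ) / (100000 : ℕ)) bb22b_34_lo rfl (by positivity) (by norm_num)
    (by norm_num) (by norm_num) (by norm_num) (by norm_num) (by norm_num) (by norm_num)
    (by norm_num) mb (e 33300) mw).lo rfl
  have khi := (H.dat (kap := (38100 : ℕ) / (100000 : ℕ)) bb22b_34_hi rfl (by positivity) (by norm_num)
    (by norm_num) (by norm_num) (by norm_num) (by norm_num) (by norm_num) (by norm_num)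
    (by norm_num) mb (e 38100) mw).hi rfl
  push_cast at klo khi
  constructor
  · linarith
  · linarith

theorem bb22b_35_lo : bb (test ⟨rng 36050 36052 100000, rng 79968 79969 100000, cst 35000 100000, false, 0⟩)
    [0, 2, 0, 1, 2, 0, 0, 1, 0, 1, 0, 2, 1, 0]
    (rng 59160 67083 100000) (rng 83066 87006 100000) (rng 42577 48176 100000) one = true := by
  decide +kernel

theorem bb22b_35_hi : bb (test ⟨rng 36050 36052 100000, rng 79968 79969 100000, cst 39100 100000, false, 1⟩)
    [0, 2, 0, 1, 2, 0, 0, 1, 0, 1, 0, 2, 1, 0, 2]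
    (rng 59160 67083 100000) (rng 83066 87006 100000) (rng 42577 48176 100000) one = true := by
  decide +kernel

/-- Height range `35`. -/
theorem h22b_35 {θ θ' : ℝ} {v w : ℂ}
    (H : H22b θ θ' v w (59 / 200) (7 / 50) (4 / 25) (69 / 100) (757 / 1000) (7 / 20) (9 / 20)) :
    (7 / 20) * Real.tan θ ≤ Real.sinh (Real.pi * (yv v w).im) ∧
      Real.sinh (Real.pi * (yv v w).im) ≤ (391 / 1000) * Real.tan θ := by
  have mb := base_mem (a0 := (59 / 200)) (a := 36050) (b := 36052) (c := 79968) (d := 79969) (D := 100000)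
    (x1 := (6440259 / 10000000)) (x2 := (161007 / 250000)) (l := (1501049 / 2500000)) (u := (1200861 / 2000000))
    (by norm_num) (by norm_num) (by norm_num) (by norm_num) (by norm_num) (by norm_num) (by norm_num) (by norm_num)
    (by norm_num) (by norm_num) (by norm_num) (by norm_num) (by norm_num) (by norm_num)
  have mw := w_mem_sin (a := 42577) (b := 48176) (D := 100000) (x1 := (2199113 / 5000000)) (x2 := (7854 / 15625)) (by norm_num) H.w1 H.w2
    (by norm_num) (by norm_num) (by norm_num) (by norm_num) (by norm_num) (by norm_num) (by norm_num) (by norm_num)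
  have e : ∀ n : ℕ, Mem ((n : ℝ) / (100000 : ℕ)) (cst n 100000) := fun n => mem_cst (by norm_num)
  have klo := (H.dat (kap := (35000 : ℕ) / (100000 : ℕ)) bb22b_35_lo rfl (by positivity) (by norm_num)
    (by norm_num) (by norm_num) (by norm_num) (by norm_num) (by norm_num) (by norm_num)
    (by norm_num) mb (e 35000) mw).lo rfl
  have khi := (H.dat (kap := (39100 : ℕ) / (100000 : ℕ)) bb22b_35_hi rfl (by positivity) (by norm_num)
    (by norm_num) (by norm_num) (by norm_num) (by norm_num) (by norm_num) (by norm_num)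
    (by norm_num) mb (e 39100) mw).hi rfl
  push_cast at klo khi
  constructor
  · linarith
  · linarith

theorem bb22b_36_lo : bb (test ⟨rng 36050 36052 100000, rng 79968 79969 100000, cst 25100 100000, false, 0⟩)
    [0, 1, 0, 1, 2, 0, 0, 1, 0, 1, 0, 1, 2, 0, 1, 0, 2]
    (rng 50000 70711 100000) (rng 50000 70000 100000) (rng 48175 53584 100000) one = true := by
  decide +kernel

theorem bb22b_36_hi : bb (test ⟨rng 36050 36052 100000, rng 79968 79969 100000, cst 34000 100000, false, 1⟩)
    [0, 1, 0, 1, 2, 0, 0, 1, 0, 1, 0, 1, 2, 0, 1, 2, 1, 0]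
    (rng 50000 70711 100000) (rng 50000 70000 100000) (rng 48175 53584 100000) one = true := by
  decide +kernel

/-- Height range `36`. -/
theorem h22b_36 {θ θ' : ℝ} {v w : ℂ}
    (H : H22b θ θ' v w (59 / 200) (4 / 25) (9 / 50) (1 / 4) (49 / 100) (1 / 4) (1 / 2)) :
    (251 / 1000) * Real.tan θ ≤ Real.sinh (Real.pi * (yv v w).im) ∧
      Real.sinh (Real.pi * (yv v w).im) ≤ (17 / 50) * Real.tan θ := by
  have mb := base_mem (a0 := (59 / 200)) (a := 36050) (b := 36052) (c := 79968) (d := 79969) (D := 100000)
    (x1 := (6440259 / 10000000)) (x2 := (161007 / 250000)) (l := (1501049 / 2500000)) (u := (1200861 / 2000000))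
    (by norm_num) (by norm_num) (by norm_num) (by norm_num) (by norm_num) (by norm_num) (by norm_num) (by norm_num)
    (by norm_num) (by norm_num) (by norm_num) (by norm_num) (by norm_num) (by norm_num)
  have mw := w_mem_sin (a := 48175) (b := 53584) (D := 100000) (x1 := (314159 / 625000)) (x2 := (35343 / 62500)) (by norm_num) H.w1 H.w2
    (by norm_num) (by norm_num) (by norm_num) (by norm_num) (by norm_num) (by norm_num) (by norm_num) (by norm_num)
  have e : ∀ n : ℕ, Mem ((n : ℝ) / (100000 : ℕ)) (cst n 100000) := fun n => mem_cst (by norm_num)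
  have klo := (H.dat (kap := (25100 : ℕ) / (100000 : ℕ)) bb22b_36_lo rfl (by positivity) (by norm_num)
    (by norm_num) (by norm_num) (by norm_num) (by norm_num) (by norm_num) (by norm_num)
    (by norm_num) mb (e 25100) mw).lo rfl
  have khi := (H.dat (kap := (34000 : ℕ) / (100000 : ℕ)) bb22b_36_hi rfl (by positivity) (by norm_num)
    (by norm_num) (by norm_num) (by norm_num) (by norm_num) (by norm_num) (by norm_num)
    (by norm_num) mb (e 34000) mw).hi rfl
  push_cast at klo khi
  constructor
  · linarith
  · linarith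

theorem bb22b_37_lo : bb (test ⟨rng 36050 36052 100000, rng 79968 79969 100000, cst 26700 100000, false, 0⟩)
    [1, 0, 1, 0, 2, 1, 0, 0, 1, 0, 2, 1, 0, 2, 1, 0, 1]
    (rng 70710 87006 100000) (rng 50000 70000 100000) (rng 48175 53584 100000) one = true := by
  decide +kernel

theorem bb22b_37_hi : bb (test ⟨rng 36050 36052 100000, rng 79968 79969 100000, cst 35100 100000, false, 1⟩)
    [1, 0, 1, 0, 2, 1, 0, 0, 1, 0, 1, 2, 0, 1, 2, 0, 1, 0]
    (rng 70710 87006 100000) (rng 50000 70000 100000) (rng 48175 53584 100000) one = true := by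
  decide +kernel

/-- Height range `37`. -/
theorem h22b_37 {θ θ' : ℝ} {v w : ℂ}
    (H : H22b θ θ' v w (59 / 200) (4 / 25) (9 / 50) (1 / 4) (49 / 100) (1 / 2) (757 / 1000)) :
    (267 / 1000) * Real.tan θ ≤ Real.sinh (Real.pi * (yv v w).im) ∧
      Real.sinh (Real.pi * (yv v w).im) ≤ (351 / 1000) * Real.tan θ := by
  have mb := base_mem (a0 := (59 / 200)) (a := 36050) (b := 36052) (c := 79968) (d := 79969) (D := 100000)
    (x1 := (6440259 / 10000000)) (x2 := (161007 / 250000)) (l := (1501049 / 2500000)) (u := (1200861 / 2000000))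
    (by norm_num) (by norm_num) (by norm_num) (by norm_num) (by norm_num) (by norm_num) (by norm_num) (by norm_num)
    (by norm_num) (by norm_num) (by norm_num) (by norm_num) (by norm_num) (by norm_num)
  have mw := w_mem_sin (a := 48175) (b := 53584) (D := 100000) (x1 := (314159 / 625000)) (x2 := (35343 / 62500)) (by norm_num) H.w1 H.w2
    (by norm_num) (by norm_num) (by norm_num) (by norm_num) (by norm_num) (by norm_num) (by norm_num) (by norm_num)
  have e : ∀ n : ℕ, Mem ((n : ℝ) / (100000 : ℕ)) (cst n 100000) := fun n => mem_cst (by norm_num)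
  have klo := (H.dat (kap := (26700 : ℕ) / (100000 : ℕ)) bb22b_37_lo rfl (by positivity) (by norm_num)
    (by norm_num) (by norm_num) (by norm_num) (by norm_num) (by norm_num) (by norm_num)
    (by norm_num) mb (e 26700) mw).lo rfl
  have khi := (H.dat (kap := (35100 : ℕ) / (100000 : ℕ)) bb22b_37_hi rfl (by positivity) (by norm_num)
    (by norm_num) (by norm_num) (by norm_num) (by norm_num) (by norm_num) (by norm_num)
    (by norm_num) mb (e 35100) mw).hi rfl
  push_cast at klo khi
  constructor
  · linarith
  · linarith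

theorem bb22b_38_lo : bb (test ⟨rng 36050 36052 100000, rng 79968 79969 100000, cst 22100 100000, false, 0⟩)
    [0, 1, 0, 1, 2, 0, 1, 0, 1, 0, 2, 0, 1, 1, 0, 1, 2]
    (rng 50000 70711 100000) (rng 50000 70000 100000) (rng 53582 58780 100000) one = true := by
  decide +kernel

theorem bb22b_38_hi : bb (test ⟨rng 36050 36052 100000, rng 79968 79969 100000, cst 31900 100000, false, 1⟩)
    [0, 1, 0, 1, 2, 0, 0, 1, 0, 1, 1, 2, 0, 1, 0, 2, 1, 2]
    (rng 50000 70711 100000) (rng 50000 70000 100000) (rng 53582 58780 100000) one = true := by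
  decide +kernel

/-- Height range `38`. -/
theorem h22b_38 {θ θ' : ℝ} {v w : ℂ}
    (H : H22b θ θ' v w (59 / 200) (9 / 50) (1 / 5) (1 / 4) (49 / 100) (1 / 4) (1 / 2)) :
    (221 / 1000) * Real.tan θ ≤ Real.sinh (Real.pi * (yv v w).im) ∧
      Real.sinh (Real.pi * (yv v w).im) ≤ (319 / 1000) * Real.tan θ := by
  have mb := base_mem (a0 := (59 / 200)) (a := 36050) (b := 36052) (c := 79968) (d := 79969) (D := 100000)
    (x1 := (6440259 / 10000000)) (x2 := (161007 / 250000)) (l := (1501049 / 2500000)) (u := (1200861 / 2000000))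
    (by norm_num) (by norm_num) (by norm_num) (by norm_num) (by norm_num) (by norm_num) (by norm_num) (by norm_num)
    (by norm_num) (by norm_num) (by norm_num) (by norm_num) (by norm_num) (by norm_num)
  have mw := w_mem_sin (a := 53582) (b := 58780) (D := 100000) (x1 := (2827431 / 5000000)) (x2 := (3927 / 6250)) (by norm_num) H.w1 H.w2
    (by norm_num) (by norm_num) (by norm_num) (by norm_num) (by norm_num) (by norm_num) (by norm_num) (by norm_num)
  have e : ∀ n : ℕ, Mem ((n : ℝ) / (100000 : ℕ)) (cst n 100000) := fun n => mem_cst (by norm_num)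
  have klo := (H.dat (kap := (22100 : ℕ) / (100000 : ℕ)) bb22b_38_lo rfl (by positivity) (by norm_num)
    (by norm_num) (by norm_num) (by norm_num) (by norm_num) (by norm_num) (by norm_num)
    (by norm_num) mb (e 22100) mw).lo rfl
  have khi := (H.dat (kap := (31900 : ℕ) / (100000 : ℕ)) bb22b_38_hi rfl (by positivity) (by norm_num)
    (by norm_num) (by norm_num) (by norm_num) (by norm_num) (by norm_num) (by norm_num)
    (by norm_num) mb (e 31900) mw).hi rfl
  push_cast at klo khi
  constructor
  · linarith
  · linarith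

theorem bb22b_39_lo : bb (test ⟨rng 36050 36052 100000, rng 79968 79969 100000, cst 23500 100000, false, 0⟩)
    [1, 0, 1, 0, 2, 1, 0, 0, 1, 2, 0, 1, 2, 0, 1, 0, 2]
    (rng 70710 87006 100000) (rng 50000 70000 100000) (rng 53582 58780 100000) one = true := by
  decide +kernel

theorem bb22b_39_hi : bb (test ⟨rng 36050 36052 100000, rng 79968 79969 100000, cst 33100 100000, false, 1⟩)
    [1, 0, 1, 0, 2, 0, 1, 0, 1, 0, 1, 2, 0, 1, 2, 0, 1, 2]
    (rng 70710 87006 100000) (rng 50000 70000 100000) (rng 53582 58780 100000) one = true := by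
  decide +kernel

/-- Height range `39`. -/
theorem h22b_39 {θ θ' : ℝ} {v w : ℂ}
    (H : H22b θ θ' v w (59 / 200) (9 / 50) (1 / 5) (1 / 4) (49 / 100) (1 / 2) (757 / 1000)) :
    (47 / 200) * Real.tan θ ≤ Real.sinh (Real.pi * (yv v w).im) ∧
      Real.sinh (Real.pi * (yv v w).im) ≤ (331 / 1000) * Real.tan θ := by
  have mb := base_mem (a0 := (59 / 200)) (a := 36050) (b := 36052) (c := 79968) (d := 79969) (D := 100000)
    (x1 := (6440259 / 10000000)) (x2 := (161007 / 250000)) (l := (1501049 / 2500000)) (u := (1200861 / 2000000))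
    (by norm_num) (by norm_num) (by norm_num) (by norm_num) (by norm_num) (by norm_num) (by norm_num) (by norm_num)
    (by norm_num) (by norm_num) (by norm_num) (by norm_num) (by norm_num) (by norm_num)
  have mw := w_mem_sin (a := 53582) (b := 58780) (D := 100000) (x1 := (2827431 / 5000000)) (x2 := (3927 / 6250)) (by norm_num) H.w1 H.w2
    (by norm_num) (by norm_num) (by norm_num) (by norm_num) (by norm_num) (by norm_num) (by norm_num) (by norm_num)
  have e : ∀ n : ℕ, Mem ((n : ℝ) / (100000 : ℕ)) (cst n 100000) := fun n => mem_cst (by norm_num)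
  have klo := (H.dat (kap := (23500 : ℕ) / (100000 : ℕ)) bb22b_39_lo rfl (by positivity) (by norm_num)
    (by norm_num) (by norm_num) (by norm_num) (by norm_num) (by norm_num) (by norm_num)
    (by norm_num) mb (e 23500) mw).lo rfl
  have khi := (H.dat (kap := (33100 : ℕ) / (100000 : ℕ)) bb22b_39_hi rfl (by positivity) (by norm_num)
    (by norm_num) (by norm_num) (by norm_num) (by norm_num) (by norm_num) (by norm_num)
    (by norm_num) mb (e 33100) mw).hi rfl
  push_cast at klo khi
  constructor
  · linarith
  · linarith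

end Pool.Agent.S3.Hz
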