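import Pool.Agent.S3.Hz.B22b

/-!
# Height ranges at two inner vertices with two half twists, in boxes (generated)
-/

set_option autoImplicit false

namespace Pool.Agent.S3.Hz

open Pool.Agent.S3.NI Pool.Agent.S3.T2

theorem bb22b_48_lo : bb (test ⟨rng 21895 21897 100000, rng 88376 88377 100000, cst 10200 100000, false, 0⟩)
    [0, 1, 0, 1, 0, 2, 0, 1, 2, 0, 1, 0, 1, 0, 2, 1, 0, 2]
    (rng 50000 83067 100000) (rng 70000 87006 100000) (rng 80901 84433 100000) one = true := by
  decide +kernel

theorem bb22b_48_hi : bb (test ⟨rng 21895 21897 100000, rng 88376 88377 100000, cst 31200 100000, false, 1⟩)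
    [0, 1, 0, 1, 0, 0, 1, 2, 0, 2, 1, 0, 2, 1, 0, 1, 2, 0, 1, 2, 0]
    (rng 50000 83067 100000) (rng 70000 87006 100000) (rng 80901 84433 100000) one = true := by
  decide +kernel

/-- Height range `48`. -/
theorem h22b_48 {θ θ' : ℝ} {v w : ℂ}
    (H : H22b θ θ' v w (69 / 200) (3 / 10) (8 / 25) (49 / 100) (757 / 1000) (1 / 4) (69 / 100)) :
    (51 / 500) * Real.tan θ ≤ Real.sinh (Real.pi * (yv v w).im) ∧
      Real.sinh (Real.pi * (yv v w).im) ≤ (39 / 125) * Real.tan θ := by
  have mb := base_mem (a0 := (69 / 200)) (a := 21895) (b := 21897) (c := 88376) (d := 88377) (D := 100000)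
    (x1 := (608683 / 1250000)) (x2 := (121737 / 250000)) (l := (2339647 / 5000000)) (u := (2339661 / 5000000))
    (by norm_num) (by norm_num) (by norm_num) (by norm_num) (by norm_num) (by norm_num) (by norm_num) (by norm_num)
    (by norm_num) (by norm_num) (by norm_num) (by norm_num) (by norm_num) (by norm_num)
  have mw := w_mem_cos (a := 80901) (b := 84433) (D := 100000) (x1 := (2827431 / 5000000)) (x2 := (3927 / 6250)) (by norm_num) H.w1 H.w2
    (by norm_num) (by norm_num) (by norm_num) (by norm_num) (by norm_num) (by norm_num) (by norm_num) (by norm_num)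
  have e : ∀ n : ℕ, Mem ((n : ℝ) / (100000 : ℕ)) (cst n 100000) := fun n => mem_cst (by norm_num)
  have klo := (H.dat (kap := (10200 : ℕ) / (100000 : ℕ)) bb22b_48_lo rfl (by positivity) (by norm_num)
    (by norm_num) (by norm_num) (by norm_num) (by norm_num) (by norm_num) (by norm_num)
    (by norm_num) mb (e 10200) mw).lo rfl
  have khi := (H.dat (kap := (31200 : ℕ) / (100000 : ℕ)) bb22b_48_hi rfl (by positivity) (by norm_num)
    (by norm_num) (by norm_num) (by norm_num) (by norm_num) (by norm_num) (by norm_num)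
    (by norm_num) mb (e 31200) mw).hi rfl
  push_cast at klo khi
  constructor
  · linarith
  · linarith

theorem bb22b_49_lo : bb (test ⟨rng 19354 19355 100000, rng 89802 89803 100000, cst 900 100000, false, 0⟩)
    [0, 1, 0, 1, 2, 0, 2, 1, 0, 1, 2, 0, 2, 1, 0, 1, 0, 1, 0]
    (rng 50000 87006 100000) (rng 50000 70000 100000) (rng 84432 88377 100000) one = true := by
  decide +kernel

theorem bb22b_49_hi : bb (test ⟨rng 19354 19355 100000, rng 89802 89803 100000, cst 18500 100000, false, 1⟩)
    [0, 1, 0, 1, 0, 2, 0, 1, 2, 0, 1, 2, 0, 1, 0, 2, 1, 2, 0, 1, 1]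
    (rng 50000 87006 100000) (rng 50000 70000 100000) (rng 84432 88377 100000) one = true := by
  decide +kernel

/-- Height range `49`. -/
theorem h22b_49 {θ θ' : ℝ} {v w : ℂ}
    (H : H22b θ θ' v w (71 / 200) (8 / 25) (69 / 200) (1 / 4) (49 / 100) (1 / 4) (757 / 1000)) :
    (9 / 1000) * Real.tan θ ≤ Real.sinh (Real.pi * (yv v w).im) ∧
      Real.sinh (Real.pi * (yv v w).im) ≤ (37 / 200) * Real.tan θ := by
  have mb := base_mem (a0 := (71 / 200)) (a := 19354) (b := 19355) (c := 89802) (d := 89803) (D := 100000)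
    (x1 := (911061 / 2000000)) (x2 := (113883 / 250000)) (l := (4399387 / 10000000)) (u := (439941 / 1000000))
    (by norm_num) (by norm_num) (by norm_num) (by norm_num) (by norm_num) (by norm_num) (by norm_num) (by norm_num)
    (by norm_num) (by norm_num) (by norm_num) (by norm_num) (by norm_num) (by norm_num)
  have mw := w_mem_cos (a := 84432) (b := 88377) (D := 100000) (x1 := (608683 / 1250000)) (x2 := (35343 / 62500)) (by norm_num) H.w1 H.w2
    (by norm_num) (by norm_num) (by norm_num) (by norm_num) (by norm_num) (by norm_num) (by norm_num) (by norm_num)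
  have e : ∀ n : ℕ, Mem ((n : ℝ) / (100000 : ℕ)) (cst n 100000) := fun n => mem_cst (by norm_num)
  have klo := (H.dat (kap := (900 : ℕ) / (100000 : ℕ)) bb22b_49_lo rfl (by positivity) (by norm_num)
    (by norm_num) (by norm_num) (by norm_num) (by norm_num) (by norm_num) (by norm_num)
    (by norm_num) mb (e 900) mw).lo rfl
  have khi := (H.dat (kap := (18500 : ℕ) / (100000 : ℕ)) bb22b_49_hi rfl (by positivity) (by norm_num)
    (by norm_num) (by norm_num) (by norm_num) (by norm_num) (by norm_num) (by norm_num)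
    (by norm_num) mb (e 18500) mw).hi rfl
  push_cast at klo khi
  constructor
  · linarith
  · linarith

theorem bb22b_50_lo : bb (test ⟨rng 19354 19355 100000, rng 89802 89803 100000, cst 3400 100000, false, 0⟩)
    [0, 1, 0, 1, 2, 0, 2, 0, 1, 0, 1, 2, 1, 0, 2, 1, 0, 1, 0]
    (rng 50000 83067 100000) (rng 70000 87006 100000) (rng 84432 88377 100000) one = true := by
  decide +kernel

theorem bb22b_50_hi : bb (test ⟨rng 19354 19355 100000, rng 89802 89803 100000, cst 28700 100000, false, 1⟩)
    [0, 1, 0, 1, 0, 0, 2, 1, 0, 2, 1, 0, 2, 1, 0, 2, 1, 0, 2, 1, 0, 1, 2]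
    (rng 50000 83067 100000) (rng 70000 87006 100000) (rng 84432 88377 100000) one = true := by
  decide +kernel

/-- Height range `50`. -/
theorem h22b_50 {θ θ' : ℝ} {v w : ℂ}
    (H : H22b θ θ' v w (71 / 200) (8 / 25) (69 / 200) (49 / 100) (757 / 1000) (1 / 4) (69 / 100)) :
    (17 / 500) * Real.tan θ ≤ Real.sinh (Real.pi * (yv v w).im) ∧
      Real.sinh (Real.pi * (yv v w).im) ≤ (287 / 1000) * Real.tan θ := by
  have mb := base_mem (a0 := (71 / 200)) (a := 19354) (b := 19355) (c := 89802) (d := 89803) (D := 100000)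
    (x1 := (911061 / 2000000)) (x2 := (113883 / 250000)) (l := (4399387 / 10000000)) (u := (439941 / 1000000))
    (by norm_num) (by norm_num) (by norm_num) (by norm_num) (by norm_num) (by norm_num) (by norm_num) (by norm_num)
    (by norm_num) (by norm_num) (by norm_num) (by norm_num) (by norm_num) (by norm_num)
  have mw := w_mem_cos (a := 84432) (b := 88377) (D := 100000) (x1 := (608683 / 1250000)) (x2 := (35343 / 62500)) (by norm_num) H.w1 H.w2
    (by norm_num) (by norm_num) (by norm_num) (by norm_num) (by norm_num) (by norm_num) (by norm_num) (by norm_num)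
  have e : ∀ n : ℕ, Mem ((n : ℝ) / (100000 : ℕ)) (cst n 100000) := fun n => mem_cst (by norm_num)
  have klo := (H.dat (kap := (3400 : ℕ) / (100000 : ℕ)) bb22b_50_lo rfl (by positivity) (by norm_num)
    (by norm_num) (by norm_num) (by norm_num) (by norm_num) (by norm_num) (by norm_num)
    (by norm_num) mb (e 3400) mw).lo rfl
  have khi := (H.dat (kap := (28700 : ℕ) / (100000 : ℕ)) bb22b_50_hi rfl (by positivity) (by norm_num)
    (by norm_num) (by norm_num) (by norm_num) (by norm_num) (by norm_num) (by norm_num)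
    (by norm_num) mb (e 28700) mw).hi rfl
  push_cast at klo khi
  constructor
  · linarith
  · linarith

theorem bb22b_51_lo : bb (test ⟨rng 16934 16935 100000, rng 91140 91141 100000, cst 1000 100000, false, 0⟩)
    [0, 1, 0, 1, 0, 2, 1, 0, 1, 0, 2, 1, 0, 1, 0, 1]
    (rng 50000 87006 100000) (rng 50000 70000 100000) (rng 88376 89803 100000) one = true := by
  decide +kernel

theorem bb22b_51_hi : bb (test ⟨rng 16934 16935 100000, rng 91140 91141 100000, cst 12000 100000, false, 1⟩)
    [0, 1, 0, 1, 0, 0, 1, 2, 0, 1, 2, 0, 1, 2, 0, 1, 0, 1]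
    (rng 50000 87006 100000) (rng 50000 70000 100000) (rng 88376 89803 100000) one = true := by
  decide +kernel

/-- Height range `51`. -/
theorem h22b_51 {θ θ' : ℝ} {v w : ℂ}
    (H : H22b θ θ' v w (73 / 200) (69 / 200) (71 / 200) (1 / 4) (49 / 100) (1 / 4) (757 / 1000)) :
    (1 / 100) * Real.tan θ ≤ Real.sinh (Real.pi * (yv v w).im) ∧
      Real.sinh (Real.pi * (yv v w).im) ≤ (3 / 25) * Real.tan θ := by
  have mb := base_mem (a0 := (73 / 200)) (a := 16934) (b := 16935) (c := 91140) (d := 91141) (D := 100000)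
    (x1 := (2120573 / 5000000)) (x2 := (106029 / 250000)) (l := (4115139 / 10000000)) (u := (2057579 / 5000000))
    (by norm_num) (by norm_num) (by norm_num) (by norm_num) (by norm_num) (by norm_num) (by norm_num) (by norm_num)
    (by norm_num) (by norm_num) (by norm_num) (by norm_num) (by norm_num) (by norm_num)
  have mw := w_mem_cos (a := 88376) (b := 89803) (D := 100000) (x1 := (911061 / 2000000)) (x2 := (121737 / 250000)) (by norm_num) H.w1 H.w2
    (by norm_num) (by norm_num) (by norm_num) (by norm_num) (by norm_num) (by norm_num) (by norm_num) (by norm_num)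
  have e : ∀ n : ℕ, Mem ((n : ℝ) / (100000 : ℕ)) (cst n 100000) := fun n => mem_cst (by norm_num)
  have klo := (H.dat (kap := (1000 : ℕ) / (100000 : ℕ)) bb22b_51_lo rfl (by positivity) (by norm_num)
    (by norm_num) (by norm_num) (by norm_num) (by norm_num) (by norm_num) (by norm_num)
    (by norm_num) mb (e 1000) mw).lo rfl
  have khi := (H.dat (kap := (12000 : ℕ) / (100000 : ℕ)) bb22b_51_hi rfl (by positivity) (by norm_num)
    (by norm_num) (by norm_num) (by norm_num) (by norm_num) (by norm_num) (by norm_num)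
    (by norm_num) mb (e 12000) mw).hi rfl
  push_cast at klo khi
  constructor
  · linarith
  · linarith

theorem bb22b_52_lo : bb (test ⟨rng 16934 16935 100000, rng 91140 91141 100000, cst 3700 100000, false, 0⟩)
    [0, 1, 0, 1, 0, 0, 2, 1, 0, 1, 2, 1, 0, 1, 0, 2, 1, 0]
    (rng 50000 83067 100000) (rng 70000 87006 100000) (rng 88376 89803 100000) one = true := by
  decide +kernel

theorem bb22b_52_hi : bb (test ⟨rng 16934 16935 100000, rng 91140 91141 100000, cst 22400 100000, false, 1⟩)
    [0, 1, 0, 1, 0, 0, 1, 0, 2, 1, 2, 0, 1, 2, 0, 1, 2, 0, 1, 0, 1]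
    (rng 50000 83067 100000) (rng 70000 87006 100000) (rng 88376 89803 100000) one = true := by
  decide +kernel

/-- Height range `52`. -/
theorem h22b_52 {θ θ' : ℝ} {v w : ℂ}
    (H : H22b θ θ' v w (73 / 200) (69 / 200) (71 / 200) (49 / 100) (757 / 1000) (1 / 4) (69 / 100)) :
    (37 / 1000) * Real.tan θ ≤ Real.sinh (Real.pi * (yv v w).im) ∧
      Real.sinh (Real.pi * (yv v w).im) ≤ (28 / 125) * Real.tan θ := by
  have mb := base_mem (a0 := (73 / 200)) (a := 16934) (b := 16935) (c := 91140) (d := 91141) (D := 100000)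
    (x1 := (2120573 / 5000000)) (x2 := (106029 / 250000)) (l := (4115139 / 10000000)) (u := (2057579 / 5000000))
    (by norm_num) (by norm_num) (by norm_num) (by norm_num) (by norm_num) (by norm_num) (by norm_num) (by norm_num)
    (by norm_num) (by norm_num) (by norm_num) (by norm_num) (by norm_num) (by norm_num)
  have mw := w_mem_cos (a := 88376) (b := 89803) (D := 100000) (x1 := (911061 / 2000000)) (x2 := (121737 / 250000)) (by norm_num) H.w1 H.w2
    (by norm_num) (by norm_num) (by norm_num) (by norm_num) (by norm_num) (by norm_num) (by norm_num) (by norm_num)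
  have e : ∀ n : ℕ, Mem ((n : ℝ) / (100000 : ℕ)) (cst n 100000) := fun n => mem_cst (by norm_num)
  have klo := (H.dat (kap := (3700 : ℕ) / (100000 : ℕ)) bb22b_52_lo rfl (by positivity) (by norm_num)
    (by norm_num) (by norm_num) (by norm_num) (by norm_num) (by norm_num) (by norm_num)
    (by norm_num) mb (e 3700) mw).lo rfl
  have khi := (H.dat (kap := (22400 : ℕ) / (100000 : ℕ)) bb22b_52_hi rfl (by positivity) (by norm_num)
    (by norm_num) (by norm_num) (by norm_num) (by norm_num) (by norm_num) (by norm_num)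
    (by norm_num) mb (e 22400) mw).hi rfl
  push_cast at klo khi
  constructor
  · linarith
  · linarith

theorem bb22b_53_lo : bb (test ⟨rng 14644 14645 100000, rng 92387 92388 100000, cst 1200 100000, false, 0⟩)
    [0, 1, 0, 1, 0, 2, 1, 0, 1, 0, 2, 1, 0, 1, 0, 1]
    (rng 50000 87006 100000) (rng 50000 70000 100000) (rng 89802 91141 100000) one = true := by
  decide +kernel

theorem bb22b_53_hi : bb (test ⟨rng 14644 14645 100000, rng 92387 92388 100000, cst 12400 100000, false, 1⟩)
    [0, 1, 0, 1, 0, 0, 1, 2, 0, 1, 2, 0, 1, 2, 0, 1, 0, 1, 2]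
    (rng 50000 87006 100000) (rng 50000 70000 100000) (rng 89802 91141 100000) one = true := by
  decide +kernel

/-- Height range `53`. -/
theorem h22b_53 {θ θ' : ℝ} {v w : ℂ}
    (H : H22b θ θ' v w (3 / 8) (71 / 200) (73 / 200) (1 / 4) (49 / 100) (1 / 4) (757 / 1000)) :
    (3 / 250) * Real.tan θ ≤ Real.sinh (Real.pi * (yv v w).im) ∧
      Real.sinh (Real.pi * (yv v w).im) ≤ (31 / 250) * Real.tan θ := by
  have mb := base_mem (a0 := (3 / 8)) (a := 14644) (b := 14645) (c := 92387) (d := 92388) (D := 100000)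
    (x1 := (3926987 / 10000000)) (x2 := (3927 / 10000)) (l := (382683 / 1000000)) (u := (1913423 / 5000000))
    (by norm_num) (by norm_num) (by norm_num) (by norm_num) (by norm_num) (by norm_num) (by norm_num) (by norm_num)
    (by norm_num) (by norm_num) (by norm_num) (by norm_num) (by norm_num) (by norm_num)
  have mw := w_mem_cos (a := 89802) (b := 91141) (D := 100000) (x1 := (2120573 / 5000000)) (x2 := (113883 / 250000)) (by norm_num) H.w1 H.w2
    (by norm_num) (by norm_num) (by norm_num) (by norm_num) (by norm_num) (by norm_num) (by norm_num) (by norm_num)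
  have e : ∀ n : ℕ, Mem ((n : ℝ) / (100000 : ℕ)) (cst n 100000) := fun n => mem_cst (by norm_num)
  have klo := (H.dat (kap := (1200 : ℕ) / (100000 : ℕ)) bb22b_53_lo rfl (by positivity) (by norm_num)
    (by norm_num) (by norm_num) (by norm_num) (by norm_num) (by norm_num) (by norm_num)
    (by norm_num) mb (e 1200) mw).lo rfl
  have khi := (H.dat (kap := (12400 : ℕ) / (100000 : ℕ)) bb22b_53_hi rfl (by positivity) (by norm_num)
    (by norm_num) (by norm_num) (by norm_num) (by norm_num) (by norm_num) (by norm_num)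
    (by norm_num) mb (e 12400) mw).hi rfl
  push_cast at klo khi
  constructor
  · linarith
  · linarith

theorem bb22b_54_lo : bb (test ⟨rng 14644 14645 100000, rng 92387 92388 100000, cst 4100 100000, false, 0⟩)
    [0, 1, 0, 1, 0, 0, 2, 1, 0, 1, 2, 0, 1, 0, 1, 1, 0, 2]
    (rng 50000 83067 100000) (rng 70000 87006 100000) (rng 89802 91141 100000) one = true := by
  decide +kernel

theorem bb22b_54_hi : bb (test ⟨rng 14644 14645 100000, rng 92387 92388 100000, cst 23100 100000, false, 1⟩)
    [0, 1, 0, 0, 1, 0, 1, 2, 0, 1, 2, 0, 1, 2, 0, 1, 2, 0, 1, 0, 1, 2]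
    (rng 50000 83067 100000) (rng 70000 87006 100000) (rng 89802 91141 100000) one = true := by
  decide +kernel

/-- Height range `54`. -/
theorem h22b_54 {θ θ' : ℝ} {v w : ℂ}
    (H : H22b θ θ' v w (3 / 8) (71 / 200) (73 / 200) (49 / 100) (757 / 1000) (1 / 4) (69 / 100)) :
    (41 / 1000) * Real.tan θ ≤ Real.sinh (Real.pi * (yv v w).im) ∧
      Real.sinh (Real.pi * (yv v w).im) ≤ (231 / 1000) * Real.tan θ := by
  have mb := base_mem (a0 := (3 / 8)) (a := 14644) (b := 14645) (c := 92387) (d := 92388) (D := 100000)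
    (x1 := (3926987 / 10000000)) (x2 := (3927 / 10000)) (l := (382683 / 1000000)) (u := (1913423 / 5000000))
    (by norm_num) (by norm_num) (by norm_num) (by norm_num) (by norm_num) (by norm_num) (by norm_num) (by norm_num)
    (by norm_num) (by norm_num) (by norm_num) (by norm_num) (by norm_num) (by norm_num)
  have mw := w_mem_cos (a := 89802) (b := 91141) (D := 100000) (x1 := (2120573 / 5000000)) (x2 := (113883 / 250000)) (by norm_num) H.w1 H.w2
    (by norm_num) (by norm_num) (by norm_num) (by norm_num) (by norm_num) (by norm_num) (by norm_num) (by norm_num)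
  have e : ∀ n : ℕ, Mem ((n : ℝ) / (100000 : ℕ)) (cst n 100000) := fun n => mem_cst (by norm_num)
  have klo := (H.dat (kap := (4100 : ℕ) / (100000 : ℕ)) bb22b_54_lo rfl (by positivity) (by norm_num)
    (by norm_num) (by norm_num) (by norm_num) (by norm_num) (by norm_num) (by norm_num)
    (by norm_num) mb (e 4100) mw).lo rfl
  have khi := (H.dat (kap := (23100 : ℕ) / (100000 : ℕ)) bb22b_54_hi rfl (by positivity) (by norm_num)
    (by norm_num) (by norm_num) (by norm_num) (by norm_num) (by norm_num) (by norm_num)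
    (by norm_num) mb (e 23100) mw).hi rfl
  push_cast at klo khi
  constructor
  · linarith
  · linarith

theorem bb22b_55_lo : bb (test ⟨rng 12494 12495 100000, rng 93544 93545 100000, cst 1400 100000, false, 0⟩)
    [0, 1, 0, 1, 0, 2, 1, 0, 1, 0, 2, 1, 0, 1, 0, 1]
    (rng 50000 87006 100000) (rng 50000 70000 100000) (rng 91140 92388 100000) one = true := by
  decide +kernel

theorem bb22b_55_hi : bb (test ⟨rng 12494 12495 100000, rng 93544 93545 100000, cst 12700 100000, false, 1⟩)
    [0, 1, 0, 1, 0, 0, 1, 2, 0, 1, 2, 0, 1, 2, 0, 1, 2, 0, 1, 0]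
    (rng 50000 87006 100000) (rng 50000 70000 100000) (rng 91140 92388 100000) one = true := by
  decide +kernel

/-- Height range `55`. -/
theorem h22b_55 {θ θ' : ℝ} {v w : ℂ}
    (H : H22b θ θ' v w (77 / 200) (73 / 200) (3 / 8) (1 / 4) (49 / 100) (1 / 4) (757 / 1000)) :
    (7 / 500) * Real.tan θ ≤ Real.sinh (Real.pi * (yv v w).im) ∧
      Real.sinh (Real.pi * (yv v w).im) ≤ (127 / 1000) * Real.tan θ := by
  have mb := base_mem (a0 := (77 / 200)) (a := 12494) (b := 12495) (c := 93544) (d := 93545) (D := 100000)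
    (x1 := (903207 / 2500000)) (x2 := (90321 / 250000)) (l := (706949 / 2000000)) (u := (1767379 / 5000000))
    (by norm_num) (by norm_num) (by norm_num) (by norm_num) (by norm_num) (by norm_num) (by norm_num) (by norm_num)
    (by norm_num) (by norm_num) (by norm_num) (by norm_num) (by norm_num) (by norm_num)
  have mw := w_mem_cos (a := 91140) (b := 92388) (D := 100000) (x1 := (3926987 / 10000000)) (x2 := (106029 / 250000)) (by norm_num) H.w1 H.w2
    (by norm_num) (by norm_num) (by norm_num) (by norm_num) (by norm_num) (by norm_num) (by norm_num) (by norm_num)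
  have e : ∀ n : ℕ, Mem ((n : ℝ) / (100000 : ℕ)) (cst n 100000) := fun n => mem_cst (by norm_num)
  have klo := (H.dat (kap := (1400 : ℕ) / (100000 : ℕ)) bb22b_55_lo rfl (by positivity) (by norm_num)
    (by norm_num) (by norm_num) (by norm_num) (by norm_num) (by norm_num) (by norm_num)
    (by norm_num) mb (e 1400) mw).lo rfl
  have khi := (H.dat (kap := (12700 : ℕ) / (100000 : ℕ)) bb22b_55_hi rfl (by positivity) (by norm_num)
    (by norm_num) (by norm_num) (by norm_num) (by norm_num) (by norm_num) (by norm_num)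
    (by norm_num) mb (e 12700) mw).hi rfl
  push_cast at klo khi
  constructor
  · linarith
  · linarith

end Pool.Agent.S3.Hz
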