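import Pool.Agent.S3.Hz.B22b

/-!
# Height ranges at two inner vertices with two half twists, in boxes (generated)
-/

set_option autoImplicit false

namespace Pool.Agent.S3.Hz

open Pool.Agent.S3.NI Pool.Agent.S3.T2

theorem bb22b_56_lo : bb (test ⟨rng 12494 12495 100000, rng 93544 93545 100000, cst 4500 100000, false, 0⟩)
    [0, 1, 0, 1, 0, 0, 2, 1, 0, 1, 2, 0, 1, 1, 0, 2, 1, 0]
    (rng 50000 83067 100000) (rng 70000 87006 100000) (rng 91140 92388 100000) one = true := by
  decide +kernel

theorem bb22b_56_hi : bb (test ⟨rng 12494 12495 100000, rng 93544 93545 100000, cst 23600 100000, false, 1⟩)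
    [0, 1, 0, 0, 1, 0, 1, 2, 0, 1, 2, 0, 1, 2, 0, 1, 2, 0, 1, 2, 0, 1]
    (rng 50000 83067 100000) (rng 70000 87006 100000) (rng 91140 92388 100000) one = true := by
  decide +kernel

/-- Height range `56`. -/
theorem h22b_56 {θ θ' : ℝ} {v w : ℂ}
    (H : H22b θ θ' v w (77 / 200) (73 / 200) (3 / 8) (49 / 100) (757 / 1000) (1 / 4) (69 / 100)) :
    (9 / 200) * Real.tan θ ≤ Real.sinh (Real.pi * (yv v w).im) ∧
      Real.sinh (Real.pi * (yv v w).im) ≤ (59 / 250) * Real.tan θ := by
  have mb := base_mem (a0 := (77 / 200)) (a := 12494) (b := 12495) (c := 93544) (d := 93545) (D := 100000)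
    (x1 := (903207 / 2500000)) (x2 := (90321 / 250000)) (l := (706949 / 2000000)) (u := (1767379 / 5000000))
    (by norm_num) (by norm_num) (by norm_num) (by norm_num) (by norm_num) (by norm_num) (by norm_num) (by norm_num)
    (by norm_num) (by norm_num) (by norm_num) (by norm_num) (by norm_num) (by norm_num)
  have mw := w_mem_cos (a := 91140) (b := 92388) (D := 100000) (x1 := (3926987 / 10000000)) (x2 := (106029 / 250000)) (by norm_num) H.w1 H.w2
    (by norm_num) (by norm_num) (by norm_num) (by norm_num) (by norm_num) (by norm_num) (by norm_num) (by norm_num)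
  have e : ∀ n : ℕ, Mem ((n : ℝ) / (100000 : ℕ)) (cst n 100000) := fun n => mem_cst (by norm_num)
  have klo := (H.dat (kap := (4500 : ℕ) / (100000 : ℕ)) bb22b_56_lo rfl (by positivity) (by norm_num)
    (by norm_num) (by norm_num) (by norm_num) (by norm_num) (by norm_num) (by norm_num)
    (by norm_num) mb (e 4500) mw).lo rfl
  have khi := (H.dat (kap := (23600 : ℕ) / (100000 : ℕ)) bb22b_56_hi rfl (by positivity) (by norm_num)
    (by norm_num) (by norm_num) (by norm_num) (by norm_num) (by norm_num) (by norm_num)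
    (by norm_num) mb (e 23600) mw).hi rfl
  push_cast at klo khi
  constructor
  · linarith
  · linarith

theorem bb22b_57_lo : bb (test ⟨rng 11474 11475 100000, rng 94088 94089 100000, cst 1500 100000, false, 0⟩)
    [0, 1, 0, 1, 0, 0, 1, 1, 0, 2, 1, 0, 1, 0]
    (rng 50000 87006 100000) (rng 50000 70000 100000) (rng 92387 92978 100000) one = true := by
  decide +kernel

theorem bb22b_57_hi : bb (test ⟨rng 11474 11475 100000, rng 94088 94089 100000, cst 10200 100000, false, 1⟩)
    [0, 1, 0, 1, 0, 0, 1, 0, 1, 2, 0, 1, 2, 0, 1, 0, 1]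
    (rng 50000 87006 100000) (rng 50000 70000 100000) (rng 92387 92978 100000) one = true := by
  decide +kernel

/-- Height range `57`. -/
theorem h22b_57 {θ θ' : ℝ} {v w : ℂ}
    (H : H22b θ θ' v w (39 / 100) (3 / 8) (19 / 50) (1 / 4) (49 / 100) (1 / 4) (757 / 1000)) :
    (3 / 200) * Real.tan θ ≤ Real.sinh (Real.pi * (yv v w).im) ∧
      Real.sinh (Real.pi * (yv v w).im) ≤ (51 / 500) * Real.tan θ := by
  have mb := base_mem (a0 := (39 / 100)) (a := 11474) (b := 11475) (c := 94088) (d := 94089) (D := 100000)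
    (x1 := (3455749 / 10000000)) (x2 := (43197 / 125000)) (l := (211711 / 625000)) (u := (846847 / 2500000))
    (by norm_num) (by norm_num) (by norm_num) (by norm_num) (by norm_num) (by norm_num) (by norm_num) (by norm_num)
    (by norm_num) (by norm_num) (by norm_num) (by norm_num) (by norm_num) (by norm_num)
  have mw := w_mem_cos (a := 92387) (b := 92978) (D := 100000) (x1 := (942477 / 2500000)) (x2 := (3927 / 10000)) (by norm_num) H.w1 H.w2
    (by norm_num) (by norm_num) (by norm_num) (by norm_num) (by norm_num) (by norm_num) (by norm_num) (by norm_num)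
  have e : ∀ n : ℕ, Mem ((n : ℝ) / (100000 : ℕ)) (cst n 100000) := fun n => mem_cst (by norm_num)
  have klo := (H.dat (kap := (1500 : ℕ) / (100000 : ℕ)) bb22b_57_lo rfl (by positivity) (by norm_num)
    (by norm_num) (by norm_num) (by norm_num) (by norm_num) (by norm_num) (by norm_num)
    (by norm_num) mb (e 1500) mw).lo rfl
  have khi := (H.dat (kap := (10200 : ℕ) / (100000 : ℕ)) bb22b_57_hi rfl (by positivity) (by norm_num)
    (by norm_num) (by norm_num) (by norm_num) (by norm_num) (by norm_num) (by norm_num)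
    (by norm_num) mb (e 10200) mw).hi rfl
  push_cast at klo khi
  constructor
  · linarith
  · linarith

theorem bb22b_58_lo : bb (test ⟨rng 11474 11475 100000, rng 94088 94089 100000, cst 4700 100000, false, 0⟩)
    [0, 1, 0, 1, 0, 0, 1, 0, 1, 2, 0, 1, 1, 0, 1, 0]
    (rng 50000 83067 100000) (rng 70000 87006 100000) (rng 92387 92978 100000) one = true := by
  decide +kernel

theorem bb22b_58_hi : bb (test ⟨rng 11474 11475 100000, rng 94088 94089 100000, cst 20600 100000, false, 1⟩)
    [0, 1, 0, 0, 1, 0, 1, 0, 1, 2, 0, 1, 2, 0, 1, 2, 0, 1, 0, 1]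
    (rng 50000 83067 100000) (rng 70000 87006 100000) (rng 92387 92978 100000) one = true := by
  decide +kernel

/-- Height range `58`. -/
theorem h22b_58 {θ θ' : ℝ} {v w : ℂ}
    (H : H22b θ θ' v w (39 / 100) (3 / 8) (19 / 50) (49 / 100) (757 / 1000) (1 / 4) (69 / 100)) :
    (47 / 1000) * Real.tan θ ≤ Real.sinh (Real.pi * (yv v w).im) ∧
      Real.sinh (Real.pi * (yv v w).im) ≤ (103 / 500) * Real.tan θ := by
  have mb := base_mem (a0 := (39 / 100)) (a := 11474) (b := 11475) (c := 94088) (d := 94089) (D := 100000)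
    (x1 := (3455749 / 10000000)) (x2 := (43197 / 125000)) (l := (211711 / 625000)) (u := (846847 / 2500000))
    (by norm_num) (by norm_num) (by norm_num) (by norm_num) (by norm_num) (by norm_num) (by norm_num) (by norm_num)
    (by norm_num) (by norm_num) (by norm_num) (by norm_num) (by norm_num) (by norm_num)
  have mw := w_mem_cos (a := 92387) (b := 92978) (D := 100000) (x1 := (942477 / 2500000)) (x2 := (3927 / 10000)) (by norm_num) H.w1 H.w2
    (by norm_num) (by norm_num) (by norm_num) (by norm_num) (by norm_num) (by norm_num) (by norm_num) (by norm_num)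
  have e : ∀ n : ℕ, Mem ((n : ℝ) / (100000 : ℕ)) (cst n 100000) := fun n => mem_cst (by norm_num)
  have klo := (H.dat (kap := (4700 : ℕ) / (100000 : ℕ)) bb22b_58_lo rfl (by positivity) (by norm_num)
    (by norm_num) (by norm_num) (by norm_num) (by norm_num) (by norm_num) (by norm_num)
    (by norm_num) mb (e 4700) mw).lo rfl
  have khi := (H.dat (kap := (20600 : ℕ) / (100000 : ℕ)) bb22b_58_hi rfl (by positivity) (by norm_num)
    (by norm_num) (by norm_num) (by norm_num) (by norm_num) (by norm_num) (by norm_num)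
    (by norm_num) mb (e 20600) mw).hi rfl
  push_cast at klo khi
  constructor
  · linarith
  · linarith

theorem bb22b_59_lo : bb (test ⟨rng 9921 9922 100000, rng 94909 94910 100000, cst 3200 100000, false, 0⟩)
    [0, 1, 0, 1, 0, 0, 1, 0, 1, 2, 1, 0, 1, 0]
    (rng 50000 87006 100000) (rng 50000 70000 100000) (rng 92977 93545 100000) one = true := by
  decide +kernel

theorem bb22b_59_hi : bb (test ⟨rng 9921 9922 100000, rng 94909 94910 100000, cst 12100 100000, false, 1⟩)
    [0, 1, 0, 1, 0, 0, 1, 0, 1, 2, 0, 1, 2, 0, 1, 2, 0, 1, 1]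
    (rng 50000 87006 100000) (rng 50000 70000 100000) (rng 92977 93545 100000) one = true := by
  decide +kernel

/-- Height range `59`. -/
theorem h22b_59 {θ θ' : ℝ} {v w : ℂ}
    (H : H22b θ θ' v w (199 / 500) (19 / 50) (77 / 200) (1 / 4) (49 / 100) (1 / 4) (757 / 1000)) :
    (4 / 125) * Real.tan θ ≤ Real.sinh (Real.pi * (yv v w).im) ∧
      Real.sinh (Real.pi * (yv v w).im) ≤ (121 / 1000) * Real.tan θ := by
  have mb := base_mem (a0 := (199 / 500)) (a := 9921) (b := 9922) (c := 94909) (d := 94910) (D := 100000)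
    (x1 := (3204421 / 10000000)) (x2 := (80111 / 250000)) (l := (3149861 / 10000000)) (u := (3149881 / 10000000))
    (by norm_num) (by norm_num) (by norm_num) (by norm_num) (by norm_num) (by norm_num) (by norm_num) (by norm_num)
    (by norm_num) (by norm_num) (by norm_num) (by norm_num) (by norm_num) (by norm_num)
  have mw := w_mem_cos (a := 92977) (b := 93545) (D := 100000) (x1 := (903207 / 2500000)) (x2 := (11781 / 31250)) (by norm_num) H.w1 H.w2
    (by norm_num) (by norm_num) (by norm_num) (by norm_num) (by norm_num) (by norm_num) (by norm_num) (by norm_num)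
  have e : ∀ n : ℕ, Mem ((n : ℝ) / (100000 : ℕ)) (cst n 100000) := fun n => mem_cst (by norm_num)
  have klo := (H.dat (kap := (3200 : ℕ) / (100000 : ℕ)) bb22b_59_lo rfl (by positivity) (by norm_num)
    (by norm_num) (by norm_num) (by norm_num) (by norm_num) (by norm_num) (by norm_num)
    (by norm_num) mb (e 3200) mw).lo rfl
  have khi := (H.dat (kap := (12100 : ℕ) / (100000 : ℕ)) bb22b_59_hi rfl (by positivity) (by norm_num)
    (by norm_num) (by norm_num) (by norm_num) (by norm_num) (by norm_num) (by norm_num)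
    (by norm_num) mb (e 12100) mw).hi rfl
  push_cast at klo khi
  constructor
  · linarith
  · linarith

theorem bb22b_60_lo : bb (test ⟨rng 9921 9922 100000, rng 94909 94910 100000, cst 6600 100000, false, 0⟩)
    [0, 1, 0, 1, 0, 0, 1, 0, 1, 0, 1, 0, 2, 1, 1]
    (rng 50000 83067 100000) (rng 70000 87006 100000) (rng 92977 93545 100000) one = true := by
  decide +kernel

theorem bb22b_60_hi : bb (test ⟨rng 9921 9922 100000, rng 94909 94910 100000, cst 22800 100000, false, 1⟩)
    [0, 1, 0, 0, 1, 0, 1, 0, 1, 2, 0, 1, 2, 0, 1, 2, 0, 1, 2, 0, 1]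
    (rng 50000 83067 100000) (rng 70000 87006 100000) (rng 92977 93545 100000) one = true := by
  decide +kernel

/-- Height range `60`. -/
theorem h22b_60 {θ θ' : ℝ} {v w : ℂ}
    (H : H22b θ θ' v w (199 / 500) (19 / 50) (77 / 200) (49 / 100) (757 / 1000) (1 / 4) (69 / 100)) :
    (33 / 500) * Real.tan θ ≤ Real.sinh (Real.pi * (yv v w).im) ∧
      Real.sinh (Real.pi * (yv v w).im) ≤ (57 / 250) * Real.tan θ := by
  have mb := base_mem (a0 := (199 / 500)) (a := 9921) (b := 9922) (c := 94909) (d := 94910) (D := 100000)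
    (x1 := (3204421 / 10000000)) (x2 := (80111 / 250000)) (l := (3149861 / 10000000)) (u := (3149881 / 10000000))
    (by norm_num) (by norm_num) (by norm_num) (by norm_num) (by norm_num) (by norm_num) (by norm_num) (by norm_num)
    (by norm_num) (by norm_num) (by norm_num) (by norm_num) (by norm_num) (by norm_num)
  have mw := w_mem_cos (a := 92977) (b := 93545) (D := 100000) (x1 := (903207 / 2500000)) (x2 := (11781 / 31250)) (by norm_num) H.w1 H.w2
    (by norm_num) (by norm_num) (by norm_num) (by norm_num) (by norm_num) (by norm_num) (by norm_num) (by norm_num)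
  have e : ∀ n : ℕ, Mem ((n : ℝ) / (100000 : ℕ)) (cst n 100000) := fun n => mem_cst (by norm_num)
  have klo := (H.dat (kap := (6600 : ℕ) / (100000 : ℕ)) bb22b_60_lo rfl (by positivity) (by norm_num)
    (by norm_num) (by norm_num) (by norm_num) (by norm_num) (by norm_num) (by norm_num)
    (by norm_num) mb (e 6600) mw).lo rfl
  have khi := (H.dat (kap := (22800 : ℕ) / (100000 : ℕ)) bb22b_60_hi rfl (by positivity) (by norm_num)
    (by norm_num) (by norm_num) (by norm_num) (by norm_num) (by norm_num) (by norm_num)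
    (by norm_num) mb (e 22800) mw).hi rfl
  push_cast at klo khi
  constructor
  · linarith
  · linarith

end Pool.Agent.S3.Hz
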