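import Pool.Agent.H25.RK.DGI
import Pool.Agent.H25.RK.DGf
import Pool.Agent.H63.GO.MTaylor
import Pool.Agent.H63.VC.Asym
import Pool.Agent.H63.VC.EndB
import Pool.Agent.H63.VC.Riem
import Pool.Agent.H63.VC.SlowL
import Pool.Agent.H63.VC.SlowU
import Pool.Agent.H63.VC3.CritB
import Pool.Agent.H63.VC3.Upper
import Pool.Agent.H63.VC4.GaussN
import Pool.Agent.H63.VC4.KBN
import Pool.Agent.H63.VC4.LaplaceN
import Pool.Agent.H63.VC4.UpperN
import Pool.Agent.H63.VC5.Defs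
import Pool.Agent.H63.VC6.LocU
import Pool.Agent.H63.VC6.SlotU
import Pool.Agent.H63.VC7.Link
import Pool.Agent.S3.Asm.Def
import Pool.Agent.S3.Chain
import Pool.Agent.S3.Es12
import Pool.Agent.S3.Es13
import Pool.Agent.S3.Es14
import Pool.Agent.S3.Es15
import Pool.Agent.S3.Es7
import Pool.Agent.S3.Hz.R22b_0
import Pool.Agent.S3.Hz.R22b_1
import Pool.Agent.S3.Hz.R22b_2
import Pool.Agent.S3.Hz.R22b_3
import Pool.Agent.S3.Hz.R22b_4
import Pool.Agent.S3.Hz.R22b_5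
import Pool.Agent.S3.Hz.R22b_6
import Pool.Agent.S3.Hz.R22b_7
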