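import Pool.Agent.S3.Hz.B22b

/-!
# Height ranges at two inner vertices with two half twists, in boxes (generated)
-/

set_option autoImplicit false

namespace Pool.Agent.S3.Hz

open Pool.Agent.S3.NI Pool.Agent.S3.T2

theorem bb22b_40_lo : bb (test ⟨rng 36050 36052 100000, rng 79968 79969 100000, cst 25300 100000, false, 0⟩)
    [0, 1, 0, 2, 1, 0, 0, 1, 0, 2, 1, 0, 2, 1, 0, 2, 1, 0, 0]
    (rng 50000 83067 100000) (rng 70000 87006 100000) (rng 48175 58780 100000) one = true := by
  decide +kernel

theorem bb22b_40_hi : bb (test ⟨rng 36050 36052 100000, rng 79968 79969 100000, cst 39800 100000, false, 1⟩)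
    [0, 1, 0, 2, 1, 0, 0, 0, 1, 2, 1, 0, 1, 2, 0, 1, 2, 0, 1, 2, 1]
    (rng 50000 83067 100000) (rng 70000 87006 100000) (rng 48175 58780 100000) one = true := by
  decide +kernel

/-- Height range `40`. -/
theorem h22b_40 {θ θ' : ℝ} {v w : ℂ}
    (H : H22b θ θ' v w (59 / 200) (4 / 25) (1 / 5) (49 / 100) (757 / 1000) (1 / 4) (69 / 100)) :
    (253 / 1000) * Real.tan θ ≤ Real.sinh (Real.pi * (yv v w).im) ∧
      Real.sinh (Real.pi * (yv v w).im) ≤ (199 / 500) * Real.tan θ := by
  have mb := base_mem (a0 := (59 / 200)) (a := 36050) (b := 36052) (c := 79968) (d := 79969) (D := 100000)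
    (x1 := (6440259 / 10000000)) (x2 := (161007 / 250000)) (l := (1501049 / 2500000)) (u := (1200861 / 2000000))
    (by norm_num) (by norm_num) (by norm_num) (by norm_num) (by norm_num) (by norm_num) (by norm_num) (by norm_num)
    (by norm_num) (by norm_num) (by norm_num) (by norm_num) (by norm_num) (by norm_num)
  have mw := w_mem_sin (a := 48175) (b := 58780) (D := 100000) (x1 := (314159 / 625000)) (x2 := (3927 / 6250)) (by norm_num) H.w1 H.w2
    (by norm_num) (by norm_num) (by norm_num) (by norm_num) (by norm_num) (by norm_num) (by norm_num) (by norm_num)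
  have e : ∀ n : ℕ, Mem ((n : ℝ) / (100000 : ℕ)) (cst n 100000) := fun n => mem_cst (by norm_num)
  have klo := (H.dat (kap := (25300 : ℕ) / (100000 : ℕ)) bb22b_40_lo rfl (by positivity) (by norm_num)
    (by norm_num) (by norm_num) (by norm_num) (by norm_num) (by norm_num) (by norm_num)
    (by norm_num) mb (e 25300) mw).lo rfl
  have khi := (H.dat (kap := (39800 : ℕ) / (100000 : ℕ)) bb22b_40_hi rfl (by positivity) (by norm_num)
    (by norm_num) (by norm_num) (by norm_num) (by norm_num) (by norm_num) (by norm_num)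
    (by norm_num) mb (e 39800) mw).hi rfl
  push_cast at klo khi
  constructor
  · linarith
  · linarith

theorem bb22b_41_lo : bb (test ⟨rng 31593 31595 100000, rng 82707 82709 100000, cst 18100 100000, false, 0⟩)
    [0, 1, 0, 1, 2, 0, 0, 1, 2, 0, 1, 0, 2, 1, 0, 1, 0, 1, 2]
    (rng 50000 87006 100000) (rng 50000 70000 100000) (rng 58776 68455 100000) one = true := by
  decide +kernel

theorem bb22b_41_hi : bb (test ⟨rng 31593 31595 100000, rng 82707 82709 100000, cst 33300 100000, false, 1⟩)
    [0, 1, 0, 1, 2, 0, 0, 1, 0, 2, 1, 0, 1, 2, 0, 1, 2, 0, 1, 2, 0]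
    (rng 50000 87006 100000) (rng 50000 70000 100000) (rng 58776 68455 100000) one = true := by
  decide +kernel

/-- Height range `41`. -/
theorem h22b_41 {θ θ' : ℝ} {v w : ℂ}
    (H : H22b θ θ' v w (31 / 100) (1 / 5) (6 / 25) (1 / 4) (49 / 100) (1 / 4) (757 / 1000)) :
    (181 / 1000) * Real.tan θ ≤ Real.sinh (Real.pi * (yv v w).im) ∧
      Real.sinh (Real.pi * (yv v w).im) ≤ (333 / 1000) * Real.tan θ := by
  have mb := base_mem (a0 := (31 / 100)) (a := 31593) (b := 31595) (c := 82707) (d := 82709) (D := 100000)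
    (x1 := (5969021 / 10000000)) (x2 := (74613 / 125000)) (l := (5620829 / 10000000)) (u := (5620899 / 10000000))
    (by norm_num) (by norm_num) (by norm_num) (by norm_num) (by norm_num) (by norm_num) (by norm_num) (by norm_num)
    (by norm_num) (by norm_num) (by norm_num) (by norm_num) (by norm_num) (by norm_num)
  have mw := w_mem_cos (a := 58776) (b := 68455) (D := 100000) (x1 := (4084067 / 5000000)) (x2 := (11781 / 12500)) (by norm_num) H.w1 H.w2
    (by norm_num) (by norm_num) (by norm_num) (by norm_num) (by norm_num) (by norm_num) (by norm_num) (by norm_num)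
  have e : ∀ n : ℕ, Mem ((n : ℝ) / (100000 : ℕ)) (cst n 100000) := fun n => mem_cst (by norm_num)
  have klo := (H.dat (kap := (18100 : ℕ) / (100000 : ℕ)) bb22b_41_lo rfl (by positivity) (by norm_num)
    (by norm_num) (by norm_num) (by norm_num) (by norm_num) (by norm_num) (by norm_num)
    (by norm_num) mb (e 18100) mw).lo rfl
  have khi := (H.dat (kap := (33300 : ℕ) / (100000 : ℕ)) bb22b_41_hi rfl (by positivity) (by norm_num)
    (by norm_num) (by norm_num) (by norm_num) (by norm_num) (by norm_num) (by norm_num)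
    (by norm_num) mb (e 33300) mw).hi rfl
  push_cast at klo khi
  constructor
  · linarith
  · linarith

theorem bb22b_42_lo : bb (test ⟨rng 31593 31595 100000, rng 82707 82709 100000, cst 21200 100000, false, 0⟩)
    [0, 1, 0, 2, 1, 0, 0, 1, 0, 2, 1, 0, 2, 1, 0, 1, 0, 2, 2]
    (rng 50000 83067 100000) (rng 70000 87006 100000) (rng 58776 68455 100000) one = true := by
  decide +kernel

theorem bb22b_42_hi : bb (test ⟨rng 31593 31595 100000, rng 82707 82709 100000, cst 38600 100000, false, 1⟩)
    [0, 1, 0, 2, 1, 0, 0, 1, 0, 2, 1, 0, 2, 1, 0, 2, 1, 0, 2, 1, 0]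
    (rng 50000 83067 100000) (rng 70000 87006 100000) (rng 58776 68455 100000) one = true := by
  decide +kernel

/-- Height range `42`. -/
theorem h22b_42 {θ θ' : ℝ} {v w : ℂ}
    (H : H22b θ θ' v w (31 / 100) (1 / 5) (6 / 25) (49 / 100) (757 / 1000) (1 / 4) (69 / 100)) :
    (53 / 250) * Real.tan θ ≤ Real.sinh (Real.pi * (yv v w).im) ∧
      Real.sinh (Real.pi * (yv v w).im) ≤ (193 / 500) * Real.tan θ := by
  have mb := base_mem (a0 := (31 / 100)) (a := 31593) (b := 31595) (c := 82707) (d := 82709) (D := 100000)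
    (x1 := (5969021 / 10000000)) (x2 := (74613 / 125000)) (l := (5620829 / 10000000)) (u := (5620899 / 10000000))
    (by norm_num) (by norm_num) (by norm_num) (by norm_num) (by norm_num) (by norm_num) (by norm_num) (by norm_num)
    (by norm_num) (by norm_num) (by norm_num) (by norm_num) (by norm_num) (by norm_num)
  have mw := w_mem_cos (a := 58776) (b := 68455) (D := 100000) (x1 := (4084067 / 5000000)) (x2 := (11781 / 12500)) (by norm_num) H.w1 H.w2
    (by norm_num) (by norm_num) (by norm_num) (by norm_num) (by norm_num) (by norm_num) (by norm_num) (by norm_num)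
  have e : ∀ n : ℕ, Mem ((n : ℝ) / (100000 : ℕ)) (cst n 100000) := fun n => mem_cst (by norm_num)
  have klo := (H.dat (kap := (21200 : ℕ) / (100000 : ℕ)) bb22b_42_lo rfl (by positivity) (by norm_num)
    (by norm_num) (by norm_num) (by norm_num) (by norm_num) (by norm_num) (by norm_num)
    (by norm_num) mb (e 21200) mw).lo rfl
  have khi := (H.dat (kap := (38600 : ℕ) / (100000 : ℕ)) bb22b_42_hi rfl (by positivity) (by norm_num)
    (by norm_num) (by norm_num) (by norm_num) (by norm_num) (by norm_num) (by norm_num)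
    (by norm_num) mb (e 38600) mw).hi rfl
  push_cast at klo khi
  constructor
  · linarith
  · linarith

theorem bb22b_43_lo : bb (test ⟨rng 28285 28287 100000, rng 84684 84685 100000, cst 12000 100000, false, 0⟩)
    [0, 1, 0, 1, 0, 2, 0, 2, 1, 0, 2, 1, 0, 1, 2, 0, 1, 0, 1]
    (rng 50000 87006 100000) (rng 50000 70000 100000) (rng 68454 77052 100000) one = true := by
  decide +kernel

theorem bb22b_43_hi : bb (test ⟨rng 28285 28287 100000, rng 84684 84685 100000, cst 29800 100000, false, 1⟩)
    [0, 1, 0, 1, 0, 2, 0, 1, 0, 2, 1, 0, 2, 1, 0, 2, 1, 0, 2, 1, 1]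
    (rng 50000 87006 100000) (rng 50000 70000 100000) (rng 68454 77052 100000) one = true := by
  decide +kernel

/-- Height range `43`. -/
theorem h22b_43 {θ θ' : ℝ} {v w : ℂ}
    (H : H22b θ θ' v w (643 / 2000) (6 / 25) (7 / 25) (1 / 4) (49 / 100) (1 / 4) (757 / 1000)) :
    (3 / 25) * Real.tan θ ≤ Real.sinh (Real.pi * (yv v w).im) ∧
      Real.sinh (Real.pi * (yv v w).im) ≤ (149 / 500) * Real.tan θ := by
  have mb := base_mem (a0 := (643 / 2000)) (a := 28285) (b := 28287) (c := 84684) (d := 84685) (D := 100000)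
    (x1 := (2803869 / 5000000)) (x2 := (70097 / 125000)) (l := (332401 / 625000)) (u := (531847 / 1000000))
    (by norm_num) (by norm_num) (by norm_num) (by norm_num) (by norm_num) (by norm_num) (by norm_num) (by norm_num)
    (by norm_num) (by norm_num) (by norm_num) (by norm_num) (by norm_num) (by norm_num)
  have mw := w_mem_cos (a := 68454) (b := 77052) (D := 100000) (x1 := (3455749 / 5000000)) (x2 := (51051 / 62500)) (by norm_num) H.w1 H.w2
    (by norm_num) (by norm_num) (by norm_num) (by norm_num) (by norm_num) (by norm_num) (by norm_num) (by norm_num)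
  have e : ∀ n : ℕ, Mem ((n : ℝ) / (100000 : ℕ)) (cst n 100000) := fun n => mem_cst (by norm_num)
  have klo := (H.dat (kap := (12000 : ℕ) / (100000 : ℕ)) bb22b_43_lo rfl (by positivity) (by norm_num)
    (by norm_num) (by norm_num) (by norm_num) (by norm_num) (by norm_num) (by norm_num)
    (by norm_num) mb (e 12000) mw).lo rfl
  have khi := (H.dat (kap := (29800 : ℕ) / (100000 : ℕ)) bb22b_43_hi rfl (by positivity) (by norm_num)
    (by norm_num) (by norm_num) (by norm_num) (by norm_num) (by norm_num) (by norm_num)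
    (by norm_num) mb (e 29800) mw).hi rfl
  push_cast at klo khi
  constructor
  · linarith
  · linarith

theorem bb22b_44_lo : bb (test ⟨rng 28285 28287 100000, rng 84684 84685 100000, cst 14700 100000, false, 0⟩)
    [0, 1, 0, 2, 0, 1, 0, 2, 1, 0, 2, 1, 0, 1, 2, 0, 1, 0, 1]
    (rng 50000 83067 100000) (rng 70000 87006 100000) (rng 68454 77052 100000) one = true := by
  decide +kernel

theorem bb22b_44_hi : bb (test ⟨rng 28285 28287 100000, rng 84684 84685 100000, cst 36400 100000, false, 1⟩)
    [0, 1, 0, 2, 1, 0, 0, 1, 0, 2, 1, 0, 2, 1, 0, 2, 1, 0, 2, 1, 2]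
    (rng 50000 83067 100000) (rng 70000 87006 100000) (rng 68454 77052 100000) one = true := by
  decide +kernel

/-- Height range `44`. -/
theorem h22b_44 {θ θ' : ℝ} {v w : ℂ}
    (H : H22b θ θ' v w (643 / 2000) (6 / 25) (7 / 25) (49 / 100) (757 / 1000) (1 / 4) (69 / 100)) :
    (147 / 1000) * Real.tan θ ≤ Real.sinh (Real.pi * (yv v w).im) ∧
      Real.sinh (Real.pi * (yv v w).im) ≤ (91 / 250) * Real.tan θ := by
  have mb := base_mem (a0 := (643 / 2000)) (a := 28285) (b := 28287) (c := 84684) (d := 84685) (D := 100000)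
    (x1 := (2803869 / 5000000)) (x2 := (70097 / 125000)) (l := (332401 / 625000)) (u := (531847 / 1000000))
    (by norm_num) (by norm_num) (by norm_num) (by norm_num) (by norm_num) (by norm_num) (by norm_num) (by norm_num)
    (by norm_num) (by norm_num) (by norm_num) (by norm_num) (by norm_num) (by norm_num)
  have mw := w_mem_cos (a := 68454) (b := 77052) (D := 100000) (x1 := (3455749 / 5000000)) (x2 := (51051 / 62500)) (by norm_num) H.w1 H.w2
    (by norm_num) (by norm_num) (by norm_num) (by norm_num) (by norm_num) (by norm_num) (by norm_num) (by norm_num)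
  have e : ∀ n : ℕ, Mem ((n : ℝ) / (100000 : ℕ)) (cst n 100000) := fun n => mem_cst (by norm_num)
  have klo := (H.dat (kap := (14700 : ℕ) / (100000 : ℕ)) bb22b_44_lo rfl (by positivity) (by norm_num)
    (by norm_num) (by norm_num) (by norm_num) (by norm_num) (by norm_num) (by norm_num)
    (by norm_num) mb (e 14700) mw).lo rfl
  have khi := (H.dat (kap := (36400 : ℕ) / (100000 : ℕ)) bb22b_44_hi rfl (by positivity) (by norm_num)
    (by norm_num) (by norm_num) (by norm_num) (by norm_num) (by norm_num) (by norm_num)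
    (by norm_num) mb (e 36400) mw).hi rfl
  push_cast at klo khi
  constructor
  · linarith
  · linarith

theorem bb22b_45_lo : bb (test ⟨rng 24547 24549 100000, rng 86863 86864 100000, cst 10400 100000, false, 0⟩)
    [0, 1, 0, 1, 0, 1, 2, 0, 2, 0, 1, 0, 1, 0, 1, 2, 0, 1]
    (rng 50000 87006 100000) (rng 50000 70000 100000) (rng 77051 80902 100000) one = true := by
  decide +kernel

theorem bb22b_45_hi : bb (test ⟨rng 24547 24549 100000, rng 86863 86864 100000, cst 24400 100000, false, 1⟩)
    [0, 1, 0, 1, 0, 0, 1, 2, 0, 1, 2, 0, 1, 2, 0, 1, 2, 0, 1, 0, 2]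
    (rng 50000 87006 100000) (rng 50000 70000 100000) (rng 77051 80902 100000) one = true := by
  decide +kernel

/-- Height range `45`. -/
theorem h22b_45 {θ θ' : ℝ} {v w : ℂ}
    (H : H22b θ θ' v w (67 / 200) (7 / 25) (3 / 10) (1 / 4) (49 / 100) (1 / 4) (757 / 1000)) :
    (13 / 125) * Real.tan θ ≤ Real.sinh (Real.pi * (yv v w).im) ∧
      Real.sinh (Real.pi * (yv v w).im) ≤ (61 / 250) * Real.tan θ := by
  have mb := base_mem (a0 := (67 / 200)) (a := 24547) (b := 24549) (c := 86863) (d := 86864) (D := 100000)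
    (x1 := (5183623 / 10000000)) (x2 := (129591 / 250000)) (l := (2477291 / 5000000)) (u := (2477309 / 5000000))
    (by norm_num) (by norm_num) (by norm_num) (by norm_num) (by norm_num) (by norm_num) (by norm_num) (by norm_num)
    (by norm_num) (by norm_num) (by norm_num) (by norm_num) (by norm_num) (by norm_num)
  have mw := w_mem_cos (a := 77051) (b := 80902) (D := 100000) (x1 := (314159 / 500000)) (x2 := (43197 / 62500)) (by norm_num) H.w1 H.w2
    (by norm_num) (by norm_num) (by norm_num) (by norm_num) (by norm_num) (by norm_num) (by norm_num) (by norm_num)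
  have e : ∀ n : ℕ, Mem ((n : ℝ) / (100000 : ℕ)) (cst n 100000) := fun n => mem_cst (by norm_num)
  have klo := (H.dat (kap := (10400 : ℕ) / (100000 : ℕ)) bb22b_45_lo rfl (by positivity) (by norm_num)
    (by norm_num) (by norm_num) (by norm_num) (by norm_num) (by norm_num) (by norm_num)
    (by norm_num) mb (e 10400) mw).lo rfl
  have khi := (H.dat (kap := (24400 : ℕ) / (100000 : ℕ)) bb22b_45_hi rfl (by positivity) (by norm_num)
    (by norm_num) (by norm_num) (by norm_num) (by norm_num) (by norm_num) (by norm_num)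
    (by norm_num) mb (e 24400) mw).hi rfl
  push_cast at klo khi
  constructor
  · linarith
  · linarith

theorem bb22b_46_lo : bb (test ⟨rng 24547 24549 100000, rng 86863 86864 100000, cst 13200 100000, false, 0⟩)
    [0, 1, 0, 1, 0, 2, 0, 1, 0, 2, 1, 0, 1, 2, 0, 1, 0]
    (rng 50000 83067 100000) (rng 70000 87006 100000) (rng 77051 80902 100000) one = true := by
  decide +kernel

theorem bb22b_46_hi : bb (test ⟨rng 24547 24549 100000, rng 86863 86864 100000, cst 32900 100000, false, 1⟩)
    [0, 1, 0, 1, 0, 0, 1, 2, 0, 1, 2, 0, 1, 2, 0, 1, 2, 0, 1, 2, 0]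
    (rng 50000 83067 100000) (rng 70000 87006 100000) (rng 77051 80902 100000) one = true := by
  decide +kernel

/-- Height range `46`. -/
theorem h22b_46 {θ θ' : ℝ} {v w : ℂ}
    (H : H22b θ θ' v w (67 / 200) (7 / 25) (3 / 10) (49 / 100) (757 / 1000) (1 / 4) (69 / 100)) :
    (33 / 250) * Real.tan θ ≤ Real.sinh (Real.pi * (yv v w).im) ∧
      Real.sinh (Real.pi * (yv v w).im) ≤ (329 / 1000) * Real.tan θ := by
  have mb := base_mem (a0 := (67 / 200)) (a := 24547) (b := 24549) (c := 86863) (d := 86864) (D := 100000)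
    (x1 := (5183623 / 10000000)) (x2 := (129591 / 250000)) (l := (2477291 / 5000000)) (u := (2477309 / 5000000))
    (by norm_num) (by norm_num) (by norm_num) (by norm_num) (by norm_num) (by norm_num) (by norm_num) (by norm_num)
    (by norm_num) (by norm_num) (by norm_num) (by norm_num) (by norm_num) (by norm_num)
  have mw := w_mem_cos (a := 77051) (b := 80902) (D := 100000) (x1 := (314159 / 500000)) (x2 := (43197 / 62500)) (by norm_num) H.w1 H.w2
    (by norm_num) (by norm_num) (by norm_num) (by norm_num) (by norm_num) (by norm_num) (by norm_num) (by norm_num)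
  have e : ∀ n : ℕ, Mem ((n : ℝ) / (100000 : ℕ)) (cst n 100000) := fun n => mem_cst (by norm_num)
  have klo := (H.dat (kap := (13200 : ℕ) / (100000 : ℕ)) bb22b_46_lo rfl (by positivity) (by norm_num)
    (by norm_num) (by norm_num) (by norm_num) (by norm_num) (by norm_num) (by norm_num)
    (by norm_num) mb (e 13200) mw).lo rfl
  have khi := (H.dat (kap := (32900 : ℕ) / (100000 : ℕ)) bb22b_46_hi rfl (by positivity) (by norm_num)
    (by norm_num) (by norm_num) (by norm_num) (by norm_num) (by norm_num) (by norm_num)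
    (by norm_num) mb (e 32900) mw).hi rfl
  push_cast at klo khi
  constructor
  · linarith
  · linarith

theorem bb22b_47_lo : bb (test ⟨rng 21895 21897 100000, rng 88376 88377 100000, cst 7000 100000, false, 0⟩)
    [0, 1, 0, 1, 0, 2, 0, 1, 2, 0, 1, 1, 0, 2, 1, 0, 1]
    (rng 50000 87006 100000) (rng 50000 70000 100000) (rng 80901 84433 100000) one = true := by
  decide +kernel

theorem bb22b_47_hi : bb (test ⟨rng 21895 21897 100000, rng 88376 88377 100000, cst 21800 100000, false, 1⟩)
    [0, 1, 0, 1, 0, 2, 0, 1, 0, 1, 2, 0, 1, 2, 0, 1, 2, 0, 1, 2, 0]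
    (rng 50000 87006 100000) (rng 50000 70000 100000) (rng 80901 84433 100000) one = true := by
  decide +kernel

/-- Height range `47`. -/
theorem h22b_47 {θ θ' : ℝ} {v w : ℂ}
    (H : H22b θ θ' v w (69 / 200) (3 / 10) (8 / 25) (1 / 4) (49 / 100) (1 / 4) (757 / 1000)) :
    (7 / 100) * Real.tan θ ≤ Real.sinh (Real.pi * (yv v w).im) ∧
      Real.sinh (Real.pi * (yv v w).im) ≤ (109 / 500) * Real.tan θ := by
  have mb := base_mem (a0 := (69 / 200)) (a := 21895) (b := 21897) (c := 88376) (d := 88377) (D := 100000)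
    (x1 := (608683 / 1250000)) (x2 := (121737 / 250000)) (l := (2339647 / 5000000)) (u := (2339661 / 5000000))
    (by norm_num) (by norm_num) (by norm_num) (by norm_num) (by norm_num) (by norm_num) (by norm_num) (by norm_num)
    (by norm_num) (by norm_num) (by norm_num) (by norm_num) (by norm_num) (by norm_num)
  have mw := w_mem_cos (a := 80901) (b := 84433) (D := 100000) (x1 := (2827431 / 5000000)) (x2 := (3927 / 6250)) (by norm_num) H.w1 H.w2
    (by norm_num) (by norm_num) (by norm_num) (by norm_num) (by norm_num) (by norm_num) (by norm_num) (by norm_num)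
  have e : ∀ n : ℕ, Mem ((n : ℝ) / (100000 : ℕ)) (cst n 100000) := fun n => mem_cst (by norm_num)
  have klo := (H.dat (kap := (7000 : ℕ) / (100000 : ℕ)) bb22b_47_lo rfl (by positivity) (by norm_num)
    (by norm_num) (by norm_num) (by norm_num) (by norm_num) (by norm_num) (by norm_num)
    (by norm_num) mb (e 7000) mw).lo rfl
  have khi := (H.dat (kap := (21800 : ℕ) / (100000 : ℕ)) bb22b_47_hi rfl (by positivity) (by norm_num)
    (by norm_num) (by norm_num) (by norm_num) (by norm_num) (by norm_num) (by norm_num)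
    (by norm_num) mb (e 21800) mw).hi rfl
  push_cast at klo khi
  constructor
  · linarith
  · linarith

end Pool.Agent.S3.Hz
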