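import Pool.Agent.S3.Hz.B23

/-!
# Height ranges, `w` with at least three half twists, base point `41/125` (generated)
-/

set_option autoImplicit false

namespace Pool.Agent.S3.Hz

open Pool.Agent.S3.NI Pool.Agent.S3.T2

theorem bb23_3_lo : bb (test ⟨rng 26461 26468 100000, rng 85750 85755 100000, cst 25200 100000, false, 0⟩)
    [0, 0, 1, 0, 1, 0, 1, 0, 1, 2, 0, 1, 2, 0, 1, 2, 0, 1, 2, 0, 1, 2]
    (rng 50000 100000 100000) (rng 0 60000 100000) (rng 48165 58799 100000) one = true := by
  decide +kernel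

theorem bb23_3_hi : bb (test ⟨rng 26461 26468 100000, rng 85750 85755 100000, cst 36200 100000, false, 1⟩)
    [0, 1, 0, 1, 0, 1, 0, 1, 0, 2, 1, 0, 2, 1, 0, 2, 1, 0, 2, 1, 0, 2, 1]
    (rng 50000 100000 100000) (rng 0 60000 100000) (rng 48165 58799 100000) one = true := by
  decide +kernel

/-- **Height range** at `re v = 41/125`, `4/25 ≤ re w ≤ 1/5`, `tan θ' ≤ (3 / 5)`. -/
theorem h23_3 {θ θ' : ℝ} {v w : ℂ} (H : H23 θ θ' v w (41 / 125) (4 / 25) (1 / 5) (3 / 5)) :
    (63 / 250) * Real.tan θ ≤ Real.sinh (Real.pi * (yv v w).im) ∧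
      Real.sinh (Real.pi * (yv v w).im) ≤ (181 / 500) * Real.tan θ := by
  have mb := base_mem (a0 := (41 / 125)) (a := 26461) (b := 26468) (c := 85750) (d := 85755) (D := 100000) (x1 := (2701767 / 5000000)) (x2 := (168861 / 312500)) (l := (514439 / 1000000)) (u := (5144433 / 10000000)) (by norm_num) (by norm_num) (by norm_num) (by norm_num) (by norm_num) (by norm_num) (by norm_num) (by norm_num) (by norm_num) (by norm_num) (by norm_num) (by norm_num) (by norm_num) (by norm_num)
  have mw := w_mem_sin (a := 48165) (b := 58799) (D := 100000) (x1 := (314159 / 625000)) (x2 := (3927 / 6250)) (by norm_num) H.w1 H.w2 (by norm_num) (by norm_num) (by norm_num) (by norm_num) (by norm_num) (by norm_num) (by norm_num) (by norm_num)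
  have e : ∀ n : ℕ, Mem ((n : ℝ) / (100000 : ℕ)) (cst n 100000) := fun n => mem_cst (by norm_num)
  obtain ⟨S', dlo⟩ := H.dat (kap := (25200 : ℕ) / (100000 : ℕ)) (Bm := 60000) bb23_3_lo (by positivity)
    (by norm_num) (by norm_num) mb (e 25200) mw
  have klo := dlo.lo rfl
  obtain ⟨S', dhi⟩ := H.dat (kap := (36200 : ℕ) / (100000 : ℕ)) (Bm := 60000) bb23_3_hi (by positivity)
    (by norm_num) (by norm_num) mb (e 36200) mw
  have khi := dhi.hi rfl
  push_cast at klo khi
  constructor
  · linarith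
  · linarith

end Pool.Agent.S3.Hz
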