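import Pool.Agent.S3.Hz.B23

/-!
# Height ranges, `w` with at least three half twists, base point `671/2000` (generated)
-/

set_option autoImplicit false

namespace Pool.Agent.S3.Hz

open Pool.Agent.S3.NI Pool.Agent.S3.T2

theorem bb23_4_lo : bb (test ⟨rng 24409 24416 100000, rng 86938 86943 100000, cst 21400 100000, false, 0⟩)
    [0, 1, 0, 1, 0, 1, 0, 2, 1, 0, 2, 1, 0, 2, 1, 0, 2, 1, 0, 2, 1, 0, 2, 1, 0]
    (rng 50000 100000 100000) (rng 0 60000 100000) (rng 58768 68475 100000) one = true := by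
  decide +kernel

theorem bb23_4_hi : bb (test ⟨rng 24409 24416 100000, rng 86938 86943 100000, cst 34300 100000, false, 1⟩)
    [0, 1, 0, 1, 0, 1, 0, 1, 0, 2, 1, 0, 2, 1, 0, 2, 1, 0, 2, 1, 0, 2, 1, 0]
    (rng 50000 100000 100000) (rng 0 60000 100000) (rng 58768 68475 100000) one = true := by
  decide +kernel

/-- **Height range** at `re v = 671/2000`, `1/5 ≤ re w ≤ 6/25`, `tan θ' ≤ (3 / 5)`. -/
theorem h23_4 {θ θ' : ℝ} {v w : ℂ} (H : H23 θ θ' v w (671 / 2000) (1 / 5) (6 / 25) (3 / 5)) :
    (107 / 500) * Real.tan θ ≤ Real.sinh (Real.pi * (yv v w).im) ∧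
      Real.sinh (Real.pi * (yv v w).im) ≤ (343 / 1000) * Real.tan θ := by
  have mb := base_mem (a0 := (671 / 2000)) (a := 24409) (b := 24416) (c := 86938) (d := 86943) (D := 100000) (x1 := (1033583 / 2000000)) (x2 := (1291983 / 2500000)) (l := (4940931 / 10000000)) (u := (4940967 / 10000000)) (by norm_num) (by norm_num) (by norm_num) (by norm_num) (by norm_num) (by norm_num) (by norm_num) (by norm_num) (by norm_num) (by norm_num) (by norm_num) (by norm_num) (by norm_num) (by norm_num)
  have mw := w_mem_sin (a := 58768) (b := 68475) (D := 100000) (x1 := (314159 / 500000)) (x2 := (11781 / 15625)) (by norm_num) H.w1 H.w2 (by norm_num) (by norm_num) (by norm_num) (by norm_num) (by norm_num) (by norm_num) (by norm_num) (by norm_num)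
  have e : ∀ n : ℕ, Mem ((n : ℝ) / (100000 : ℕ)) (cst n 100000) := fun n => mem_cst (by norm_num)
  obtain ⟨S', dlo⟩ := H.dat (kap := (21400 : ℕ) / (100000 : ℕ)) (Bm := 60000) bb23_4_lo (by positivity)
    (by norm_num) (by norm_num) mb (e 21400) mw
  have klo := dlo.lo rfl
  obtain ⟨S', dhi⟩ := H.dat (kap := (34300 : ℕ) / (100000 : ℕ)) (Bm := 60000) bb23_4_hi (by positivity)
    (by norm_num) (by norm_num) mb (e 34300) mw
  have khi := dhi.hi rfl
  push_cast at klo khi
  constructor
  · linarith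
  · linarith

end Pool.Agent.S3.Hz
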