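import Pool.Agent.S3.Hz.B23

/-!
# Height ranges, `w` with at least three half twists, base point `693/2000` (generated)
-/

set_option autoImplicit false

namespace Pool.Agent.S3.Hz

open Pool.Agent.S3.NI Pool.Agent.S3.T2

theorem bb23_5_lo : bb (test ⟨rng 21504 21511 100000, rng 88594 88599 100000, cst 16600 100000, false, 0⟩)
    [0, 1, 0, 1, 0, 1, 0, 2, 1, 0, 2, 1, 0, 2, 1, 0, 2, 1, 0, 2, 1, 0, 2, 1]
    (rng 50000 100000 100000) (rng 0 60000 100000) (rng 68444 77072 100000) one = true := by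
  decide +kernel

theorem bb23_5_hi : bb (test ⟨rng 21504 21511 100000, rng 88594 88599 100000, cst 32200 100000, false, 1⟩)
    [0, 1, 0, 1, 0, 1, 0, 1, 2, 0, 1, 2, 0, 1, 2, 0, 1, 2, 0, 1]
    (rng 50000 100000 100000) (rng 0 60000 100000) (rng 68444 77072 100000) one = true := by
  decide +kernel

/-- **Height range** at `re v = 693/2000`, `6/25 ≤ re w ≤ 7/25`, `tan θ' ≤ (3 / 5)`. -/
theorem h23_5 {θ θ' : ℝ} {v w : ℂ} (H : H23 θ θ' v w (693 / 2000) (6 / 25) (7 / 25) (3 / 5)) :
    (83 / 500) * Real.tan θ ≤ Real.sinh (Real.pi * (yv v w).im) ∧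
      Real.sinh (Real.pi * (yv v w).im) ≤ (161 / 500) * Real.tan θ := by
  have mb := base_mem (a0 := (693 / 2000)) (a := 21504) (b := 21511) (c := 88594) (d := 88599) (D := 100000) (x1 := (241117 / 500000)) (x2 := (1205589 / 2500000)) (l := (927519 / 2000000)) (u := (2318811 / 5000000)) (by norm_num) (by norm_num) (by norm_num) (by norm_num) (by norm_num) (by norm_num) (by norm_num) (by norm_num) (by norm_num) (by norm_num) (by norm_num) (by norm_num) (by norm_num) (by norm_num)
  have mw := w_mem_cos (a := 68444) (b := 77072) (D := 100000) (x1 := (3455749 / 5000000)) (x2 := (51051 / 62500)) (by norm_num) H.w1 H.w2 (by norm_num) (by norm_num) (by norm_num) (by norm_num) (by norm_num) (by norm_num) (by norm_num) (by norm_num)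
  have e : ∀ n : ℕ, Mem ((n : ℝ) / (100000 : ℕ)) (cst n 100000) := fun n => mem_cst (by norm_num)
  obtain ⟨S', dlo⟩ := H.dat (kap := (16600 : ℕ) / (100000 : ℕ)) (Bm := 60000) bb23_5_lo (by positivity)
    (by norm_num) (by norm_num) mb (e 16600) mw
  have klo := dlo.lo rfl
  obtain ⟨S', dhi⟩ := H.dat (kap := (32200 : ℕ) / (100000 : ℕ)) (Bm := 60000) bb23_5_hi (by positivity)
    (by norm_num) (by norm_num) mb (e 32200) mw
  have khi := dhi.hi rfl
  push_cast at klo khi
  constructor
  · linarith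
  · linarith

end Pool.Agent.S3.Hz
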