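import Pool.Agent.S3.Hz.B23

/-!
# Height ranges, `w` with at least three half twists, base point `73/200` (generated)
-/

set_option autoImplicit false

namespace Pool.Agent.S3.Hz

open Pool.Agent.S3.NI Pool.Agent.S3.T2

theorem bb23_7_lo : bb (test ⟨rng 16931 16938 100000, rng 91138 91143 100000, cst 10500 100000, false, 0⟩)
    [0, 1, 0, 1, 0, 1, 0, 1, 2, 0, 1, 2, 0, 1, 2, 0, 1, 2, 0, 1, 2, 0, 1]
    (rng 50000 100000 100000) (rng 0 60000 100000) (rng 80891 85285 100000) one = true := by
  decide +kernel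

theorem bb23_7_hi : bb (test ⟨rng 16931 16938 100000, rng 91138 91143 100000, cst 25000 100000, false, 1⟩)
    [0, 1, 0, 1, 0, 1, 0, 1, 2, 0, 1, 2, 0, 1, 2, 0, 1, 2, 0, 1, 2, 0, 1, 2, 0]
    (rng 50000 100000 100000) (rng 0 60000 100000) (rng 80891 85285 100000) one = true := by
  decide +kernel

/-- **Height range** at `re v = 73/200`, `3/10 ≤ re w ≤ 13/40`, `tan θ' ≤ (3 / 5)`. -/
theorem h23_7 {θ θ' : ℝ} {v w : ℂ} (H : H23 θ θ' v w (73 / 200) (3 / 10) (13 / 40) (3 / 5)) :
    (21 / 200) * Real.tan θ ≤ Real.sinh (Real.pi * (yv v w).im) ∧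
      Real.sinh (Real.pi * (yv v w).im) ≤ (1 / 4) * Real.tan θ := by
  have mb := base_mem (a0 := (73 / 200)) (a := 16931) (b := 16938) (c := 91138) (d := 91143) (D := 100000) (x1 := (2120573 / 5000000)) (x2 := (106029 / 250000)) (l := (4115139 / 10000000)) (u := (2057579 / 5000000)) (by norm_num) (by norm_num) (by norm_num) (by norm_num) (by norm_num) (by norm_num) (by norm_num) (by norm_num) (by norm_num) (by norm_num) (by norm_num) (by norm_num) (by norm_num) (by norm_num)
  have mw := w_mem_cos (a := 80891) (b := 85285) (D := 100000) (x1 := (2748891 / 5000000)) (x2 := (3927 / 6250)) (by norm_num) H.w1 H.w2 (by norm_num) (by norm_num) (by norm_num) (by norm_num) (by norm_num) (by norm_num) (by norm_num) (by norm_num)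
  have e : ∀ n : ℕ, Mem ((n : ℝ) / (100000 : ℕ)) (cst n 100000) := fun n => mem_cst (by norm_num)
  obtain ⟨S', dlo⟩ := H.dat (kap := (10500 : ℕ) / (100000 : ℕ)) (Bm := 60000) bb23_7_lo (by positivity)
    (by norm_num) (by norm_num) mb (e 10500) mw
  have klo := dlo.lo rfl
  obtain ⟨S', dhi⟩ := H.dat (kap := (25000 : ℕ) / (100000 : ℕ)) (Bm := 60000) bb23_7_hi (by positivity)
    (by norm_num) (by norm_num) mb (e 25000) mw
  have khi := dhi.hi rfl
  push_cast at klo khi
  constructor
  · linarith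
  · linarith

end Pool.Agent.S3.Hz
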